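import Mathlib

/-!
# Both questions of Bloch and Soulé: definitions for the hierarchy by dimension

Everything is over `ℤ/m` for an integer `m ≥ 0`: over `ℤ` if `m = 0`, over `𝔽_p` if `m = p`.
-/

set_option autoImplicit false

open AlgebraicGeometry CategoryTheory MvPolynomial

namespace Pool.Agent.Helper81.HG

universe u

/-! ### The classes of schemes -/

/-- the closed subscheme of affine space over `ℤ/m` (coordinates indexed by `σ`) with equations
`S` -/
noncomputable def Zeros (m : ℕ) {σ : Type} (S : Set (MvPolynomial σ ℤ)) : Scheme.{0} :=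
  Spec (CommRingCat.of (MvPolynomial σ ℤ ⧸ Ideal.span (insert (C (m : ℤ)) S)))

/-- schemes of finite type over `ℤ/m` whose fibres over `Spec ℤ` have dimension `< n`: all residue
fields have transcendence degree `< n` over their prime field -/
def FibreDimLT (m n : ℕ) : Set Scheme.{0} :=
  {X | (∃ f : X ⟶ Spec (CommRingCat.of (ZMod m)), LocallyOfFiniteType f ∧ QuasiCompact f) ∧
    ∀ x : X, Algebra.trdeg (⊥ : Subfield (X.residueField x)) (X.residueField x) < n}

/-- closed subschemes of affine `n`-space -/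
def Closed (m n : ℕ) : Set Scheme.{0} :=
  {Y | ∃ S : Set (MvPolynomial (Fin n) ℤ), Y = Zeros m S}

/-- hypersurfaces `f = 0` in affine `n`-space -/
def Hypersurface (m n : ℕ) : Set Scheme.{0} :=
  {Y | ∃ f : MvPolynomial (Fin n) ℤ, Y = Zeros m {f}}

/-- cones: hypersurfaces `F = 0` in affine `(n + 1)`-space with `F` homogeneous -/
def Cone (m n : ℕ) : Set Scheme.{0} :=
  {Y | ∃ (d : ℕ) (F : MvPolynomial (Fin (n + 1)) ℤ), F.IsHomogeneous d ∧ Y = Zeros m {F}}

/-- determinantal cones: hypersurfaces `det (x_0 M_0 + ... + x_n M_n) = 0` in affine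
`(n + 1)`-space, for square integer matrices `M_l` of the same size -/
def Determinantal (m n : ℕ) : Set Scheme.{0} :=
  {Y | ∃ (s : ℕ) (M : Fin (n + 1) → Matrix (Fin s) (Fin s) ℤ),
    Y = Zeros m {(Matrix.of fun i j => (∑ l, C (M l i j) * X l :
      MvPolynomial (Fin (n + 1)) ℤ)).det}}

/-- `n + 1` bilinear equations `M_l(y, z) = 0` with integer coefficients -/
def Bilinear (m n : ℕ) : Set Scheme.{0} :=
  {Y | ∃ (a b : ℕ) (M : Fin (n + 1) → Fin a → Fin b → ℤ),
    Y = Zeros m (Set.range fun l : Fin (n + 1) => ∑ i, ∑ j, C (M l i j) *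
      (X (Sum.inl i) * X (Sum.inr j) : MvPolynomial (Fin a ⊕ Fin b) ℤ))}

/-- pairs of commuting elements: the equations `A_l(y, z) = 0` for `n + 1` alternating integer
matrices `A_0, ..., A_n`.  These are the pairs `(y, z)` for which the elements `(y, s)` and
`(z, t)` of the group scheme `A^a × A^(n+1)` with multiplication
`(y, s)(z, t) = (y + z, s + t + (∑_{i < j} A_l(i, j) y_i z_j)_l)` commute. -/
def Commuting (m n : ℕ) : Set Scheme.{0} :=
  {Y | ∃ (a : ℕ) (A : Fin (n + 1) → Fin a → Fin a → ℤ), (∀ l i j, A l i j = - A l j i) ∧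
    Y = Zeros m (Set.range fun l : Fin (n + 1) => ∑ i, ∑ j, C (A l i j) *
      (X (Sum.inl i) * X (Sum.inr j) : MvPolynomial (Fin a ⊕ Fin a) ℤ))}

/-- kernels of matrices of linear forms: the equations `(x_0 M_0 + ... + x_n M_n) y = 0` with
unknowns `x_0, ..., x_n` and `y_1, ..., y_b`, for integer matrices `M_l` of the same size -/
def Kernel (m n : ℕ) : Set Scheme.{0} :=
  {Y | ∃ (a b : ℕ) (M : Fin (n + 1) → Fin a → Fin b → ℤ),
    Y = Zeros m (Set.range fun i : Fin a => ∑ l, ∑ j, C (M l i j) *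
      (X (Sum.inl l) * X (Sum.inr j) : MvPolynomial (Fin (n + 1) ⊕ Fin b) ℤ))}

/-- hypersurfaces `∑ x_l y_i z_j = c`, the sum over `(l, i, j) ∈ T`, with `n + 1` variables
`x_0, ..., x_n` and any numbers of variables `y_i` and `z_j` -/
def Trilinear (m n : ℕ) (c : ℤ) : Set Scheme.{0} :=
  {Y | ∃ (a b : ℕ) (T : Finset (Fin (n + 1) × Fin a × Fin b)),
    Y = Zeros m {∑ t ∈ T, (X (Sum.inl t.1) * X (Sum.inr (Sum.inl t.2.1)) *
      X (Sum.inr (Sum.inr t.2.2)) : MvPolynomial (Fin (n + 1) ⊕ Fin a ⊕ Fin b) ℤ) - C c}}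

/-- the classes of level `n` -/
def Level (m n : ℕ) : Set (Set Scheme.{0}) :=
  {FibreDimLT m n, Closed m n, Hypersurface m n, Cone m n, Determinantal m n, Bilinear m n,
    Commuting m n, Kernel m n, Trilinear m n 0, Trilinear m n 1}

/-- double covers `w ^ 2 + b(x) w + c(x) = 0` of affine `n`-space -/
def DoubleCover (m n : ℕ) : Set Scheme.{0} :=
  {Y | ∃ b c : MvPolynomial (Fin n) ℤ,
    Y = Zeros m {X none ^ 2 + rename some b * X none + rename some c}}

/-- `n + 1` quadratic forms with integer coefficients in any number of variables -/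
def QuadraticForms (m n : ℕ) : Set Scheme.{0} :=
  {Y | ∃ (a : ℕ) (Q : Fin (n + 1) → Fin a → Fin a → ℤ),
    Y = Zeros m (Set.range fun l : Fin (n + 1) => ∑ i, ∑ j, C (Q l i j) *
      (X i * X j : MvPolynomial (Fin a) ℤ))}

/-- `n + 1` equations of degree at most 2 in any number of variables -/
def Quadratic (m n : ℕ) : Set Scheme.{0} :=
  {Y | ∃ (a : ℕ) (q : Fin (n + 1) → MvPolynomial (Fin a) ℤ),
    (∀ l, (q l).totalDegree ≤ 2) ∧ Y = Zeros m (Set.range q)}

/-- the classes of level `n + 1/2` -/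
def HalfLevel (m n : ℕ) : Set (Set Scheme.{0}) :=
  {DoubleCover m n, QuadraticForms m n, Quadratic m n}

/-! ### The two questions -/

/-- `X` is of finite type over `ℤ`. -/
def FiniteTypeZ (X : Scheme.{0}) : Prop :=
  ∃ f : X ⟶ Spec (CommRingCat.of ℤ), LocallyOfFiniteType f ∧ QuasiCompact f

/-- `F` is meromorphic on `ℂ` and equals, on some right half plane, the zeta function of `X`
(the Euler product over the closed points), in the wording of the frozen statement S00215. -/
def IsContinuation (X : Scheme.{0}) (F : ℂ → ℂ) : Prop :=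
  MeromorphicOn F Set.univ ∧
    ∃ σ : ℝ, ∀ s : ℂ, σ < s.re →
      F s = ∏' x : {x : X // IsClosed ({x} : Set X)},
        (1 - ((Nat.card (X.residueField x.1) : ℂ) ^ (-s)))⁻¹

/-- There is a long exact sequence `⋯ → V' i → V i → V'' i → V' (i - 1) → ⋯`. -/
def LongExact (V' V V'' : ℤ → ModuleCat.{u} ℚ) : Prop :=
  ∃ (a : ∀ i, V' i →ₗ[ℚ] V i) (b : ∀ i, V i →ₗ[ℚ] V'' i) (c : ∀ i, V'' (i + 1) →ₗ[ℚ] V' i),
    ∀ i, Function.Exact (a i) (b i) ∧ Function.Exact (b (i + 1)) (c i) ∧
      Function.Exact (c i) (a i)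

/-- Rational vector spaces `H X s i` (`s` is the weight, `i` the degree) with localization
sequences and homotopy invariance for affine schemes, zero in large weights. The case of the
problem is `H X s i = CH^(d - s)(X, i) ⊗ ℚ` with `d = dim X`, zero for `i < 0`: the cycles of
dimension `s + i` on `X × Δ^i`. -/
structure IsHomologyTheory (H : Scheme.{0} → ℤ → ℤ → ModuleCat.{u} ℚ) : Prop where
  /-- the empty scheme has no homology -/
  empty : ∀ X : Scheme.{0}, IsEmpty X → ∀ s i, Subsingleton (H X s i)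
  /-- the homology vanishes in weights larger than the dimension, or some other bound -/
  bounded : ∀ X : Scheme.{0}, FiniteTypeZ X →
    ∃ s₀ : ℤ, ∀ s, s₀ ≤ s → ∀ i, Subsingleton (H X s i)
  /-- `H (X × 𝔸¹) (s + 1) i` is isomorphic to `H X s i` -/
  homotopy : ∀ (R : Type) [CommRing R], FiniteTypeZ (Spec (CommRingCat.of R)) → ∀ s i : ℤ,
    Nonempty (H (Spec (CommRingCat.of (Polynomial R))) (s + 1) i ≃ₗ[ℚ]
      H (Spec (CommRingCat.of R)) s i)
  /-- the localization sequence of a closed subscheme `Z` and its open complement `U` -/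
  localization : ∀ (X Z U : Scheme.{0}) (ι : Z ⟶ X) (j : U ⟶ X), FiniteTypeZ X →
    IsClosedImmersion ι → IsOpenImmersion j → Set.range j = (Set.range ι)ᶜ →
    ∀ s : ℤ, LongExact (H Z s) (H X s) (H U s)

/-- Both questions for `X` and the homology theory `H`: the zeta function of `X` continues to
`ℂ`, and for each integer `s` the spaces `H X s i` are finite dimensional, almost all of them are
zero, and the order of vanishing at `s` is `-∑ (-1)^i dim H X s i`. -/
def BlochSoule (H : Scheme.{0} → ℤ → ℤ → ModuleCat.{u} ℚ) (X : Scheme.{0}) : Prop :=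
  ∃ F : ℂ → ℂ, IsContinuation X F ∧ ∀ s : ℤ,
    (∀ i, Module.Finite ℚ (H X s i)) ∧ {i : ℤ | Nontrivial (H X s i)}.Finite ∧
    meromorphicOrderAt F (s : ℂ) =
      ((-∑ᶠ i : ℤ, (i.negOnePow : ℤ) * (Module.finrank ℚ (H X s i) : ℤ) : ℤ) : WithTop ℤ)

/-- `𝒞'` controls `𝒞`: for each `X` in `𝒞` there are finitely many members of `𝒞'` such that the
first question for them implies the first question for `X`, and such that, for each homology
theory, both questions for them imply both questions for `X`. -/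
def Controls (𝒞' 𝒞 : Set Scheme.{0}) : Prop :=
  ∀ X ∈ 𝒞, ∃ F : Set Scheme.{0}, F.Finite ∧ F ⊆ 𝒞' ∧
    ((∀ Y ∈ F, ∃ Z, IsContinuation Y Z) → ∃ Z, IsContinuation X Z) ∧
    ∀ H : Scheme.{0} → ℤ → ℤ → ModuleCat.{u} ℚ, IsHomologyTheory H →
      (∀ Y ∈ F, BlochSoule H Y) → BlochSoule H X

end Pool.Agent.Helper81.HG
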