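import Pool.Agent.Helper81.HG.Dim2
import Pool.Agent.Helper81.CP.Sch

/-!
# Classes of schemes closed under cutting and pasting
-/

set_option autoImplicit false

open AlgebraicGeometry CategoryTheory TopologicalSpace MvPolynomial
open Pool.Agent.Helper81.CP

namespace Pool.Agent.Helper81.HG

/-- a class of schemes of finite type over `ℤ` which is closed under cutting and pasting, under
products with the affine line and under descent along the multiplicative group and along `GL₂` -/
structure SG (G : Scheme.{0} → Prop) : Prop where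
  empty : ∀ X : Scheme.{0}, IsEmpty X → G X
  glue : ∀ (X Z U : Scheme.{0}) (ι : Z ⟶ X) (j : U ⟶ X), IsFT X → IsClosedImmersion ι →
    IsOpenImmersion j → Set.range j = (Set.range ι)ᶜ → G Z → G U → G X
  opn : ∀ (X Z U : Scheme.{0}) (ι : Z ⟶ X) (j : U ⟶ X), IsFT X → IsClosedImmersion ι →
    IsOpenImmersion j → Set.range j = (Set.range ι)ᶜ → G X → G Z → G U
  closed : ∀ (X Z U : Scheme.{0}) (ι : Z ⟶ X) (j : U ⟶ X), IsFT X → IsClosedImmersion ι →
    IsOpenImmersion j → Set.range j = (Set.range ι)ᶜ → G X → G U → G Z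
  line : ∀ (R : Type) [CommRing R], IsFT (Spec (CommRingCat.of R)) →
    (G (Spec (CommRingCat.of (Polynomial R))) ↔ G (Spec (CommRingCat.of R)))
  gm : ∀ (R : Type) [CommRing R], IsFT (Spec (CommRingCat.of R)) →
    G (Spec (CommRingCat.of (Localization.Away (Polynomial.X : Polynomial R)))) →
      G (Spec (CommRingCat.of R))
  gl2 : ∀ (σ : Type) [Finite σ] (E : Set (MvPolynomial σ ℤ)),
    G (Spec (CommRingCat.of (Rng (Option (σ ⊕ Fin 4)) (dop (dt σ) (rename Sum.inl '' E))))) →
      G (Spec (CommRingCat.of (Rng σ E)))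

/-- the rings of a class of schemes -/
def rg (G : Scheme.{0} → Prop) (R : Type) [CommRing R] : Prop := G (Spec (CommRingCat.of R))

section

variable {G : Scheme.{0} → Prop} (hG : SG G)

include hG

lemma SG.iso {X Y : Scheme.{0}} (hX : IsFT X) (e : Y ≅ X) : G Y ↔ G X := by
  have h0 : Set.range (Scheme.emptyTo X) = (Set.range e.hom)ᶜ := by
    have h1 : Set.range e.hom = Set.univ := by
      rw [Set.range_eq_univ]
      exact e.hom.homeomorph.surjective
    rw [h1, Set.compl_univ, Set.range_eq_empty_iff]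
    infer_instance
  have h2 : IsClosedImmersion e.hom := inferInstance
  have h3 : IsOpenImmersion (Scheme.emptyTo X) := inferInstance
  constructor
  · intro h
    exact hG.glue X Y ∅ e.hom (Scheme.emptyTo X) hX h2 h3 h0 h (hG.empty _ inferInstance)
  · intro h
    exact hG.closed X Y ∅ e.hom (Scheme.emptyTo X) hX h2 h3 h0 h (hG.empty _ inferInstance)

lemma SG.rg : RG (rg G) := by
  have hcl : ∀ (R : Type) [CommRing R] (f : R),
      IsClosedImmersion (Spec.map (CommRingCat.ofHom (Ideal.Quotient.mk (Ideal.span {f})))) :=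
    fun R _ f => IsClosedImmersion.spec_of_surjective _ Ideal.Quotient.mk_surjective
  have hop : ∀ (R : Type) [CommRing R] (f : R),
      IsOpenImmersion (Spec.map (CommRingCat.ofHom (algebraMap R (Localization.Away f)))) :=
    fun R _ f => IsOpenImmersion.of_isLocalization f
  have hr : ∀ (R : Type) [CommRing R] (f : R),
      Set.range (Spec.map (CommRingCat.ofHom (algebraMap R (Localization.Away f)))) =
      (Set.range (Spec.map (CommRingCat.ofHom (Ideal.Quotient.mk (Ideal.span {f})))))ᶜ := by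
    intro R _ f
    have h1 := PrimeSpectrum.localization_away_comap_range (Localization.Away f) f
    have h2 := _root_.range_comap_of_surjective (R ⧸ Ideal.span {f})
      (Ideal.Quotient.mk (Ideal.span {f})) Ideal.Quotient.mk_surjective
    refine h1.trans ?_
    refine Eq.trans ?_ (congrArg (fun S : Set (PrimeSpectrum R) => Sᶜ) h2).symm
    rw [Ideal.mk_ker, PrimeSpectrum.zeroLocus_span, PrimeSpectrum.basicOpen_eq_zeroLocus_compl]
  constructor
  · intro R _ hR
    refine hG.empty _ ?_
    exact (inferInstance : IsEmpty (PrimeSpectrum R))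
  · intro R S _ _ hR e h
    have e' : Spec (CommRingCat.of S) ≅ Spec (CommRingCat.of R) :=
      Scheme.Spec.mapIso e.toCommRingCatIso.op
    exact (hG.iso hR.isFT e').mpr h
  · intro R _ hR f h1 h2
    exact hG.glue _ _ _ _ _ hR.isFT (hcl R f) (hop R f) (hr R f) h1 h2
  · intro R _ hR f h1 h2
    exact hG.opn _ _ _ _ _ hR.isFT (hcl R f) (hop R f) (hr R f) h1 h2
  · intro R _ hR f h1 h2
    exact hG.closed _ _ _ _ _ hR.isFT (hcl R f) (hop R f) (hr R f) h1 h2
  · intro R _ hR
    exact hG.line R hR.isFT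
  · intro R _ hR h
    exact hG.gm R hR.isFT h
  · intro σ _ E h
    exact hG.gl2 σ E h

end

/-! ### Residue fields -/

lemma td_closed {X Z : Scheme.{0}} (ι : Z ⟶ X) [IsClosedImmersion ι] (z : Z) :
    HI.td (Z.residueField z) ≤ HI.td (X.residueField (ι z)) := by
  have h1 : Function.Surjective (ι.stalkMap z).hom := ι.stalkMap_surjective z
  have h2 : Function.Surjective (ι.residueFieldMap z).hom := by
    have h3 : Function.Surjective
        ((IsLocalRing.residue (Z.presheaf.stalk z)).comp (ι.stalkMap z).hom) :=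
      IsLocalRing.residue_surjective.comp h1
    intro y
    obtain ⟨x, hx⟩ := h3 y
    exact ⟨IsLocalRing.residue _ x, hx⟩
  let e : X.residueField (ι z) ≃+* Z.residueField z :=
    RingEquiv.ofBijective (ι.residueFieldMap z).hom ⟨RingHom.injective _, h2⟩
  exact HI.trdeg_le_of_hom (e.symm : Z.residueField z →+* X.residueField (ι z))

/-- **Schemes with fibres of dimension `< m` are controlled by hypersurfaces in `A^m`.** -/
theorem g_of_fibreDim {G : Scheme.{0} → Prop} (hG : SG G) {m : ℕ} (hH : HypG (rg G) m)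
    (X : Scheme.{0}) (hX : IsFT X) (htd : ∀ x : X, HI.td (X.residueField x) < m) : G X := by
  have := hX.isNoetherian
  have hwf : WellFoundedLT (Closeds X) := inferInstance
  have key : ∀ C : Closeds X, ∀ (Z : Scheme.{0}) (ι : Z ⟶ X), IsClosedImmersion ι →
      Set.range ι ⊆ C → G Z := by
    intro C
    induction C using hwf.induction with
    | ind C ih =>
      intro Z ι hι hr
      have hZ : IsFT Z := hX.of_isClosedImmersion ι hι
      rcases isEmpty_or_nonempty Z with he | ⟨⟨z⟩⟩
      · exact hG.empty Z he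
      · obtain ⟨A, j, hj, hz, _⟩ :=
          Scheme.exists_affine_mem_range_and_range_subset (TopologicalSpace.Opens.mem_top z)
        have hopen : IsOpen (Set.range j) := j.isOpenEmbedding.isOpen_range
        obtain ⟨Z', ι', hι', hr'⟩ := exists_complement (Set.range j)ᶜ hopen.isClosed_compl
        have hA : FT A := (hZ.of_isOpenImmersion j hj).ft
        have hcomp : IsClosedImmersion (ι' ≫ ι) := inferInstance
        have hlt : (⟨Set.range (ι' ≫ ι), (ι' ≫ ι).isClosedEmbedding.isClosed_range⟩ :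
            Closeds X) < C := by
          have hle : Set.range (ι' ≫ ι) ⊆ (C : Set X) := by
            rintro _ ⟨y, rfl⟩
            rw [Scheme.Hom.comp_apply]
            exact hr ⟨_, rfl⟩
          refine lt_of_le_of_ne hle fun heq => ?_
          have h3 : ι z ∈ (C : Set X) := hr ⟨z, rfl⟩
          rw [← heq] at h3
          obtain ⟨y, hy⟩ := h3
          rw [Scheme.Hom.comp_apply] at hy
          have h4 : ι' y = z := ι.isClosedEmbedding.injective hy
          have h5 : z ∈ Set.range ι' := ⟨y, h4⟩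
          rw [hr'] at h5
          exact h5 hz
        have h1 : G (Spec A) := by
          refine g_of_trdeg hG.rg hH hA fun q hq => ?_
          let y : Spec A := (⟨q, hq⟩ : PrimeSpectrum A)
          have hy : y.asIdeal.IsPrime := hq
          have h4 : HI.td (Z.residueField (j y)) = HI.td (y.asIdeal.ResidueField) :=
            HI.td_residue j y
          have h5 : HI.td (y.asIdeal.ResidueField) < m := by
            rw [← h4]
            exact lt_of_le_of_lt (td_closed ι (j y)) (htd (ι (j y)))
          exact h5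
        have h2 : G Z' := ih _ hlt Z' (ι' ≫ ι) hcomp subset_rfl
        exact hG.glue Z Z' (Spec A) ι' j hZ hι' hj (by rw [hr', compl_compl]) h2 h1
  exact key ⊤ X (𝟙 X) inferInstance (by simp)

/-! ### Cut-and-paste properties -/

/-- the schemes controlled by finitely many members of `𝒞` -/
def Ctl (𝒞 : Set Scheme.{0}) (X : Scheme.{0}) : Prop :=
  ∃ F : Set Scheme.{0}, F.Finite ∧ F ⊆ 𝒞 ∧ ∀ P : Scheme.{0} → ℤ → Prop, SchemeCP P →
    (∀ Y ∈ F, ∀ s, P Y s) → ∀ s, P X s

lemma ctl_self {𝒞 : Set Scheme.{0}} {X : Scheme.{0}} (hX : X ∈ 𝒞) : Ctl 𝒞 X :=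
  ⟨{X}, Set.finite_singleton X, by simpa using hX, fun P _ h => h X rfl⟩

lemma ctl_mono {𝒞 : Set Scheme.{0}} {X Y Z : Scheme.{0}} (hX : Ctl 𝒞 X) (hY : Ctl 𝒞 Y)
    (h : ∀ P : Scheme.{0} → ℤ → Prop, SchemeCP P → (∀ s, P X s) → (∀ s, P Y s) → ∀ s, P Z s) :
    Ctl 𝒞 Z := by
  obtain ⟨F, hF, hF', h1⟩ := hX
  obtain ⟨F₂, hF₂, hF₂', h2⟩ := hY
  refine ⟨F ∪ F₂, hF.union hF₂, Set.union_subset hF' hF₂', fun P hP hh => ?_⟩
  exact h P hP (h1 P hP fun W hW => hh W (Or.inl hW)) (h2 P hP fun W hW => hh W (Or.inr hW))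

lemma ctl_mono' {𝒞 : Set Scheme.{0}} {X Z : Scheme.{0}} (hX : Ctl 𝒞 X)
    (h : ∀ P : Scheme.{0} → ℤ → Prop, SchemeCP P → (∀ s, P X s) → ∀ s, P Z s) :
    Ctl 𝒞 Z := by
  obtain ⟨F, hF, hF', h1⟩ := hX
  exact ⟨F, hF, hF', fun P hP hh => h P hP (h1 P hP hh)⟩

/-- descent along the multiplicative group -/
lemma cp_gm {P : Scheme.{0} → ℤ → Prop} (hP : SchemeCP P) (R : Type) [CommRing R]
    (hR : IsFT (Spec (CommRingCat.of R)))
    (h : ∀ s, P (Spec (CommRingCat.of (Localization.Away (Polynomial.X : Polynomial R)))) s) :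
    ∀ s, P (Spec (CommRingCat.of R)) s := by
  have hQ := hP.ringCP
  have hft : FT (Polynomial R) := by
    obtain ⟨n, φ, hφ⟩ := hR.ft
    have h1 : FT (Polynomial (MvPolynomial (Fin n) ℤ)) :=
      (ft_mv (Fin (n + 1))).of_surj (finSuccEquiv ℤ n).toRingEquiv.toRingHom
        (finSuccEquiv ℤ n).toRingEquiv.surjective
    exact h1.of_surj (Polynomial.mapRingHom φ) (Polynomial.map_surjective φ hφ)
  have e : R ≃+* Polynomial R ⧸ Ideal.span {(Polynomial.X : Polynomial R)} := by
    have h1 : (Polynomial.X : Polynomial R) = Polynomial.X - Polynomial.C 0 := by simp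
    rw [h1]
    exact (Polynomial.quotientSpanXSubCAlgEquiv (0 : R)).symm.toRingEquiv
  obtain ⟨s₀, hs₀⟩ := hP.bdd _ hR
  have key : ∀ n : ℕ, ∀ s : ℤ, s₀ - n ≤ s → P (Spec (CommRingCat.of R)) s := by
    intro n
    induction n with
    | zero =>
      intro s hs
      exact hs₀ s (by simpa using hs)
    | succ n ih =>
      intro s hs
      have h1 : P (Spec (CommRingCat.of R)) (s + 1) :=
        ih (s + 1) (by push_cast at hs; linarith)
      have h2 := hQ.iso R _ hR.ft e (s + 1) h1
      have h3 := hQ.glue (Polynomial R) hft Polynomial.X (s + 1) h2 (h (s + 1))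
      exact (hP.line R hR s).mp h3
  intro s
  exact key (s₀ - s).toNat s (by have := Int.self_le_toNat (s₀ - s); linarith)

theorem sg_ctl (𝒞 : Set Scheme.{0}) : SG (Ctl 𝒞) := by
  constructor
  · intro X hX
    exact ⟨∅, Set.finite_empty, Set.empty_subset _, fun P hP _ s => hP.empty X hX s⟩
  · intro X Z U ι j hX hι hj h hZ hU
    exact ctl_mono hZ hU fun P hP h1 h2 s => hP.glue X Z U ι j hX hι hj h s (h1 s) (h2 s)
  · intro X Z U ι j hX hι hj h hX' hZ
    exact ctl_mono hX' hZ fun P hP h1 h2 s => hP.opn X Z U ι j hX hι hj h s (h1 s) (h2 s)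
  · intro X Z U ι j hX hι hj h hX' hU
    exact ctl_mono hX' hU fun P hP h1 h2 s => hP.closed X Z U ι j hX hι hj h s (h1 s) (h2 s)
  · intro R _ hR
    constructor
    · intro h
      exact ctl_mono' h fun P hP h1 s => (hP.line R hR s).mp (h1 (s + 1))
    · intro h
      refine ctl_mono' h fun P hP h1 s => ?_
      have := (hP.line R hR (s - 1)).mpr (h1 (s - 1))
      rwa [sub_add_cancel] at this
  · intro R _ hR h
    exact ctl_mono' h fun P hP h1 => cp_gm hP R hR h1
  · intro σ _ E h
    exact ctl_mono' h fun P hP h1 => good_gl2 hP.ringCP E h1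

end Pool.Agent.Helper81.HG
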