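import Pool.Agent.Helper81.HG.Base

/-!
# Reduction modulo `m`
-/

set_option autoImplicit false

open MvPolynomial
open Pool.Agent.Helper81.CP

namespace Pool.Agent.Helper81.HG

variable {G : ∀ (R : Type) [CommRing R], Prop}

/-- rings of finite type are represented by systems -/
lemma ft_rep {R : Type} [CommRing R] (h : FT R) :
    ∃ (n : ℕ) (E : Set (MvPolynomial (Fin n) ℤ)) (u : Fin n → R), Rep R E u ∧
      Function.Surjective (ev u) := by
  obtain ⟨n, φ, hφ⟩ := h
  have he : ev (fun i => φ (X i)) = φ :=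
    MvPolynomial.ringHom_ext' (RingHom.ext_int _ _) fun i => by simp
  refine ⟨n, (RingHom.ker φ : Set (MvPolynomial (Fin n) ℤ)), fun i => φ (X i), ⟨?_, ?_, ?_⟩, ?_⟩
  · intro p hp
    rw [he]
    exact hp
  · intro A _ x hx
    have hle : ∀ a, φ a = 0 → ev x a = 0 := fun a ha => hx a ha
    refine ⟨(RingHom.liftOfSurjective φ hφ) ⟨ev x, fun a ha => hle a ha⟩, fun i => ?_⟩
    have := RingHom.liftOfRightInverse_comp_apply φ _ (Function.rightInverse_surjInv hφ)
      ⟨ev x, fun a ha => hle a ha⟩ (X i)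
    exact this.trans (ev_X x i)
  · intro A _ ψ ψ' hh
    have h1 : ψ.comp φ = ψ'.comp φ :=
      MvPolynomial.ringHom_ext' (RingHom.ext_int _ _) fun i => hh i
    refine RingHom.ext fun r => ?_
    obtain ⟨p, rfl⟩ := hφ r
    exact congrArg (fun χ : MvPolynomial (Fin n) ℤ →+* A => χ p) h1
  · rw [he]
    exact hφ

/-- the class of the rings whose reduction modulo `m` is in `G` -/
def md (G : ∀ (R : Type) [CommRing R], Prop) (m : ℕ) (R : Type) [CommRing R] : Prop :=
  G (R ⧸ Ideal.span {(m : R)})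

lemma ev_nat {σ A : Type} [CommRing A] (x : σ → A) (m : ℕ) : ev x (C (m : ℤ)) = (m : A) := by
  simp [ev]

section

variable (hG : RG G) {m : ℕ}

include hG

lemma md_rep {R : Type} [CommRing R] {σ : Type} [Finite σ] {E : Set (MvPolynomial σ ℤ)}
    {u : σ → R} (h : Rep R E u) : md G m R ↔ GS G (insert (C (m : ℤ)) E) := by
  have h1 := h.closed (C (m : ℤ))
  have e : ev u (C (m : ℤ)) = (m : R) := ev_nat u m
  rw [e] at h1
  exact hG.rep_iff h1

lemma gs_md {σ : Type} [Finite σ] (E : Set (MvPolynomial σ ℤ)) :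
    GS (md G m) E ↔ GS G (insert (C (m : ℤ)) E) := md_rep hG (rep_rng E)

omit hG in
lemma pt_md {σ A : Type} [CommRing A] {E : Set (MvPolynomial σ ℤ)} {x : σ → A} :
    Pt (insert (C (m : ℤ)) E) x ↔ (m : A) = 0 ∧ Pt E x := by
  rw [Pt.insert_iff, ev_nat]

lemma gs_md_dop {σ : Type} [Finite σ] (E : Set (MvPolynomial σ ℤ)) (p : MvPolynomial σ ℤ) :
    GS G (insert (C (m : ℤ)) (dop p E)) ↔ GS G (dop p (insert (C (m : ℤ)) E)) := by
  refine hG.gs_congr fun A _ x => ?_
  rw [pt_md, Pt.dop_iff, Pt.dop_iff, pt_md]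
  tauto

omit hG in
lemma gs_md_ins {σ : Type} [Finite σ] (E : Set (MvPolynomial σ ℤ)) (p : MvPolynomial σ ℤ) :
    GS G (insert (C (m : ℤ)) (insert p E)) ↔ GS G (insert p (insert (C (m : ℤ)) E)) := by
  rw [Set.insert_comm]

lemma gs_md_lft {σ : Type} [Finite σ] (E : Set (MvPolynomial σ ℤ)) :
    GS G (insert (C (m : ℤ)) (lft E)) ↔ GS G (lft (insert (C (m : ℤ)) E)) := by
  refine hG.gs_congr fun A _ x => ?_
  rw [pt_md, Pt.lft_iff, Pt.lft_iff, pt_md]

/-- **The rings whose reduction modulo `m` is in a class closed under cutting and pasting.** -/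
theorem RG.mod (m : ℕ) : RG (md G m) := by
  constructor
  · intro R _ hR
    exact hG.triv _ inferInstance
  · intro R S _ _ hR e h
    obtain ⟨n, E, u, hu, _⟩ := ft_rep hR
    have h1 : Rep S E (fun i => e (u i)) := by
      refine ⟨hu.pt.map e.toRingHom, fun A _ x hx => ?_, fun A _ φ ψ hh => ?_⟩
      · obtain ⟨φ, hφ⟩ := hu.ex A x hx
        exact ⟨φ.comp e.symm.toRingHom, fun i => by simpa using hφ i⟩
      · have h2 := hu.uniq A (φ.comp e.toRingHom) (ψ.comp e.toRingHom) hh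
        refine RingHom.ext fun s => ?_
        have h3 := congrArg (fun χ : R →+* A => χ (e.symm s)) h2
        simpa using h3
    rw [md_rep hG h1]
    exact (md_rep hG hu).mp h
  · intro R _ hR f h1 h2
    obtain ⟨n, E, u, hu, hs⟩ := ft_rep hR
    obtain ⟨p, rfl⟩ := hs f
    rw [md_rep hG (hu.closed p), gs_md_ins] at h1
    rw [md_rep hG (hu.dop p), gs_md_dop hG] at h2
    rw [md_rep hG hu]
    exact hG.gs_glue h1 h2
  · intro R _ hR f h1 h2
    obtain ⟨n, E, u, hu, hs⟩ := ft_rep hR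
    obtain ⟨p, rfl⟩ := hs f
    rw [md_rep hG hu] at h1
    rw [md_rep hG (hu.closed p), gs_md_ins] at h2
    rw [md_rep hG (hu.dop p), gs_md_dop hG]
    exact hG.gs_opn h1 h2
  · intro R _ hR f h1 h2
    obtain ⟨n, E, u, hu, hs⟩ := ft_rep hR
    obtain ⟨p, rfl⟩ := hs f
    rw [md_rep hG hu] at h1
    rw [md_rep hG (hu.dop p), gs_md_dop hG] at h2
    rw [md_rep hG (hu.closed p), gs_md_ins]
    exact hG.gs_closed h1 h2
  · intro R _ hR
    obtain ⟨n, E, u, hu, _⟩ := ft_rep hR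
    rw [md_rep hG hu.line, md_rep hG hu, gs_md_lft hG, hG.gs_line]
  · intro R _ hR h
    obtain ⟨n, E, u, hu, _⟩ := ft_rep hR
    have h1 := md_rep hG (m := m) (hu.line.dop (X none))
    rw [ev_X, gs_md_dop hG] at h1
    have h2 := h1.mp h
    rw [md_rep hG hu]
    refine hG.gs_gm ((hG.gs_congr fun A _ x => ?_).mp h2)
    rw [Pt.dop_iff, Pt.dop_iff, pt_md, Pt.lft_iff, Pt.lft_iff, pt_md]
  · intro σ _ E h
    have h1 : GS G (insert (C (m : ℤ)) (dop (dt σ) (rename Sum.inl '' E))) := (gs_md hG _).mp h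
    have h2 : GS G (dop (dt σ) (rename Sum.inl '' (insert (C (m : ℤ)) E))) := by
      refine (hG.gs_congr fun A _ x => ?_).mp h1
      rw [pt_md, Pt.dop_iff, Pt.dop_iff]
      simp only [Pt, Set.forall_mem_image, ev_rename, Set.mem_insert_iff, forall_eq_or_imp,
        ev_nat]
      tauto
    exact (gs_md hG E).mpr (hG.gl2 σ _ h2)

end

end Pool.Agent.Helper81.HG
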