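import Pool.Agent.Helper81.HG.Cone
import Pool.Agent.Helper81.HG.Sch
import Pool.Agent.Helper81.HG.Mod
import Pool.Agent.Helper81.HG.Defs

/-!
# The classes of level `n` and the classes closed under cutting and pasting
-/

set_option autoImplicit false

open AlgebraicGeometry CategoryTheory TopologicalSpace MvPolynomial
open Pool.Agent.Helper81.CP
open Pool.Agent.Helper81.HI (ofT)

namespace Pool.Agent.Helper81.HG

/-- the members of `𝒞` belong to `G` -/
def CC (G : Scheme.{0} → Prop) (𝒞 : Set Scheme.{0}) : Prop := ∀ X ∈ 𝒞, G X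

lemma ev_tri {m a b : ℕ} (T : Finset (Fin m × Fin a × Fin b)) {A : Type} [CommRing A]
    (x : Fin m ⊕ Fin a ⊕ Fin b → A) :
    ev x (∑ t ∈ T, (X (Sum.inl t.1) * X (Sum.inr (Sum.inl t.2.1)) *
      X (Sum.inr (Sum.inr t.2.2)) : MvPolynomial (Fin m ⊕ Fin a ⊕ Fin b) ℤ)) =
    ∑ l, ∑ i, ∑ j, (ofT T l i j : A) *
      (x (Sum.inl l) * x (Sum.inr (Sum.inl i)) * x (Sum.inr (Sum.inr j))) := by
  classical
  have h1 : ∑ l, ∑ i, ∑ j, (ofT T l i j : A) *
      (x (Sum.inl l) * x (Sum.inr (Sum.inl i)) * x (Sum.inr (Sum.inr j))) =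
      ∑ t : Fin m × Fin a × Fin b, (ofT T t.1 t.2.1 t.2.2 : A) *
      (x (Sum.inl t.1) * x (Sum.inr (Sum.inl t.2.1)) * x (Sum.inr (Sum.inr t.2.2))) := by
    rw [Fintype.sum_prod_type]
    refine Finset.sum_congr rfl fun l _ => ?_
    rw [Fintype.sum_prod_type]
  rw [h1, map_sum]
  simp only [map_mul, ev_X]
  rw [← Finset.sum_subset (Finset.subset_univ T)]
  · refine Finset.sum_congr rfl fun t ht => ?_
    unfold ofT
    rw [if_pos ht]; simp
  · intro t _ ht
    unfold ofT
    rw [if_neg ht]; simp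

/-- the trilinear form of a set of triples -/
noncomputable def trf {m a b : ℕ} (T : Finset (Fin m × Fin a × Fin b)) :
    MvPolynomial (Fin m ⊕ Fin a ⊕ Fin b) ℤ :=
  ∑ t ∈ T, (X (Sum.inl t.1) * X (Sum.inr (Sum.inl t.2.1)) * X (Sum.inr (Sum.inr t.2.2)))

section ring

variable {G : ∀ (R : Type) [CommRing R], Prop} (hG : RG G) {m a b : ℕ}

include hG

lemma gs_trf_zero (T : Finset (Fin m × Fin a × Fin b)) :
    GS G {trf T - C 0} ↔ GS G {TS (ofT T)} := by
  refine hG.gs_congr fun A _ x => ?_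
  rw [Pt.ts_iff, Pt.one_iff, map_sub, ev_C, Int.cast_zero, sub_zero]
  unfold trf
  rw [ev_tri]

lemma gs_trf_scale (T : Finset (Fin m × Fin a × Fin b)) :
    GS G (dop (trf T) (∅ : Set (MvPolynomial (Fin m ⊕ Fin a ⊕ Fin b) ℤ))) ↔
      GS G {trf T - C 1} := by
  rw [hG.gs_scale (Set.range Sum.inl) (trf T) (fun A _ x c _ => by simp [Pt]) ?_]
  · rw [insert_empty_eq, C_1]
  · intro A _ x c
    unfold trf
    rw [ev_tri, ev_tri]
    simp only [Finset.mul_sum]
    refine Finset.sum_congr rfl fun l _ => Finset.sum_congr rfl fun i _ =>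
      Finset.sum_congr rfl fun j _ => ?_
    simp [scl]
    ring

/-- from `0` to `1` -/
lemma gs_trf_one (h0 : GS G (∅ : Set (MvPolynomial Empty ℤ)))
    (T : Finset (Fin m × Fin a × Fin b)) (h : GS G {TS (ofT T)}) : GS G {trf T - C 1} := by
  rw [← gs_trf_scale hG]
  refine hG.gs_opn (gs_affine_of_base hG h0 _) ?_
  rw [insert_empty_eq]
  have := (gs_trf_zero hG T).mpr h
  rwa [C_0, sub_zero] at this

/-- from `1` to `0` -/
lemma gs_trf_of_one (h0 : GS G (∅ : Set (MvPolynomial Empty ℤ)))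
    (T : Finset (Fin m × Fin a × Fin b)) (h : GS G {trf T - C 1}) : GS G {TS (ofT T)} := by
  rw [← gs_trf_scale hG] at h
  have h1 := hG.gs_closed (gs_affine_of_base hG h0 _) h
  rw [insert_empty_eq] at h1
  rw [← gs_trf_zero hG, C_0, sub_zero]
  exact h1

/-- the ring of integers -/
lemma gs_base_of_one {n : ℕ} (h : ∀ (a b : ℕ) (T : Finset (Fin (n + 1) × Fin a × Fin b)),
    GS G {trf T - C 1}) : GS G (∅ : Set (MvPolynomial Empty ℤ)) := by
  have h1 := h 1 1 {(0, 0, 0)}
  have h2 : trf ({(0, 0, 0)} : Finset (Fin (n + 1) × Fin 1 × Fin 1)) =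
      X (Sum.inl 0) * X (Sum.inr (Sum.inl 0)) * X (Sum.inr (Sum.inr 0)) := by
    unfold trf
    rw [Finset.sum_singleton]
  rw [h2] at h1
  have hxy : (Sum.inr (Sum.inl 0) : Fin (n + 1) ⊕ Fin 1 ⊕ Fin 1) ≠ Sum.inl 0 := by simp
  have hxz : (Sum.inr (Sum.inr 0) : Fin (n + 1) ⊕ Fin 1 ⊕ Fin 1) ≠ Sum.inl 0 := by simp
  have hyz : (Sum.inr (Sum.inl 0) : Fin (n + 1) ⊕ Fin 1 ⊕ Fin 1) ≠ Sum.inr (Sum.inr 0) := by
    simp
  have hlc : ∀ {A : Type} [CommRing A] (p : MvPolynomial (Fin (n + 1) ⊕ Fin 1 ⊕ Fin 1) ℤ)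
      (x : Fin (n + 1) ⊕ Fin 1 ⊕ Fin 1 → A),
      Lc ({X (Sum.inl 0)} : Set (MvPolynomial (Fin (n + 1) ⊕ Fin 1 ⊕ Fin 1) ℤ)) p x ↔
        x (Sum.inl 0) = 0 ∧ IsUnit (ev x p) := by
    intro A _ p x
    unfold Lc
    rw [Pt.one_iff, ev_X]
  have h3 : GO G ({X (Sum.inl 0)} : Set (MvPolynomial (Fin (n + 1) ⊕ Fin 1 ⊕ Fin 1) ℤ))
      (X (Sum.inr (Sum.inl 0)) * X (Sum.inr (Sum.inr 0))) := by
    have hpt : ∀ {A : Type} [CommRing A] (x : Fin (n + 1) ⊕ Fin 1 ⊕ Fin 1 → A),
        Pt ({X (Sum.inl 0) * X (Sum.inr (Sum.inl 0)) * X (Sum.inr (Sum.inr 0)) - C 1} :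
          Set (MvPolynomial (Fin (n + 1) ⊕ Fin 1 ⊕ Fin 1) ℤ)) x ↔
        x (Sum.inl 0) * x (Sum.inr (Sum.inl 0)) * x (Sum.inr (Sum.inr 0)) = 1 := by
      intro A _ x
      rw [Pt.one_iff, map_sub, map_mul, map_mul, ev_X, ev_X, ev_X, ev_C, Int.cast_one,
        sub_eq_zero]
    have hpt' : ∀ {A : Type} [CommRing A] (y : Option (Fin (n + 1) ⊕ Fin 1 ⊕ Fin 1) → A),
        Pt (dop (X (Sum.inr (Sum.inl 0)) * X (Sum.inr (Sum.inr 0)))
          ({X (Sum.inl 0)} : Set (MvPolynomial (Fin (n + 1) ⊕ Fin 1 ⊕ Fin 1) ℤ))) y ↔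
        y none * (y (some (Sum.inr (Sum.inl 0))) * y (some (Sum.inr (Sum.inr 0)))) = 1 ∧
          y (some (Sum.inl 0)) = 0 := by
      intro A _ y
      rw [Pt.dop_iff, Pt.one_iff, map_mul, ev_X, ev_X, ev_X]
    refine (hG.gs_iso
      (fun A _ x => fun o => o.elim (x (Sum.inl 0)) (Function.update x (Sum.inl 0) 0))
      (fun A _ y => Function.update (fun i => y (some i)) (Sum.inl 0) (y none))
      ?_ ?_ ?_ ?_ ?_ ?_).mp h1
    · intro A B _ _ φ x _ o
      rcases o with _ | i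
      · rfl
      · simp only [Option.elim, Function.update_apply]
        split_ifs <;> simp
    · intro A B _ _ φ y _ i
      simp only [Function.update_apply]
      split_ifs <;> rfl
    · intro A _ x hx
      rw [hpt] at hx
      rw [hpt']
      simp only [Option.elim, Function.update_self, Function.update_of_ne hxy,
        Function.update_of_ne hxz, and_true]
      rw [← mul_assoc]
      exact hx
    · intro A _ y hy
      rw [hpt'] at hy
      rw [hpt, Function.update_self, Function.update_of_ne hxy, Function.update_of_ne hxz,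
        mul_assoc]
      exact hy.1
    · intro A _ x _
      simp
    · intro A _ y hy
      rw [hpt'] at hy
      funext o
      rcases o with _ | i
      · simp
      · simp only [Option.elim, Function.update_idem]
        rw [Function.update_apply]
        split_ifs with h
        · rw [h, hy.2]
        · rfl
  rw [hG.gl_gm (Sum.inr (Sum.inr 0)) (fun A _ x y h' hx => by
    rw [hlc, ev_X] at hx ⊢
    rw [h' _ hxz.symm, h' _ hyz]
    exact hx)] at h3
  rw [← one_mul (X (Sum.inr (Sum.inl 0)) : MvPolynomial (Fin (n + 1) ⊕ Fin 1 ⊕ Fin 1) ℤ),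
    hG.gl_gm (Sum.inr (Sum.inl 0)) (fun A _ x y h' hx => by
      rw [hlc, map_one] at hx ⊢
      rw [h' _ hxy.symm]
      exact hx), hG.gl_one] at h3
  have h4 : GS G (∅ : Set (MvPolynomial (Fin (n + 1) ⊕ Fin 1 ⊕ Fin 1) ℤ)) := by
    refine (hG.gs_free (Sum.inl 0) (fun A _ x y _ _ => by simp [Pt])).mpr ?_
    rwa [insert_empty_eq]
  rw [← hG.gs_emb (Empty.elim : Empty → Fin (n + 1) ⊕ Fin 1 ⊕ Fin 1) (fun x => x.elim),
    Set.image_empty]
  exact h4

end ring

/-! ### The classes of level `n` -/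

section scheme

variable {G : Scheme.{0} → Prop} (hG : SG G) {m n : ℕ}

/-- schemes of finite type over `ℤ/m` are of finite type over `ℤ` -/
lemma isFT_of_zmod {X : Scheme.{0}} (h : ∃ f : X ⟶ Spec (CommRingCat.of (ZMod m)),
    LocallyOfFiniteType f ∧ QuasiCompact f) : IsFT X := by
  obtain ⟨f, hf, hq⟩ := h
  have h1 : IsClosedImmersion (Spec.map (CommRingCat.ofHom (Int.castRingHom (ZMod m)))) :=
    IsClosedImmersion.spec_of_surjective _ (ZMod.ringHom_surjective _)
  exact ⟨f ≫ Spec.map (CommRingCat.ofHom (Int.castRingHom (ZMod m))), inferInstance,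
    inferInstance⟩

/-- the structure of a scheme over `ℤ/m` -/
lemma natCast_zero_of_hom {A : CommRingCat.{0}} (f : Spec A ⟶ Spec (CommRingCat.of (ZMod m))) :
    ((m : ℕ) : A) = 0 := by
  have h1 := map_natCast (Spec.preimage f).hom m
  have h2 : ((m : ℕ) : ((CommRingCat.of (ZMod m) : CommRingCat.{0}) : Type)) = 0 :=
    ZMod.natCast_self m
  rw [← h1, h2, map_zero]

include hG

/-- the members of a class closed under cutting and pasting -/
lemma gz {σ : Type} [Finite σ] (S : Set (MvPolynomial σ ℤ)) :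
    GS (md (rg G) m) S ↔ G (Zeros m S) := gs_md hG.rg S

/-- **Schemes over `ℤ/m` with fibres of dimension `< n` are controlled by hypersurfaces in
`A^n`.** -/
theorem g_of_fibreDim_mod (hH : HypG (md (rg G) m) n)
    (X : Scheme.{0}) (hX : IsFT X) (fX : X ⟶ Spec (CommRingCat.of (ZMod m)))
    (htd : ∀ x : X, HI.td (X.residueField x) < n) : G X := by
  have := hX.isNoetherian
  have hwf : WellFoundedLT (Closeds X) := inferInstance
  have key : ∀ C : Closeds X, ∀ (Z : Scheme.{0}) (ι : Z ⟶ X), IsClosedImmersion ι →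
      Set.range ι ⊆ C → G Z := by
    intro C
    induction C using hwf.induction with
    | ind C ih =>
      intro Z ι hι hr
      have hZ : IsFT Z := hX.of_isClosedImmersion ι hι
      rcases isEmpty_or_nonempty Z with he | ⟨⟨z⟩⟩
      · exact hG.empty Z he
      · obtain ⟨A, j, hj, hz, _⟩ :=
          Scheme.exists_affine_mem_range_and_range_subset (TopologicalSpace.Opens.mem_top z)
        have hopen : IsOpen (Set.range j) := j.isOpenEmbedding.isOpen_range
        obtain ⟨Z', ι', hι', hr'⟩ := exists_complement (Set.range j)ᶜ hopen.isClosed_compl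
        have hA : FT A := (hZ.of_isOpenImmersion j hj).ft
        have hcomp : IsClosedImmersion (ι' ≫ ι) := inferInstance
        have hlt : (⟨Set.range (ι' ≫ ι), (ι' ≫ ι).isClosedEmbedding.isClosed_range⟩ :
            Closeds X) < C := by
          have hle : Set.range (ι' ≫ ι) ⊆ (C : Set X) := by
            rintro _ ⟨y, rfl⟩
            rw [Scheme.Hom.comp_apply]
            exact hr ⟨_, rfl⟩
          refine lt_of_le_of_ne hle fun heq => ?_
          have h3 : ι z ∈ (C : Set X) := hr ⟨z, rfl⟩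
          rw [← heq] at h3
          obtain ⟨y, hy⟩ := h3
          rw [Scheme.Hom.comp_apply] at hy
          have h4 : ι' y = z := ι.isClosedEmbedding.injective hy
          have h5 : z ∈ Set.range ι' := ⟨y, h4⟩
          rw [hr'] at h5
          exact h5 hz
        have h1 : G (Spec A) := by
          have h2 : md (rg G) m A := by
            refine g_of_trdeg (hG.rg.mod m) hH hA fun q hq => ?_
            let y : Spec A := (⟨q, hq⟩ : PrimeSpectrum A)
            have hy : y.asIdeal.IsPrime := hq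
            have h4 : HI.td (Z.residueField (j y)) = HI.td (y.asIdeal.ResidueField) :=
              HI.td_residue j y
            have h5 : HI.td (y.asIdeal.ResidueField) < n := by
              rw [← h4]
              exact lt_of_le_of_lt (td_closed ι (j y)) (htd (ι (j y)))
            exact h5
          have h3 : Ideal.span {((m : ℕ) : A)} = ⊥ := by
            rw [natCast_zero_of_hom (j ≫ ι ≫ fX), Ideal.span_singleton_eq_bot]
          have e : (A ⧸ Ideal.span {((m : ℕ) : A)}) ≃+* A :=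
            (Ideal.quotEquivOfEq h3).trans (RingEquiv.quotientBot A)
          have h6 : FT (A ⧸ Ideal.span {((m : ℕ) : A)}) :=
            hA.of_surj (Ideal.Quotient.mk _) Ideal.Quotient.mk_surjective
          exact hG.rg.iso _ _ h6 e h2
        have h2 : G Z' := ih _ hlt Z' (ι' ≫ ι) hcomp subset_rfl
        exact hG.glue Z Z' (Spec A) ι' j hZ hι' hj (by rw [hr', compl_compl]) h2 h1
  exact key ⊤ X (𝟙 X) inferInstance (by simp)

lemma hyp_trilinear (h : CC G (Trilinear m n 0)) : HypG (md (rg G) m) n := by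
  refine hypG_of_ts (hG.rg.mod m) fun a b T => ?_
  rw [← gs_trf_zero (hG.rg.mod m), gz hG]
  exact h _ ⟨a, b, T, rfl⟩

lemma hyp_trilinear_one (h : CC G (Trilinear m n 1)) : HypG (md (rg G) m) n := by
  have h1 : ∀ (a b : ℕ) (T : Finset (Fin (n + 1) × Fin a × Fin b)),
      GS (md (rg G) m) {trf T - C 1} := fun a b T => (gz hG _).mpr (h _ ⟨a, b, T, rfl⟩)
  exact hypG_of_ts (hG.rg.mod m) fun a b T =>
    gs_trf_of_one (hG.rg.mod m) (gs_base_of_one (hG.rg.mod m) h1) T (h1 a b T)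

lemma hyp_bilinear (h : CC G (Bilinear m n)) : HypG (md (rg G) m) n := by
  refine hypG_of_ts (hG.rg.mod m) fun a b T => ts_of_bs (hG.rg.mod m) fun B => ?_
  exact (gz hG _).mpr (h _ ⟨a, b, zl B (ofT T), rfl⟩)

lemma hyp_commuting (h : CC G (Commuting m n)) : HypG (md (rg G) m) n :=
  hypG_of_alt (hG.rg.mod m) fun a A hA => (gz hG _).mpr (h _ ⟨a, A, hA, rfl⟩)

lemma hyp_kernel (h : CC G (Kernel m n)) : HypG (md (rg G) m) n := by
  refine hypG_of_ts (hG.rg.mod m) fun a b T => ts_of_ks (hG.rg.mod m) fun B => ?_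
  exact (gz hG _).mpr (h _ ⟨a, b, zr B (ofT T), rfl⟩)

lemma hyp_hypersurface (h : CC G (Hypersurface m n)) : HypG (md (rg G) m) n :=
  fun f => (gz hG _).mpr (h _ ⟨f, rfl⟩)

lemma hyp_closed (h : CC G (Closed m n)) : HypG (md (rg G) m) n :=
  fun f => (gz hG _).mpr (h _ ⟨{f}, rfl⟩)

lemma hyp_determinantal (h : CC G (Determinantal m n)) : HypG (md (rg G) m) n :=
  hypG_of_dett (hG.rg.mod m) fun s M => (gz hG _).mpr (h _ ⟨s, M, rfl⟩)

lemma hyp_cone (h : CC G (Cone m n)) : HypG (md (rg G) m) n :=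
  hypG_of_dett (hG.rg.mod m) fun _ M => (gz hG _).mpr (h _ ⟨_, dett M, hom_dett M, rfl⟩)

lemma hyp_fibreDim (hn : 0 < n) (h : CC G (FibreDimLT m n)) : HypG (md (rg G) m) n := by
  refine hypG_of_D (hG.rg.mod m) hn fun R _ hft hR => ?_
  have h0 : ((m : ℕ) : R ⧸ Ideal.span {((m : ℕ) : R)}) = 0 := by
    rw [← map_natCast (Ideal.Quotient.mk (Ideal.span {((m : ℕ) : R)})) m]
    exact Ideal.Quotient.eq_zero_iff_mem.mpr (Ideal.subset_span rfl)
  let g₀ : (ℤ ⧸ Ideal.span {(m : ℤ)}) →+* R ⧸ Ideal.span {((m : ℕ) : R)} :=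
    Ideal.Quotient.lift _ (Int.castRingHom _) (by
      intro a ha
      obtain ⟨b, rfl⟩ := Ideal.mem_span_singleton.mp ha
      rw [map_mul, eq_intCast, Int.cast_natCast, h0, zero_mul])
  let g : ZMod m →+* R ⧸ Ideal.span {((m : ℕ) : R)} :=
    g₀.comp (Int.quotientSpanNatEquivZMod m).symm.toRingHom
  have hft' : FT (R ⧸ Ideal.span {((m : ℕ) : R)}) :=
    hft.of_surj (Ideal.Quotient.mk _) Ideal.Quotient.mk_surjective
  have hgft : g.FiniteType := by
    have h1 : (g.comp (Int.castRingHom (ZMod m))).FiniteType := by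
      have h2 : g.comp (Int.castRingHom (ZMod m)) = algebraMap ℤ _ := RingHom.ext_int _ _
      rw [h2]
      exact ft_iff_finiteType.mp hft'
    exact RingHom.FiniteType.of_comp_finiteType h1
  refine h _ ⟨⟨Spec.map (CommRingCat.ofHom g), ?_, inferInstance⟩, fun x => ?_⟩
  · rw [HasRingHomProperty.Spec_iff (P := @LocallyOfFiniteType)]
    exact hgft
  · have h1 : IsClosedImmersion (Spec.map (CommRingCat.ofHom
        (Ideal.Quotient.mk (Ideal.span {((m : ℕ) : R)})))) :=
      IsClosedImmersion.spec_of_surjective _ Ideal.Quotient.mk_surjective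
    exact lt_of_le_of_lt (td_closed (Spec.map (CommRingCat.ofHom
      (Ideal.Quotient.mk (Ideal.span {((m : ℕ) : R)})))) x) (HI.td_spec hR _)

lemma cc_fibreDim (hH : HypG (md (rg G) m) n) : CC G (FibreDimLT m n) := by
  rintro X ⟨hft, hX⟩
  exact g_of_fibreDim_mod hG hH X (isFT_of_zmod hft) hft.choose hX

lemma cc_closed (hH : HypG (md (rg G) m) n) : CC G (Closed m n) := by
  rintro X ⟨S, rfl⟩
  obtain ⟨S', hS'⟩ := (inferInstance : IsNoetherianRing (MvPolynomial (Fin n) ℤ)).noetherian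
    (Ideal.span S)
  have hS'' : Ideal.span (S' : Set (MvPolynomial (Fin n) ℤ)) = Ideal.span S := hS'
  have h1 := go_mem (hG.rg.mod m) hH S' 1
  rw [(hG.rg.mod m).gl_one] at h1
  rw [← gz hG]
  exact ((hG.rg.mod m).gs_congr fun A _ x => Pt.congr_span hS'').mp h1

lemma cc_hypersurface (hH : HypG (md (rg G) m) n) : CC G (Hypersurface m n) := by
  rintro X ⟨f, rfl⟩
  exact (gz hG _).mp (hH f)

lemma cc_cone (hH : HypG (md (rg G) m) n) : CC G (Cone m n) := by
  rintro X ⟨d, F, hF, rfl⟩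
  exact (gz hG _).mp (gs_cone (hG.rg.mod m) hH (scb_of_hom hF))

lemma cc_determinantal (hH : HypG (md (rg G) m) n) : CC G (Determinantal m n) := by
  rintro X ⟨s, M, rfl⟩
  exact (gz hG _).mp (gs_cone (hG.rg.mod m) hH (scb_dett M))

lemma cc_kernel (hH : HypG (md (rg G) m) n) : CC G (Kernel m n) := by
  rintro X ⟨a, b, M, rfl⟩
  exact (gz hG _).mp (ks_mem (hG.rg.mod m) hH le_rfl M)

lemma cc_bilinear (hH : HypG (md (rg G) m) n) : CC G (Bilinear m n) := by
  rintro X ⟨a, b, M, rfl⟩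
  exact (gz hG _).mp (bs_of_ts (hG.rg.mod m) fun B => ts_of_ks (hG.rg.mod m) fun B' =>
    ks_mem (hG.rg.mod m) hH le_rfl _)

lemma cc_commuting (hH : HypG (md (rg G) m) n) : CC G (Commuting m n) := by
  rintro X ⟨a, A, _, rfl⟩
  exact cc_bilinear hG hH _ ⟨a, a, A, rfl⟩

lemma cc_trilinear (hH : HypG (md (rg G) m) n) : CC G (Trilinear m n 0) := by
  rintro X ⟨a, b, T, rfl⟩
  exact (gz hG _).mp ((gs_trf_zero (hG.rg.mod m) T).mpr
    (ts_of_ks (hG.rg.mod m) fun B => ks_mem (hG.rg.mod m) hH le_rfl _))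

lemma cc_trilinear_one (hH : HypG (md (rg G) m) n) : CC G (Trilinear m n 1) := by
  rintro X ⟨a, b, T, rfl⟩
  exact (gz hG _).mp (gs_trf_one (hG.rg.mod m) (gs_base (hG.rg.mod m) hH) T
    (ts_of_ks (hG.rg.mod m) fun B => ks_mem (hG.rg.mod m) hH le_rfl _))

/-- each class of level `n` controls the hypersurfaces in `A^n` -/
theorem hyp_of_level (hn : 0 < n) {𝒞 : Set Scheme.{0}} (h𝒞 : 𝒞 ∈ Level m n) (h : CC G 𝒞) :
    HypG (md (rg G) m) n := by
  simp only [Level, Set.mem_insert_iff, Set.mem_singleton_iff] at h𝒞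
  rcases h𝒞 with rfl | rfl | rfl | rfl | rfl | rfl | rfl | rfl | rfl | rfl
  · exact hyp_fibreDim hG hn h
  · exact hyp_closed hG h
  · exact hyp_hypersurface hG h
  · exact hyp_cone hG h
  · exact hyp_determinantal hG h
  · exact hyp_bilinear hG h
  · exact hyp_commuting hG h
  · exact hyp_kernel hG h
  · exact hyp_trilinear hG h
  · exact hyp_trilinear_one hG h

/-- the hypersurfaces in `A^n` control each class of level `n` -/
theorem cc_level (hH : HypG (md (rg G) m) n) {𝒞 : Set Scheme.{0}} (h𝒞 : 𝒞 ∈ Level m n) :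
    CC G 𝒞 := by
  simp only [Level, Set.mem_insert_iff, Set.mem_singleton_iff] at h𝒞
  rcases h𝒞 with rfl | rfl | rfl | rfl | rfl | rfl | rfl | rfl | rfl | rfl
  · exact cc_fibreDim hG hH
  · exact cc_closed hG hH
  · exact cc_hypersurface hG hH
  · exact cc_cone hG hH
  · exact cc_determinantal hG hH
  · exact cc_bilinear hG hH
  · exact cc_commuting hG hH
  · exact cc_kernel hG hH
  · exact cc_trilinear hG hH
  · exact cc_trilinear_one hG hH

/-! ### Quadratic equations -/

lemma dbl_of_quadraticForms (h : CC G (QuadraticForms m n)) : DbG (md (rg G) m) n :=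
  dbG_of_quad (hG.rg.mod m) fun a Q => (gz hG _).mpr (h _ ⟨a, Q, rfl⟩)

lemma cc_quadratic (h : CC G (QuadraticForms m n)) : CC G (Quadratic m n) := by
  rintro X ⟨a, q, hq, rfl⟩
  exact (gz hG _).mp (gs_quadratic (hG.rg.mod m)
    (fun a Q => (gz hG _).mpr (h _ ⟨a, Q, rfl⟩)) q hq)

lemma dbG_of_double (h : CC G (DoubleCover m n)) : DbG (md (rg G) m) n :=
  fun b c => (gz hG _).mpr (h _ ⟨b, c, rfl⟩)

lemma cc_double_of_quadraticForms (h : CC G (QuadraticForms m n)) : CC G (DoubleCover m n) := by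
  rintro X ⟨b, c, rfl⟩
  exact (gz hG _).mp (dbl_of_quadraticForms hG h b c)

lemma hyp_of_double (h : CC G (DoubleCover m n)) : HypG (md (rg G) m) n :=
  hypG_of_dbG (hG.rg.mod m) (dbG_of_double hG h)

/-- hypersurfaces in `A^(n+1)` control the double covers of `A^n` -/
lemma cc_double_of_hyp (h : HypG (md (rg G) m) (n + 1)) : CC G (DoubleCover m n) := by
  rintro X ⟨b, c, rfl⟩
  have h1 := h (X 0 ^ 2 + rename Fin.succ b * X 0 + rename Fin.succ c)
  let e : Option (Fin n) ≃ Fin (n + 1) := (finSuccEquiv n).symm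
  have h2 : GS (md (rg G) m) (rename e '' ({X none ^ 2 + rename some b * X none +
      rename some c} : Set (MvPolynomial (Option (Fin n)) ℤ))) := by
    rw [Set.image_singleton]
    have h3 : rename e (X none ^ 2 + rename some b * X none + rename some c) =
        X 0 ^ 2 + rename Fin.succ b * X 0 + rename Fin.succ c := by
      simp only [map_add, map_mul, map_pow, rename_X, rename_rename]
      rfl
    rw [h3]
    exact h1
  rw [(hG.rg.mod m).gs_emb e e.injective] at h2
  exact (gz hG _).mp h2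

end scheme

end Pool.Agent.Helper81.HG
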