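import Pool.Agent.Helper81.HG.Gl2

/-!
# Classes of rings of finite type over `ℤ` closed under cutting and pasting
-/

set_option autoImplicit false

open MvPolynomial
open Pool.Agent.Helper81.CP

namespace Pool.Agent.Helper81.HG

/-- a class of rings of finite type over `ℤ` which is closed under cutting and pasting, under
products with the affine line and under descent along the multiplicative group and along `GL₂` -/
structure RG (G : ∀ (R : Type) [CommRing R], Prop) : Prop where
  triv : ∀ (R : Type) [CommRing R], Subsingleton R → G R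
  iso : ∀ (R S : Type) [CommRing R] [CommRing S], FT R → (R ≃+* S) → G R → G S
  glue : ∀ (R : Type) [CommRing R], FT R → ∀ f : R,
    G (R ⧸ Ideal.span {f}) → G (Localization.Away f) → G R
  opn : ∀ (R : Type) [CommRing R], FT R → ∀ f : R,
    G R → G (R ⧸ Ideal.span {f}) → G (Localization.Away f)
  closed : ∀ (R : Type) [CommRing R], FT R → ∀ f : R,
    G R → G (Localization.Away f) → G (R ⧸ Ideal.span {f})
  line : ∀ (R : Type) [CommRing R], FT R → (G (Polynomial R) ↔ G R)
  gm : ∀ (R : Type) [CommRing R], FT R →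
    G (Localization.Away (Polynomial.X : Polynomial R)) → G R
  gl2 : ∀ (σ : Type) [Finite σ] (E : Set (MvPolynomial σ ℤ)),
    G (Rng (Option (σ ⊕ Fin 4)) (dop (dt σ) (rename Sum.inl '' E))) → G (Rng σ E)

variable {G : ∀ (R : Type) [CommRing R], Prop}

/-- the system `E` belongs to the class -/
def GS (G : ∀ (R : Type) [CommRing R], Prop) {σ : Type} (E : Set (MvPolynomial σ ℤ)) : Prop :=
  G (Rng σ E)

lemma RG.rep_iff (hG : RG G) {R : Type} [CommRing R] {σ : Type} [Finite σ]
    {E : Set (MvPolynomial σ ℤ)} {u : σ → R} (h : Rep R E u) : G R ↔ GS G E := by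
  obtain ⟨e⟩ := (rep_rng E).iso' h
  exact ⟨hG.iso R (Rng σ E) h.ft e.symm, hG.iso (Rng σ E) R (ft_rng E) e⟩

section

variable (hG : RG G) {σ τ : Type} [Finite σ] [Finite τ]

include hG

/-- isomorphic systems -/
lemma RG.gs_iso {E : Set (MvPolynomial σ ℤ)} {E' : Set (MvPolynomial τ ℤ)}
    (f : ∀ (A : Type) [CommRing A], (σ → A) → (τ → A))
    (g : ∀ (A : Type) [CommRing A], (τ → A) → (σ → A))
    (nf : ∀ (A B : Type) [CommRing A] [CommRing B] (φ : A →+* B) (x : σ → A), Pt E x →
      ∀ j, φ (f A x j) = f B (fun i => φ (x i)) j)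
    (ng : ∀ (A B : Type) [CommRing A] [CommRing B] (φ : A →+* B) (y : τ → A), Pt E' y →
      ∀ i, φ (g A y i) = g B (fun j => φ (y j)) i)
    (hf : ∀ (A : Type) [CommRing A] (x : σ → A), Pt E x → Pt E' (f A x))
    (hg : ∀ (A : Type) [CommRing A] (y : τ → A), Pt E' y → Pt E (g A y))
    (gf : ∀ (A : Type) [CommRing A] (x : σ → A), Pt E x → g A (f A x) = x)
    (fg : ∀ (A : Type) [CommRing A] (y : τ → A), Pt E' y → f A (g A y) = y) :
    GS G E ↔ GS G E' := by
  obtain ⟨e⟩ := (rep_rng E).iso (rep_rng E') f g nf ng hf hg gf fg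
  exact ⟨hG.iso _ _ (ft_rng E) e, hG.iso _ _ (ft_rng E') e.symm⟩

/-- systems with the same solutions -/
lemma RG.gs_congr {E E' : Set (MvPolynomial σ ℤ)}
    (h : ∀ (A : Type) [CommRing A] (x : σ → A), Pt E x ↔ Pt E' x) : GS G E ↔ GS G E' :=
  hG.gs_iso (fun _ _ x => x) (fun _ _ x => x) (fun _ _ _ _ _ _ _ _ => rfl)
    (fun _ _ _ _ _ _ _ _ => rfl) (fun A _ x hx => (h A x).mp hx) (fun A _ x hx => (h A x).mpr hx)
    (fun _ _ _ _ => rfl) (fun _ _ _ _ => rfl)

lemma RG.gs_closed_iff (E : Set (MvPolynomial σ ℤ)) (p : MvPolynomial σ ℤ) :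
    G (Rng σ E ⧸ Ideal.span {ev (tau E) p}) ↔ GS G (insert p E) :=
  hG.rep_iff ((rep_rng E).closed p)

lemma RG.gs_opn_iff (E : Set (MvPolynomial σ ℤ)) (p : MvPolynomial σ ℤ) :
    G (Localization.Away (ev (tau E) p)) ↔ GS G (dop p E) :=
  hG.rep_iff ((rep_rng E).dop p)

lemma RG.gs_line (E : Set (MvPolynomial σ ℤ)) : GS G (lft E) ↔ GS G E :=
  (hG.rep_iff (rep_rng E).line).symm.trans (hG.line _ (ft_rng E))

lemma RG.gs_gm {E : Set (MvPolynomial σ ℤ)} (h : GS G (dop (X none) (lft E))) : GS G E := by
  have h1 := (hG.rep_iff ((rep_rng E).line.dop (X none))).mpr h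
  rw [ev_X] at h1
  exact hG.gm _ (ft_rng E) h1

lemma RG.gs_glue {E : Set (MvPolynomial σ ℤ)} {p : MvPolynomial σ ℤ}
    (h1 : GS G (insert p E)) (h2 : GS G (dop p E)) : GS G E :=
  hG.glue _ (ft_rng E) (ev (tau E) p) ((hG.gs_closed_iff E p).mpr h1)
    ((hG.gs_opn_iff E p).mpr h2)

lemma RG.gs_opn {E : Set (MvPolynomial σ ℤ)} {p : MvPolynomial σ ℤ}
    (h1 : GS G E) (h2 : GS G (insert p E)) : GS G (dop p E) :=
  (hG.gs_opn_iff E p).mp
    (hG.opn _ (ft_rng E) (ev (tau E) p) h1 ((hG.gs_closed_iff E p).mpr h2))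

lemma RG.gs_closed {E : Set (MvPolynomial σ ℤ)} {p : MvPolynomial σ ℤ}
    (h1 : GS G E) (h2 : GS G (dop p E)) : GS G (insert p E) :=
  (hG.gs_closed_iff E p).mp
    (hG.closed _ (ft_rng E) (ev (tau E) p) h1 ((hG.gs_opn_iff E p).mpr h2))

end

/-! ### Locally closed systems -/

/-- `x` is a solution of `E` and `p (x)` is a unit -/
def Lc {σ : Type} (E : Set (MvPolynomial σ ℤ)) (p : MvPolynomial σ ℤ) {A : Type} [CommRing A]
    (x : σ → A) : Prop := Pt E x ∧ IsUnit (ev x p)

lemma Lc.map {σ : Type} {E : Set (MvPolynomial σ ℤ)} {p : MvPolynomial σ ℤ} {A B : Type}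
    [CommRing A] [CommRing B] {x : σ → A} (hx : Lc E p x) (φ : A →+* B) :
    Lc E p (fun i => φ (x i)) :=
  ⟨hx.1.map φ, by rw [← ev_map]; exact hx.2.map φ⟩

/-- the open subscheme `p ≠ 0` of `E` belongs to the class -/
def GO (G : ∀ (R : Type) [CommRing R], Prop) {σ : Type} (E : Set (MvPolynomial σ ℤ))
    (p : MvPolynomial σ ℤ) : Prop := GS G (dop p E)

lemma map_inv_of_unit {A B : Type} [CommRing A] [CommRing B] (φ : A →+* B) {a : A}
    (h : IsUnit a) : φ (Ring.inverse a) = Ring.inverse (φ a) := by
  obtain ⟨u, rfl⟩ := h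
  rw [Ring.inverse_unit]
  have : φ (u : A) = ((Units.map (φ : A →* B) u : Bˣ) : B) := rfl
  rw [this, Ring.inverse_unit]
  rfl

lemma eq_inv_of_mul {A : Type} [CommRing A] {a t : A} (h : t * a = 1) : t = Ring.inverse a := by
  have hu : IsUnit a := IsUnit.of_mul_eq_one_right _ h
  calc t = t * (a * Ring.inverse a) := by rw [Ring.mul_inverse_cancel a hu, mul_one]
    _ = (t * a) * Ring.inverse a := by ring
    _ = Ring.inverse a := by rw [h, one_mul]

lemma Pt.dop_iff_lc {σ : Type} {E : Set (MvPolynomial σ ℤ)} {p : MvPolynomial σ ℤ} {A : Type}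
    [CommRing A] {x : Option σ → A} : Pt (dop p E) x ↔
      Lc E p (fun i => x (some i)) ∧ x none = Ring.inverse (ev (fun i => x (some i)) p) := by
  rw [Pt.dop_iff]
  constructor
  · rintro ⟨h1, h2⟩
    exact ⟨⟨h2, IsUnit.of_mul_eq_one_right _ h1⟩, eq_inv_of_mul h1⟩
  · rintro ⟨⟨h1, h2⟩, h3⟩
    exact ⟨by rw [h3, Ring.inverse_mul_cancel _ h2], h1⟩

section

variable (hG : RG G) {σ τ : Type} [Finite σ] [Finite τ]

include hG

/-- isomorphic locally closed systems -/
theorem RG.gl_iso {E : Set (MvPolynomial σ ℤ)} {p : MvPolynomial σ ℤ}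
    {E' : Set (MvPolynomial τ ℤ)} {p' : MvPolynomial τ ℤ}
    (f : ∀ (A : Type) [CommRing A], (σ → A) → (τ → A))
    (g : ∀ (A : Type) [CommRing A], (τ → A) → (σ → A))
    (nf : ∀ (A B : Type) [CommRing A] [CommRing B] (φ : A →+* B) (x : σ → A), Lc E p x →
      ∀ j, φ (f A x j) = f B (fun i => φ (x i)) j)
    (ng : ∀ (A B : Type) [CommRing A] [CommRing B] (φ : A →+* B) (y : τ → A), Lc E' p' y →
      ∀ i, φ (g A y i) = g B (fun j => φ (y j)) i)
    (hf : ∀ (A : Type) [CommRing A] (x : σ → A), Lc E p x → Lc E' p' (f A x))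
    (hg : ∀ (A : Type) [CommRing A] (y : τ → A), Lc E' p' y → Lc E p (g A y))
    (gf : ∀ (A : Type) [CommRing A] (x : σ → A), Lc E p x → g A (f A x) = x)
    (fg : ∀ (A : Type) [CommRing A] (y : τ → A), Lc E' p' y → f A (g A y) = y) :
    GO G E p ↔ GO G E' p' := by
  refine hG.gs_iso
    (fun A _ x => fun o => o.elim (Ring.inverse (ev (f A (fun i => x (some i))) p'))
      (f A (fun i => x (some i))))
    (fun A _ y => fun o => o.elim (Ring.inverse (ev (g A (fun i => y (some i))) p))
      (g A (fun i => y (some i)))) ?_ ?_ ?_ ?_ ?_ ?_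
  · intro A B _ _ φ x hx j
    rw [Pt.dop_iff_lc] at hx
    rcases j with _ | j
    · show φ (Ring.inverse (ev (f A (fun i => x (some i))) p')) =
        Ring.inverse (ev (f B (fun i => φ (x (some i)))) p')
      rw [map_inv_of_unit φ (hf A _ hx.1).2, ev_map]
      congr 2
      exact congrArg _ (funext fun j => nf A B φ _ hx.1 j)
    · exact nf A B φ _ hx.1 j
  · intro A B _ _ φ y hy i
    rw [Pt.dop_iff_lc] at hy
    rcases i with _ | i
    · show φ (Ring.inverse (ev (g A (fun i => y (some i))) p)) =
        Ring.inverse (ev (g B (fun i => φ (y (some i)))) p)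
      rw [map_inv_of_unit φ (hg A _ hy.1).2, ev_map]
      congr 2
      exact congrArg _ (funext fun j => ng A B φ _ hy.1 j)
    · exact ng A B φ _ hy.1 i
  · intro A _ x hx
    rw [Pt.dop_iff_lc] at hx ⊢
    exact ⟨hf A _ hx.1, rfl⟩
  · intro A _ y hy
    rw [Pt.dop_iff_lc] at hy ⊢
    exact ⟨hg A _ hy.1, rfl⟩
  · intro A _ x hx
    rw [Pt.dop_iff_lc] at hx
    have h1 := gf A _ hx.1
    funext o
    rcases o with _ | i
    · show Ring.inverse (ev (g A (f A (fun i => x (some i)))) p) = x none
      rw [h1, hx.2]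
    · exact congrFun h1 i
  · intro A _ y hy
    rw [Pt.dop_iff_lc] at hy
    have h1 := fg A _ hy.1
    funext o
    rcases o with _ | i
    · show Ring.inverse (ev (f A (g A (fun i => y (some i)))) p') = y none
      rw [h1, hy.2]
    · exact congrFun h1 i

/-- locally closed systems with the same solutions -/
lemma RG.gl_congr {E E' : Set (MvPolynomial σ ℤ)} {p p' : MvPolynomial σ ℤ}
    (h : ∀ (A : Type) [CommRing A] (x : σ → A), Lc E p x ↔ Lc E' p' x) :
    GO G E p ↔ GO G E' p' :=
  hG.gl_iso (fun _ _ x => x) (fun _ _ x => x) (fun _ _ _ _ _ _ _ _ => rfl)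
    (fun _ _ _ _ _ _ _ _ => rfl) (fun A _ x hx => (h A x).mp hx) (fun A _ x hx => (h A x).mpr hx)
    (fun _ _ _ _ => rfl) (fun _ _ _ _ => rfl)

lemma RG.gl_one (E : Set (MvPolynomial σ ℤ)) : GO G E 1 ↔ GS G E := by
  refine hG.gs_iso (fun A _ x i => x (some i)) (fun A _ y o => o.elim 1 y) ?_ ?_ ?_ ?_ ?_ ?_
  · intro A B _ _ φ x _ j; rfl
  · intro A B _ _ φ y _ o
    rcases o with _ | i
    · exact map_one φ
    · rfl
  · intro A _ x hx
    rw [Pt.dop_iff] at hx
    exact hx.2
  · intro A _ y hy
    rw [Pt.dop_iff]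
    exact ⟨by simp, hy⟩
  · intro A _ x hx
    rw [Pt.dop_iff, map_one, mul_one] at hx
    funext o
    rcases o with _ | i
    · exact hx.1.symm
    · rfl
  · intro A _ y _; rfl

lemma RG.gl_dop (E : Set (MvPolynomial σ ℤ)) (p q : MvPolynomial σ ℤ) :
    GS G (dop (rename some q) (dop p E)) ↔ GO G E (p * q) := by
  refine hG.gs_iso
    (fun A _ x => fun o => o.elim (x none * x (some none)) (fun i => x (some (some i))))
    (fun A _ y => fun o => o.elim (y none * ev (fun i => y (some i)) p)
      (fun o' => o'.elim (y none * ev (fun i => y (some i)) q) (fun i => y (some i))))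
    ?_ ?_ ?_ ?_ ?_ ?_
  · intro A B _ _ φ x _ o
    rcases o with _ | i
    · exact map_mul φ _ _
    · rfl
  · intro A B _ _ φ y _ o
    rcases o with _ | _ | i
    · exact (map_mul φ _ _).trans (congrArg (φ (y none) * ·) (ev_map φ _ _))
    · exact (map_mul φ _ _).trans (congrArg (φ (y none) * ·) (ev_map φ _ _))
    · rfl
  · intro A _ x hx
    rw [Pt.dop_iff, Pt.dop_iff, ev_rename] at hx
    rw [Pt.dop_iff, map_mul]
    obtain ⟨h1, h2, h3⟩ := hx
    refine ⟨?_, h3⟩
    show (x none * x (some none)) * (ev (fun i => x (some (some i))) p *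
      ev (fun i => x (some (some i))) q) = 1
    linear_combination (x (some none) * ev (fun i => x (some (some i))) p) * h1 + h2
  · intro A _ y hy
    rw [Pt.dop_iff, map_mul] at hy
    rw [Pt.dop_iff, Pt.dop_iff, ev_rename]
    refine ⟨?_, ?_, hy.2⟩
    · show (y none * ev (fun i => y (some i)) p) * ev (fun i => y (some i)) q = 1
      linear_combination hy.1
    · show (y none * ev (fun i => y (some i)) q) * ev (fun i => y (some i)) p = 1
      linear_combination hy.1
  · intro A _ x hx
    rw [Pt.dop_iff, Pt.dop_iff, ev_rename] at hx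
    obtain ⟨h1, h2, h3⟩ := hx
    funext o
    rcases o with _ | _ | i
    · show (x none * x (some none)) * ev (fun i => x (some (some i))) p = x none
      linear_combination x none * h2
    · show (x none * x (some none)) * ev (fun i => x (some (some i))) q = x (some none)
      linear_combination x (some none) * h1
    · rfl
  · intro A _ y hy
    rw [Pt.dop_iff, map_mul] at hy
    funext o
    rcases o with _ | i
    · show (y none * ev (fun i => y (some i)) p) * (y none * ev (fun i => y (some i)) q) = y none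
      linear_combination y none * hy.1
    · rfl

omit hG [Finite σ] in
lemma pt_insert_dop {E : Set (MvPolynomial σ ℤ)} {p q : MvPolynomial σ ℤ} {A : Type} [CommRing A]
    (x : Option σ → A) : Pt (insert (rename some q) (dop p E)) x ↔ Pt (dop p (insert q E)) x := by
  rw [Pt.insert_iff, Pt.dop_iff, Pt.dop_iff, Pt.insert_iff, ev_rename]
  tauto

lemma RG.gl_glue {E : Set (MvPolynomial σ ℤ)} {p : MvPolynomial σ ℤ} (q : MvPolynomial σ ℤ)
    (h1 : GO G (insert q E) p) (h2 : GO G E (p * q)) : GO G E p :=
  hG.gs_glue ((hG.gs_congr fun _ _ x => pt_insert_dop x).mpr h1) ((hG.gl_dop E p q).mpr h2)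

lemma RG.gl_opn {E : Set (MvPolynomial σ ℤ)} {p : MvPolynomial σ ℤ} (q : MvPolynomial σ ℤ)
    (h1 : GO G E p) (h2 : GO G (insert q E) p) : GO G E (p * q) :=
  (hG.gl_dop E p q).mp
    (hG.gs_opn h1 ((hG.gs_congr fun _ _ x => pt_insert_dop x).mpr h2))

lemma RG.gl_closed {E : Set (MvPolynomial σ ℤ)} {p : MvPolynomial σ ℤ} (q : MvPolynomial σ ℤ)
    (h1 : GO G E p) (h2 : GO G E (p * q)) : GO G (insert q E) p :=
  (hG.gs_congr fun _ _ x => pt_insert_dop x).mp (hG.gs_closed h1 ((hG.gl_dop E p q).mpr h2))

lemma RG.gl_line (E : Set (MvPolynomial σ ℤ)) (p : MvPolynomial σ ℤ) :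
    GO G (lft E) (rename some p) ↔ GO G E p := by
  unfold GO
  rw [← hG.gs_line (dop p E)]
  let sw : Option (Option σ) → Option (Option σ) := fun o => o.elim (some none)
    (fun o' => o'.elim none (fun i => some (some i)))
  have hsw : ∀ o, sw (sw o) = o := by
    rintro (_ | _ | _) <;> rfl
  have key : ∀ (A : Type) [CommRing A] (x : Option (Option σ) → A),
      Pt (dop (rename some p) (lft E)) x ↔ Pt (lft (dop p E)) (fun o => x (sw o)) := by
    intro A _ x
    rw [Pt.dop_iff, Pt.lft_iff, Pt.lft_iff, Pt.dop_iff, ev_rename]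
    rfl
  refine hG.gs_iso (fun A _ x => fun o => x (sw o)) (fun A _ x => fun o => x (sw o))
    (fun _ _ _ _ _ _ _ _ => rfl) (fun _ _ _ _ _ _ _ _ => rfl) ?_ ?_ ?_ ?_
  · intro A _ x hx
    exact (key A x).mp hx
  · intro A _ x hx
    rw [key]
    have : (fun o => x (sw (sw o))) = x := funext fun o => by rw [hsw]
    rw [this]
    exact hx
  · intro A _ x _
    funext o
    exact congrArg x (hsw o)
  · intro A _ x _
    funext o
    exact congrArg x (hsw o)

open scoped Classical in
/-- a free coordinate -/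
lemma RG.gl_free {E : Set (MvPolynomial σ ℤ)} {p : MvPolynomial σ ℤ} (a : σ)
    (hfree : ∀ (A : Type) [CommRing A] (x y : σ → A), (∀ i, i ≠ a → y i = x i) →
      Lc E p x → Lc E p y) : GO G E p ↔ GO G (insert (X a) E) p := by
  rw [← hG.gl_line (insert (X a) E) p]
  have hl : ∀ (A : Type) [CommRing A] (x : Option σ → A),
      Lc (lft (insert (X a) E)) (rename some p) x ↔
        x (some a) = 0 ∧ Lc E p (fun i => x (some i)) := by
    intro A _ x
    unfold Lc
    rw [Pt.lft_iff, Pt.insert_iff, ev_rename, ev_X]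
    tauto
  refine hG.gl_iso
    (fun A _ x => fun o => o.elim (x a) (Function.update x a 0))
    (fun A _ y => Function.update (fun i => y (some i)) a (y none)) ?_ ?_ ?_ ?_ ?_ ?_
  · intro A B _ _ φ x _ j
    rcases j with _ | j
    · rfl
    · simp only [Option.elim, Function.update_apply]
      split_ifs <;> simp
  · intro A B _ _ φ y _ i
    simp only [Function.update_apply]
    split_ifs <;> rfl
  · intro A _ x hx
    rw [hl]
    exact ⟨by simp, hfree A x _ (fun i hi => by simp [hi]) hx⟩
  · intro A _ y hy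
    rw [hl] at hy
    exact hfree A _ _ (fun i hi => by simp [hi]) hy.2
  · intro A _ x _
    simp
  · intro A _ y hy
    rw [hl] at hy
    funext o
    rcases o with _ | i
    · simp
    · simp only [Option.elim, Function.update_idem]
      rw [Function.update_apply]
      split_ifs with h
      · rw [h, hy.1]
      · rfl

open scoped Classical in
/-- descent along the multiplicative group -/
lemma RG.gl_gm {E : Set (MvPolynomial σ ℤ)} {p : MvPolynomial σ ℤ} (a : σ)
    (hfree : ∀ (A : Type) [CommRing A] (x y : σ → A), (∀ i, i ≠ a → y i = x i) →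
      Lc E p x → Lc E p y) : GO G E (p * X a) ↔ GO G E p := by
  constructor
  · intro h
    rw [hG.gl_free a hfree]
    have h1 : GS G (dop (X none) (lft (dop p (insert (X a) E)))) := by
      have hl : ∀ (A : Type) [CommRing A] (x : Option (Option σ) → A),
          Pt (lft (dop p (insert (X a) E))) x ↔
            (x (some none) * ev (fun i => x (some (some i))) p = 1 ∧
            x (some (some a)) = 0 ∧ Pt E (fun i => x (some (some i)))) := by
        intro A _ x
        rw [Pt.lft_iff, Pt.dop_iff, Pt.insert_iff, ev_X]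
      have e := hG.gl_iso (E := E) (p := p * X a) (E' := lft (dop p (insert (X a) E)))
        (p' := X none)
        (fun A _ x => fun o => o.elim (x a) (fun o' => o'.elim
          (Ring.inverse (ev (Function.update x a 0) p)) (Function.update x a 0)))
        (fun A _ y => Function.update (fun i => y (some (some i))) a (y none))
      refine (e ?_ ?_ ?_ ?_ ?_ ?_).mp h
      · intro A B _ _ φ x hx j
        have hx' : Lc E p x := ⟨hx.1, by
          have := hx.2
          rw [map_mul] at this
          exact isUnit_of_mul_isUnit_left this⟩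
        have hu : Lc E p (Function.update x a 0) := hfree A x _ (fun i hi => by simp [hi]) hx'
        have hφ : (fun i => φ (Function.update x a 0 i)) =
            Function.update (fun i => φ (x i)) a 0 := by
          funext i
          simp only [Function.update_apply]
          split_ifs <;> simp
        rcases j with _ | _ | j
        · rfl
        · show φ (Ring.inverse (ev (Function.update x a 0) p)) =
            Ring.inverse (ev (Function.update (fun i => φ (x i)) a 0) p)
          rw [map_inv_of_unit φ hu.2, ev_map, hφ]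
        · exact congrFun hφ j
      · intro A B _ _ φ y _ i
        simp only [Function.update_apply]
        split_ifs <;> rfl
      · intro A _ x hx
        have hx' : Lc E p x := ⟨hx.1, by
          have := hx.2
          rw [map_mul] at this
          exact isUnit_of_mul_isUnit_left this⟩
        have hxa : IsUnit (x a) := by
          have := hx.2
          rw [map_mul, ev_X] at this
          exact isUnit_of_mul_isUnit_right this
        have hu : Lc E p (Function.update x a 0) := hfree A x _ (fun i hi => by simp [hi]) hx'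
        refine ⟨(hl A _).mpr ⟨Ring.inverse_mul_cancel _ hu.2, by simp, hu.1⟩, ?_⟩
        rw [ev_X]
        exact hxa
      · intro A _ y hy
        obtain ⟨h1, h2⟩ := hy
        obtain ⟨h3, h4, h5⟩ := (hl A y).mp h1
        rw [ev_X] at h2
        have h6 : Lc E p (Function.update (fun i => y (some (some i))) a (y none)) :=
          hfree A (fun i => y (some (some i))) _ (fun i hi => by simp [hi])
            ⟨h5, IsUnit.of_mul_eq_one_right _ h3⟩
        refine ⟨h6.1, ?_⟩
        rw [map_mul, ev_X]
        refine h6.2.mul ?_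
        simpa using h2
      · intro A _ x _
        simp
      · intro A _ y hy
        obtain ⟨h1, h2⟩ := hy
        obtain ⟨h3, h4, h5⟩ := (hl A y).mp h1
        have h7 : Function.update (fun i => y (some (some i))) a 0 =
            fun i => y (some (some i)) := by
          funext i
          rw [Function.update_apply]
          split_ifs with h
          · rw [h, h4]
          · rfl
        funext o
        rcases o with _ | _ | i
        · simp
        · simp only [Option.elim, Function.update_idem, h7]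
          exact (eq_inv_of_mul h3).symm
        · simp only [Option.elim, Function.update_idem, h7]
    exact hG.gs_gm h1
  · intro h
    exact hG.gl_opn (X a) h ((hG.gl_free a hfree).mp h)

/-- the open set where a function of weight one is invertible is the product of the
multiplicative group and the subscheme where this function is one -/
lemma RG.gl_scale {E : Set (MvPolynomial σ ℤ)} {p : MvPolynomial σ ℤ} (W : Set σ)
    (q : MvPolynomial σ ℤ)
    (hE : ∀ (A : Type) [CommRing A] (x : σ → A) (c : A), IsUnit c → Lc E p x →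
      Lc E p (scl W c x))
    (hq : ∀ (A : Type) [CommRing A] (x : σ → A) (c : A), ev (scl W c x) q = c * ev x q) :
    GO G E (p * q) ↔ GO G (insert (q - 1) E) p := by
  have hl : ∀ (A : Type) [CommRing A] (x : Option σ → A),
      Lc (lft (insert (q - 1) E)) (rename some p) x ↔
        ev (fun i => x (some i)) q = 1 ∧ Lc E p (fun i => x (some i)) := by
    intro A _ x
    unfold Lc
    rw [Pt.lft_iff, Pt.insert_iff, ev_rename, map_sub, map_one, sub_eq_zero]
    tauto
  have hl' : ∀ (A : Type) [CommRing A] (x : Option σ → A),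
      Lc (lft (insert (q - 1) E)) (rename some p * X none) x ↔
        ev (fun i => x (some i)) q = 1 ∧ Lc E p (fun i => x (some i)) ∧ IsUnit (x none) := by
    intro A _ x
    unfold Lc
    rw [Pt.lft_iff, Pt.insert_iff, map_mul, ev_rename, ev_X, map_sub, map_one, sub_eq_zero,
      IsUnit.mul_iff]
    tauto
  rw [← hG.gl_line (insert (q - 1) E) p, ← hG.gl_gm (E := lft (insert (q - 1) E)) none (by
    intro A _ x y hxy hx
    rw [hl] at hx ⊢
    have h1 : (fun i => y (some i)) = fun i => x (some i) :=
      funext fun i => hxy (some i) (by simp)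
    rw [h1]
    exact hx)]
  refine hG.gl_iso
    (fun A _ x => fun o => o.elim (ev x q) (scl W (Ring.inverse (ev x q)) x))
    (fun A _ z => scl W (z none) (fun i => z (some i)))
    ?_ ?_ ?_ ?_ ?_ ?_
  · intro A B _ _ φ x hx j
    have hu : IsUnit (ev x q) := by
      have := hx.2
      rw [map_mul] at this
      exact isUnit_of_mul_isUnit_right this
    rcases j with _ | j
    · exact ev_map φ _ q
    · show φ (scl W (Ring.inverse (ev x q)) x j) =
        scl W (Ring.inverse (ev (fun i => φ (x i)) q)) (fun i => φ (x i)) j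
      rw [scl_map, map_inv_of_unit φ hu, ev_map]
  · intro A B _ _ φ z _ i
    exact scl_map W φ (z none) (fun i => z (some i)) i
  · intro A _ x hx
    have h1 : IsUnit (ev x q) := by
      have := hx.2
      rw [map_mul] at this
      exact isUnit_of_mul_isUnit_right this
    have h2 : Lc E p x := ⟨hx.1, by
      have := hx.2
      rw [map_mul] at this
      exact isUnit_of_mul_isUnit_left this⟩
    rw [hl']
    refine ⟨?_, hE A x _ h1.ringInverse h2, h1⟩
    show ev (scl W (Ring.inverse (ev x q)) x) q = 1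
    rw [hq, Ring.inverse_mul_cancel _ h1]
  · intro A _ z hz
    rw [hl'] at hz
    obtain ⟨h1, h2, h3⟩ := hz
    have h4 := hE A _ _ h3 h2
    refine ⟨h4.1, ?_⟩
    rw [map_mul]
    refine h4.2.mul ?_
    rw [hq, h1, mul_one]
    exact h3
  · intro A _ x hx
    have h1 : IsUnit (ev x q) := by
      have := hx.2
      rw [map_mul] at this
      exact isUnit_of_mul_isUnit_right this
    exact scl_scl W _ _ _ (Ring.mul_inverse_cancel _ h1)
  · intro A _ z hz
    rw [hl'] at hz
    obtain ⟨h1, h2, h3⟩ := hz
    have h4 : ev (scl W (z none) (fun i => z (some i))) q = z none := by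
      rw [hq, h1, mul_one]
    funext o
    rcases o with _ | i
    · exact h4
    · show scl W (Ring.inverse (ev (scl W (z none) (fun i => z (some i))) q))
        (scl W (z none) (fun i => z (some i))) i = z (some i)
      rw [h4, scl_scl W _ _ _ (Ring.inverse_mul_cancel _ h3)]

/-- renaming along an equivalence -/
lemma RG.gl_equiv (e : σ ≃ τ) (E : Set (MvPolynomial σ ℤ)) (p : MvPolynomial σ ℤ) :
    GO G (rename e '' E) (rename e p) ↔ GO G E p := by
  have hpt : ∀ (A : Type) [CommRing A] (y : τ → A), Lc (rename e '' E) (rename e p) y ↔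
      Lc E p (fun i => y (e i)) := by
    intro A _ y
    simp only [Lc, Pt, Set.forall_mem_image, ev_rename]
  refine hG.gl_iso (fun A _ y => fun i => y (e i)) (fun A _ x => fun j => x (e.symm j))
    (fun _ _ _ _ _ _ _ _ => rfl) (fun _ _ _ _ _ _ _ _ => rfl) ?_ ?_ ?_ ?_
  · intro A _ y hy
    exact (hpt A y).mp hy
  · intro A _ x hx
    rw [hpt]
    simpa using hx
  · intro A _ y _
    simp
  · intro A _ x _
    simp

omit [Finite τ] in
/-- adding free variables -/
lemma RG.gl_sum [hτ : Finite τ] (E : Set (MvPolynomial σ ℤ)) (p : MvPolynomial σ ℤ) :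
    GO G (rename (Sum.inl : σ → σ ⊕ τ) '' E) (rename Sum.inl p) ↔ GO G E p := by
  refine Finite.induction_empty_option
    (P := fun τ => Finite τ →
      (GO G (rename (Sum.inl : σ → σ ⊕ τ) '' E) (rename Sum.inl p) ↔ GO G E p))
    ?_ ?_ ?_ τ hτ
  · intro α β e ih hβ
    have hα : Finite α := Finite.of_equiv _ e.symm
    rw [← ih hα, ← hG.gl_equiv (Equiv.sumCongr (Equiv.refl σ) e)]
    refine hG.gl_congr fun A _ x => ?_
    simp only [Lc, Pt, Set.forall_mem_image, ev_rename]
    rfl
  · intro _
    rw [← hG.gl_equiv (Equiv.sumEmpty σ PEmpty).symm E p]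
    refine hG.gl_congr fun A _ x => ?_
    simp only [Lc, Pt, Set.forall_mem_image, ev_rename]
    rfl
  · intro α _ ih _
    have hα : Finite α := inferInstance
    rw [← ih hα, ← hG.gl_line (σ := σ ⊕ α)]
    let e : Option (σ ⊕ α) ≃ σ ⊕ Option α :=
      { toFun := fun o => o.elim (Sum.inr none) (Sum.elim Sum.inl (fun a => Sum.inr (some a)))
        invFun := Sum.elim (fun i => some (Sum.inl i)) (fun o => o.elim none (fun a => some (Sum.inr a)))
        left_inv := by rintro (_ | _ | _) <;> rfl
        right_inv := by rintro (_ | _ | _) <;> rfl }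
    rw [← hG.gl_equiv e (lft _)]
    refine hG.gl_congr fun A _ x => ?_
    simp only [Lc, Pt, lft, Set.forall_mem_image, ev_rename]
    rfl

/-- adding free variables -/
lemma RG.gl_emb (k : σ → τ) (hk : Function.Injective k) (E : Set (MvPolynomial σ ℤ))
    (p : MvPolynomial σ ℤ) : GO G (rename k '' E) (rename k p) ↔ GO G E p := by
  classical
  let ρ : Type := {j : τ // j ∉ Set.range k}
  let e : σ ⊕ ρ ≃ τ :=
    (Equiv.sumCongr (Equiv.ofInjective k hk) (Equiv.refl ρ)).trans (Equiv.Set.sumCompl (Set.range k))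
  rw [← hG.gl_sum (τ := ρ) E, ← hG.gl_equiv e]
  refine hG.gl_congr fun A _ x => ?_
  simp only [Lc, Pt, Set.forall_mem_image, ev_rename]
  rfl

lemma RG.gs_emb (k : σ → τ) (hk : Function.Injective k) (E : Set (MvPolynomial σ ℤ)) :
    GS G (rename k '' E) ↔ GS G E := by
  have := hG.gl_emb k hk E 1
  rw [map_one, hG.gl_one, hG.gl_one] at this
  exact this

end

end Pool.Agent.Helper81.HG
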