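import Pool.Agent.Helper81.HG.Pen

/-!
# Slices of pencils and removal of hyperbolic blocks
-/

set_option autoImplicit false

open MvPolynomial
open scoped Matrix
open Pool.Agent.Helper81.CP

namespace Pool.Agent.Helper81.HG

variable {G : ∀ (R : Type) [CommRing R], Prop}

/-! ### Slices -/

section slice

variable {m : ℕ} {τ : Type}

/-- the polynomial `b_0 + ∑ x_l b_(l+1)` -/
noncomputable def sli (b : Fin (m + 1) → MvPolynomial τ ℤ) : MvPolynomial (τ ⊕ Fin m) ℤ :=
  rename Sum.inl (b 0) + ∑ l : Fin m, X (Sum.inr l) * rename Sum.inl (b l.succ)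

lemma ev_sli (b : Fin (m + 1) → MvPolynomial τ ℤ) {A : Type} [CommRing A]
    (x : τ ⊕ Fin m → A) : ev x (sli b) = ev (fun i => x (Sum.inl i)) (b 0) +
      ∑ l : Fin m, x (Sum.inr l) * ev (fun i => x (Sum.inl i)) (b l.succ) := by
  unfold sli
  simp only [map_add, map_sum, map_mul, ev_rename, ev_X]

open scoped Classical in
/-- the linear combinations of the members of a pencil -/
theorem gs_sli (hG : RG G) [Finite τ] (b : Fin (m + 1) → MvPolynomial τ ℤ)
    (h : ∀ C : Finset (Fin (m + 1)), GS G (b '' (C : Set (Fin (m + 1))))) : GS G {sli b} := by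
  have h1 : GS G (mix b ∅ Finset.univ) :=
    hG.gs_mix_of b h Finset.univ ∅ (Finset.disjoint_empty_left _)
  have h2 : GS G (mix b ∅ (Finset.univ.erase 0)) :=
    hG.gs_mix_of b h (Finset.univ.erase 0) ∅ (Finset.disjoint_empty_left _)
  have h3 : GS G (insert (X (Sum.inr 0)) (mix b ∅ (Finset.univ.erase 0))) := by
    refine (hG.gs_free (Sum.inr 0) ?_).mp h2
    intro A _ x y hxy hx
    rw [Pt.mix_iff] at hx ⊢
    have e1 : (fun i => y (Sum.inl i)) = fun i => x (Sum.inl i) :=
      funext fun i => hxy (Sum.inl i) (by simp)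
    rw [e1]
    refine ⟨?_, by simp⟩
    rw [← hx.1]
    refine Finset.sum_congr rfl fun l hl => ?_
    rw [hxy (Sum.inr l) (by
      intro h
      rw [Sum.inr.inj_iff] at h
      exact (Finset.mem_erase.mp hl).1 h)]
  have h4 : GS G (insert (X (Sum.inr 0)) (mix b ∅ Finset.univ)) := by
    refine (hG.gs_congr fun A _ x => ?_).mp h3
    rw [Pt.insert_iff, Pt.insert_iff, Pt.mix_iff, Pt.mix_iff, ev_X]
    refine and_congr_right fun h0 => ?_
    rw [← Finset.insert_erase (Finset.mem_univ (0 : Fin (m + 1))),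
      Finset.sum_insert (Finset.notMem_erase _ _), h0, zero_mul, zero_add]
    simp
  have h5 : GS G (dop (X (Sum.inr 0)) (mix b ∅ Finset.univ)) := hG.gs_opn h1 h4
  have h6 : GS G (insert (X (Sum.inr 0) - 1) (mix b ∅ Finset.univ)) := by
    refine (hG.gs_scale (Set.range Sum.inr) (X (Sum.inr 0)) ?_ ?_).mp h5
    · intro A _ x c hx
      rw [Pt.mix_iff] at hx ⊢
      refine ⟨?_, by simp⟩
      have e1 : (fun i => scl (Set.range Sum.inr) c x (Sum.inl i)) = fun i => x (Sum.inl i) := by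
        funext i
        simp [scl]
      have e2 : ∀ l, scl (Set.range Sum.inr) c x (Sum.inr l) = c * x (Sum.inr l) := by
        intro l
        simp [scl]
      rw [e1]
      have := congrArg (fun t => c * t) hx.1
      simp only [mul_zero, Finset.mul_sum] at this
      rw [← this]
      exact Finset.sum_congr rfl fun l _ => by rw [e2, mul_assoc]
    · intro A _ x c
      simp [scl]
  have key : ∀ {A : Type} [CommRing A] (x : τ ⊕ Fin (m + 1) → A), x (Sum.inr 0) = 1 →
      ∑ κ, x (Sum.inr κ) * ev (fun i => x (Sum.inl i)) (b κ) =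
      ev (fun i => x (Sum.inl i)) (b 0) +
        ∑ l : Fin m, x (Sum.inr l.succ) * ev (fun i => x (Sum.inl i)) (b l.succ) := by
    intro A _ x h
    rw [Fin.sum_univ_succ, h, one_mul]
  refine (hG.gs_iso
    (fun A _ x => Sum.elim (fun i => x (Sum.inl i)) (fun l => x (Sum.inr l.succ)))
    (fun A _ y => Sum.elim (fun i => y (Sum.inl i)) (Fin.cons 1 (fun l => y (Sum.inr l))))
    ?_ ?_ ?_ ?_ ?_ ?_).mp h6
  · intro A B _ _ φ x _ j
    rcases j with j | j <;> rfl
  · intro A B _ _ φ y _ i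
    rcases i with i | i
    · rfl
    · refine Fin.cases ?_ (fun i => ?_) i
      · exact map_one φ
      · rfl
  · intro A _ x hx
    rw [Pt.insert_iff, Pt.mix_iff, map_sub, map_one, ev_X, sub_eq_zero] at hx
    simp only [Pt, Set.mem_singleton_iff, forall_eq]
    rw [ev_sli]
    have := key x hx.1
    rw [hx.2.1] at this
    exact this.symm
  · intro A _ y hy
    simp only [Pt, Set.mem_singleton_iff, forall_eq] at hy
    rw [ev_sli] at hy
    rw [Pt.insert_iff, Pt.mix_iff, map_sub, map_one, ev_X, sub_eq_zero]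
    refine ⟨rfl, ?_, by simp⟩
    have := key (Sum.elim (fun i => y (Sum.inl i)) (Fin.cons 1 (fun l => y (Sum.inr l)))) rfl
    exact this.trans hy
  · intro A _ x hx
    rw [Pt.insert_iff, map_sub, map_one, ev_X, sub_eq_zero] at hx
    funext i
    rcases i with i | i
    · rfl
    · refine Fin.cases ?_ (fun i => ?_) i
      · exact hx.1.symm
      · rfl
  · intro A _ y _
    funext i
    rcases i with i | i <;> rfl

end slice

/-! ### Hyperbolic blocks -/

section block

variable {σ T : Type}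

lemma Pt.one_iff {q : MvPolynomial σ ℤ} {A : Type} [CommRing A] {x : σ → A} :
    Pt {q} x ↔ ev x q = 0 := by
  simp only [Pt, Set.mem_singleton_iff, forall_eq]

/-- `F + ∑ s_t z_t` -/
noncomputable def hyb (F : MvPolynomial σ ℤ) (B : Finset T) :
    MvPolynomial (σ ⊕ (T ⊕ T)) ℤ :=
  rename Sum.inl F + ∑ t ∈ B, X (Sum.inr (Sum.inl t)) * X (Sum.inr (Sum.inr t))

lemma ev_hyb (F : MvPolynomial σ ℤ) (B : Finset T) {A : Type} [CommRing A]
    (x : σ ⊕ (T ⊕ T) → A) : ev x (hyb F B) = ev (fun i => x (Sum.inl i)) F +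
      ∑ t ∈ B, x (Sum.inr (Sum.inl t)) * x (Sum.inr (Sum.inr t)) := by
  unfold hyb
  simp only [map_add, map_sum, map_mul, ev_rename, ev_X]

lemma blk_alg {A : Type} [CommRing A] [Fintype T] [DecidableEq T] (F : A) (L R s t : T → A)
    (N K : Matrix T T A) (hKN : K * N = 1) :
    F - L ⬝ᵥ (K *ᵥ R) + ∑ i, (s i + (L ᵥ* K) i) * (R + N *ᵥ t) i =
      F + L ⬝ᵥ t + s ⬝ᵥ (R + N *ᵥ t) := by
  have e2 : (L ᵥ* K) ⬝ᵥ (R + N *ᵥ t) = L ⬝ᵥ (K *ᵥ R) + L ⬝ᵥ t := by
    rw [dotProduct_add, ← Matrix.dotProduct_mulVec, ← Matrix.dotProduct_mulVec,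
      Matrix.mulVec_mulVec, hKN, Matrix.one_mulVec]
  have e3 : ∑ i, (s i + (L ᵥ* K) i) * (R + N *ᵥ t) i =
      s ⬝ᵥ (R + N *ᵥ t) + (L ᵥ* K) ⬝ᵥ (R + N *ᵥ t) := by
    rw [← add_dotProduct]
    rfl
  rw [e3, e2]
  ring

lemma blk_alg' {A : Type} [CommRing A] [Fintype T] [DecidableEq T] (F : A) (L R s z : T → A)
    (N K : Matrix T T A) (hNK : N * K = 1) :
    F + L ⬝ᵥ (K *ᵥ (z - R)) + (fun t => s t - (L ᵥ* K) t) ⬝ᵥ (R + N *ᵥ (K *ᵥ (z - R))) =
      F - L ⬝ᵥ (K *ᵥ R) + ∑ t, s t * z t := by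
  have e0 : R + N *ᵥ (K *ᵥ (z - R)) = z := by
    rw [Matrix.mulVec_mulVec, hNK, Matrix.one_mulVec, add_sub_cancel]
  have e1 : (fun t => s t - (L ᵥ* K) t) ⬝ᵥ z = (∑ t, s t * z t) - L ⬝ᵥ (K *ᵥ z) := by
    rw [Matrix.dotProduct_mulVec]
    exact sub_dotProduct s (L ᵥ* K) z
  rw [e0, e1, Matrix.mulVec_sub, dotProduct_sub]
  ring

variable (hG : RG G) [Finite σ] [Finite T]

include hG

open scoped Classical in
lemma gs_hyb_step (h0 : GS G (∅ : Set (MvPolynomial Empty ℤ))) (F : MvPolynomial σ ℤ)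
    {B : Finset T} {a : T} (ha : a ∉ B) (h : GS G {hyb F (insert a B)}) : GS G {hyb F B} := by
  let sa : σ ⊕ (T ⊕ T) := Sum.inr (Sum.inl a)
  let za : σ ⊕ (T ⊕ T) := Sum.inr (Sum.inr a)
  have hne : za ≠ sa := by simp [sa, za]
  have hind : ∀ {A : Type} [CommRing A] (x y : σ ⊕ (T ⊕ T) → A),
      (∀ i, i ≠ sa → i ≠ za → y i = x i) → ev y (hyb F B) = ev x (hyb F B) := by
    intro A _ x y hxy
    rw [ev_hyb, ev_hyb]
    have e1 : (fun i => y (Sum.inl i)) = fun i => x (Sum.inl i) :=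
      funext fun i => hxy (Sum.inl i) (by simp [sa]) (by simp [za])
    rw [e1]
    congr 1
    refine Finset.sum_congr rfl fun t ht => ?_
    have hta : t ≠ a := fun h => ha (h ▸ ht)
    rw [hxy _ (by simp [sa, hta]) (by simp [za]), hxy _ (by simp [sa]) (by simp [za, hta])]
  have hins : ∀ {A : Type} [CommRing A] (x : σ ⊕ (T ⊕ T) → A),
      ev x (hyb F (insert a B)) = ev x (hyb F B) + x sa * x za := by
    intro A _ x
    rw [ev_hyb, ev_hyb, Finset.sum_insert ha]
    ring
  -- the part where `z_a` is invertible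
  have h1 : GO G ({X sa} : Set (MvPolynomial (σ ⊕ (T ⊕ T)) ℤ)) (X za) := by
    have e0 : GS G (∅ : Set (MvPolynomial (σ ⊕ (T ⊕ T)) ℤ)) := gs_affine_of_base hG h0 _
    have e1 : GS G (insert (X sa) (∅ : Set (MvPolynomial (σ ⊕ (T ⊕ T)) ℤ))) :=
      (hG.gs_free sa (fun A _ x y _ _ => by simp [Pt])).mp e0
    have e2 : GS G (insert (X za) (insert (X sa) (∅ : Set (MvPolynomial (σ ⊕ (T ⊕ T)) ℤ)))) := by
      refine (hG.gs_free za (fun A _ x y hxy hx => ?_)).mp e1
      rw [Pt.insert_iff, ev_X] at hx ⊢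
      refine ⟨?_, by simp [Pt]⟩
      rw [hxy sa hne.symm, hx.1]
    have e3 := hG.gs_opn e1 e2
    rwa [insert_empty_eq] at e3
  have h2 : GO G ({hyb F (insert a B)} : Set (MvPolynomial (σ ⊕ (T ⊕ T)) ℤ)) (X za) := by
    have hlc : ∀ {A : Type} [CommRing A] {x : σ ⊕ (T ⊕ T) → A},
        Lc ({hyb F (insert a B)} : Set (MvPolynomial (σ ⊕ (T ⊕ T)) ℤ)) (X za) x ↔
          ev x (hyb F B) + x sa * x za = 0 ∧ IsUnit (x za) := by
      intro A _ x
      unfold Lc
      rw [Pt.one_iff, hins, ev_X]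
    have hlc' : ∀ {A : Type} [CommRing A] {x : σ ⊕ (T ⊕ T) → A},
        Lc ({X sa} : Set (MvPolynomial (σ ⊕ (T ⊕ T)) ℤ)) (X za) x ↔
          x sa = 0 ∧ IsUnit (x za) := by
      intro A _ x
      unfold Lc
      rw [Pt.one_iff, ev_X, ev_X]
    refine (hG.gl_iso (fun A _ y => Function.update y sa (-(Ring.inverse (y za) *
        ev y (hyb F B)))) (fun A _ x => Function.update x sa 0) ?_ ?_ ?_ ?_ ?_ ?_).mp h1
    · intro A B' _ _ φ y hy j
      rw [hlc'] at hy
      simp only [Function.update_apply]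
      split_ifs
      · rw [map_neg, map_mul, map_inv_of_unit φ hy.2, ev_map]
      · rfl
    · intro A B' _ _ φ x _ j
      simp only [Function.update_apply]
      split_ifs
      · exact map_zero φ
      · rfl
    · intro A _ y hy
      rw [hlc'] at hy
      rw [hlc, Function.update_self, Function.update_of_ne hne]
      refine ⟨?_, hy.2⟩
      have e1 : ev (Function.update y sa (-(Ring.inverse (y za) * ev y (hyb F B))))
          (hyb F B) = ev y (hyb F B) :=
        hind _ _ (fun i hi _ => Function.update_of_ne hi _ _)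
      rw [e1]
      have e2 := Ring.inverse_mul_cancel _ hy.2
      linear_combination -(ev y (hyb F B)) * e2
    · intro A _ x hx
      rw [hlc] at hx
      rw [hlc', Function.update_self, Function.update_of_ne hne]
      exact ⟨rfl, hx.2⟩
    · intro A _ y hy
      rw [hlc'] at hy
      rw [Function.update_idem, Function.update_eq_iff]
      exact ⟨hy.1.symm, fun _ _ => rfl⟩
    · intro A _ x hx
      rw [hlc] at hx
      have e1 : ev (Function.update x sa (0 : A)) (hyb F B) = ev x (hyb F B) :=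
        hind _ _ (fun i hi _ => Function.update_of_ne hi _ _)
      rw [Function.update_of_ne hne, e1, Function.update_idem, Function.update_eq_iff]
      refine ⟨?_, fun _ _ => rfl⟩
      have e2 := Ring.inverse_mul_cancel _ hx.2
      linear_combination (-Ring.inverse (x za)) * hx.1 + x sa * e2
  have h3 : GS G (insert (X za) ({hyb F (insert a B)} : Set (MvPolynomial (σ ⊕ (T ⊕ T)) ℤ))) :=
    hG.gs_closed h h2
  have h4 : GS G (insert (X za) ({hyb F B} : Set (MvPolynomial (σ ⊕ (T ⊕ T)) ℤ))) := by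
    refine (hG.gs_congr fun A _ x => ?_).mp h3
    rw [Pt.insert_iff, Pt.insert_iff, Pt.one_iff, Pt.one_iff, hins, ev_X]
    refine and_congr_right fun h => ?_
    rw [h, mul_zero, add_zero]
  refine (hG.gs_free za fun A _ x y hxy hx => ?_).mpr h4
  rw [Pt.one_iff] at hx ⊢
  rw [hind x y fun i _ hi => hxy i hi]
  exact hx

lemma gs_hyb (h0 : GS G (∅ : Set (MvPolynomial Empty ℤ))) (F : MvPolynomial σ ℤ)
    (B : Finset T) (h : GS G {hyb F B}) : GS G {F} := by
  classical
  induction B using Finset.induction_on with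
  | empty =>
    rw [← hG.gs_emb (Sum.inl : σ → σ ⊕ (T ⊕ T)) Sum.inl_injective, Set.image_singleton]
    have : hyb F (∅ : Finset T) = rename Sum.inl F := by simp [hyb]
    rwa [this] at h
  | insert a B ha ih => exact ih (gs_hyb_step hG h0 F ha h)

omit hG [Finite σ] [Finite T] in
/-- evaluation of matrices -/
noncomputable def evm {A : Type} [CommRing A] (x : σ → A) (N : Matrix T T (MvPolynomial σ ℤ)) :
    Matrix T T A := N.map (ev x)

omit hG [Finite σ] [Finite T] in
/-- evaluation of vectors -/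
noncomputable def evv {A : Type} [CommRing A] (x : σ → A) (v : T → MvPolynomial σ ℤ) : T → A :=
  fun t => ev x (v t)

/-- **Removal of a unimodular block.** -/
theorem gs_block (h0 : GS G (∅ : Set (MvPolynomial Empty ℤ))) [Fintype T] [DecidableEq T]
    (F : MvPolynomial σ ℤ) (L R : T → MvPolynomial σ ℤ) (N K : Matrix T T (MvPolynomial σ ℤ))
    (hNK : N * K = 1) (q : MvPolynomial (σ ⊕ (T ⊕ T)) ℤ)
    (hq : ∀ (A : Type) [CommRing A] (x : σ ⊕ (T ⊕ T) → A), ev x q =
      ev (fun i => x (Sum.inl i)) F +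
      evv (fun i => x (Sum.inl i)) L ⬝ᵥ (fun t => x (Sum.inr (Sum.inr t))) +
      (fun t => x (Sum.inr (Sum.inl t))) ⬝ᵥ (evv (fun i => x (Sum.inl i)) R +
        evm (fun i => x (Sum.inl i)) N *ᵥ (fun t => x (Sum.inr (Sum.inr t)))))
    (h : GS G {q}) : GS G {F - L ⬝ᵥ (K *ᵥ R)} := by
  refine gs_hyb hG h0 (T := T) _ Finset.univ ?_
  have hNK' : ∀ {A : Type} [CommRing A] (x : σ → A), evm x N * evm x K = 1 := by
    intro A _ x
    unfold evm
    rw [← Matrix.map_mul, hNK, Matrix.map_one (ev x) (map_zero _) (map_one _)]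
  have hKN' : ∀ {A : Type} [CommRing A] (x : σ → A), evm x K * evm x N = 1 :=
    fun x => mul_eq_one_comm.mp (hNK' x)
  have hF : ∀ {A : Type} [CommRing A] (x : σ → A), ev x (F - L ⬝ᵥ (K *ᵥ R)) =
      ev x F - evv x L ⬝ᵥ (evm x K *ᵥ evv x R) := by
    intro A _ x
    rw [map_sub]
    congr 1
    simp only [dotProduct, Matrix.mulVec, map_sum, map_mul, evv, evm, Matrix.map_apply]
  have hmv : ∀ {A B : Type} [CommRing A] [CommRing B] (φ : A →+* B) (M : Matrix T T A)
      (v : T → A) (t : T), φ ((M *ᵥ v) t) = (M.map φ *ᵥ fun t => φ (v t)) t := by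
    intro A B _ _ φ M v t
    simp only [Matrix.mulVec, dotProduct, map_sum, map_mul, Matrix.map_apply]
  have hvm : ∀ {A B : Type} [CommRing A] [CommRing B] (φ : A →+* B) (M : Matrix T T A)
      (v : T → A) (t : T), φ ((v ᵥ* M) t) = ((fun t => φ (v t)) ᵥ* M.map φ) t := by
    intro A B _ _ φ M v t
    simp only [Matrix.vecMul, dotProduct, map_sum, map_mul, Matrix.map_apply]
  have hevm : ∀ {A B : Type} [CommRing A] [CommRing B] (φ : A →+* B) (x : σ → A)
      (M : Matrix T T (MvPolynomial σ ℤ)), (evm x M).map φ = evm (fun i => φ (x i)) M := by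
    intro A B _ _ φ x M
    ext s t
    exact ev_map φ _ _
  have hevv : ∀ {A B : Type} [CommRing A] [CommRing B] (φ : A →+* B) (x : σ → A)
      (v : T → MvPolynomial σ ℤ), (fun t => φ (evv x v t)) = evv (fun i => φ (x i)) v := by
    intro A B _ _ φ x v
    funext t
    exact ev_map φ _ _
  refine (hG.gs_iso
    (fun A _ x => Sum.elim (fun i => x (Sum.inl i))
      (Sum.elim (fun t => x (Sum.inr (Sum.inl t)) +
          (evv (fun i => x (Sum.inl i)) L ᵥ* evm (fun i => x (Sum.inl i)) K) t)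
        (fun t => (evv (fun i => x (Sum.inl i)) R + evm (fun i => x (Sum.inl i)) N *ᵥ
          (fun t => x (Sum.inr (Sum.inr t)))) t)))
    (fun A _ y => Sum.elim (fun i => y (Sum.inl i))
      (Sum.elim (fun t => y (Sum.inr (Sum.inl t)) -
          (evv (fun i => y (Sum.inl i)) L ᵥ* evm (fun i => y (Sum.inl i)) K) t)
        (fun t => (evm (fun i => y (Sum.inl i)) K *ᵥ
          ((fun t => y (Sum.inr (Sum.inr t))) - evv (fun i => y (Sum.inl i)) R)) t)))
    ?_ ?_ ?_ ?_ ?_ ?_).mp h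
  · intro A B _ _ φ x _ j
    rcases j with j | j | j
    · rfl
    · show φ (_ + _) = _ + _
      rw [map_add, hvm, hevm, hevv]
    · show φ (_ + _) = _ + _
      rw [map_add, hmv, hevm]
      simp only [evv, ev_map]
  · intro A B _ _ φ y _ j
    rcases j with j | j | j
    · rfl
    · show φ (_ - _) = _ - _
      rw [map_sub, hvm, hevm, hevv]
    · show φ ((evm (fun i => y (Sum.inl i)) K *ᵥ
          ((fun t => y (Sum.inr (Sum.inr t))) - evv (fun i => y (Sum.inl i)) R)) j) = _
      rw [hmv, hevm]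
      simp only [Pi.sub_apply, map_sub, evv, ev_map]
      rfl
  · intro A _ x hx
    rw [Pt.one_iff, hq] at hx
    rw [Pt.one_iff, ev_hyb, hF]
    exact (blk_alg (ev (fun i => x (Sum.inl i)) F) (evv (fun i => x (Sum.inl i)) L)
      (evv (fun i => x (Sum.inl i)) R) (fun t => x (Sum.inr (Sum.inl t)))
      (fun t => x (Sum.inr (Sum.inr t))) _ _ (hKN' fun i => x (Sum.inl i))).trans hx
  · intro A _ y hy
    rw [Pt.one_iff, ev_hyb, hF] at hy
    rw [Pt.one_iff, hq]
    exact (blk_alg' (ev (fun i => y (Sum.inl i)) F) (evv (fun i => y (Sum.inl i)) L)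
      (evv (fun i => y (Sum.inl i)) R) (fun t => y (Sum.inr (Sum.inl t)))
      (fun t => y (Sum.inr (Sum.inr t))) _ _ (hNK' fun i => y (Sum.inl i))).trans hy
  · intro A _ x _
    funext i
    rcases i with i | i | i
    · rfl
    · show x (Sum.inr (Sum.inl i)) + _ - _ = x (Sum.inr (Sum.inl i))
      exact add_sub_cancel_right _ _
    · show (evm (fun i => x (Sum.inl i)) K *ᵥ ((evv (fun i => x (Sum.inl i)) R +
        evm (fun i => x (Sum.inl i)) N *ᵥ (fun t => x (Sum.inr (Sum.inr t)))) -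
        evv (fun i => x (Sum.inl i)) R)) i = _
      rw [add_sub_cancel_left, Matrix.mulVec_mulVec, hKN', Matrix.one_mulVec]
  · intro A _ y _
    funext i
    rcases i with i | i | i
    · rfl
    · show y (Sum.inr (Sum.inl i)) - _ + _ = y (Sum.inr (Sum.inl i))
      exact sub_add_cancel _ _
    · show (evv (fun i => y (Sum.inl i)) R + evm (fun i => y (Sum.inl i)) N *ᵥ
        (evm (fun i => y (Sum.inl i)) K *ᵥ
          ((fun t => y (Sum.inr (Sum.inr t))) - evv (fun i => y (Sum.inl i)) R))) i = _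
      rw [Matrix.mulVec_mulVec, hNK', Matrix.one_mulVec, add_sub_cancel]

end block

end Pool.Agent.Helper81.HG
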