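import Pool.Agent.Helper81.HG.Cls

/-!
# Each scheme of finite type has fibres of bounded dimension
-/

set_option autoImplicit false

open AlgebraicGeometry CategoryTheory TopologicalSpace MvPolynomial
open Pool.Agent.Helper81.CP
open Pool.Agent.Helper81.HI (td td_residue exists_frac)

namespace Pool.Agent.Helper81.HG

/-- a field generated by `k` elements has transcendence degree at most `k` -/
lemma td_le_of_gen {κ : Type} [Field κ] {k : ℕ} (θ : MvPolynomial (Fin k) ℤ →+* κ)
    (hθ : ∀ x : κ, ∃ a b, θ b ≠ 0 ∧ x * θ b = θ a) : td κ ≤ k := by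
  let z : Fin k → κ := fun i => θ (X i)
  have hev : ∀ f, θ f = aeval z f := by
    intro f
    have h3 : θ = ((aeval z : MvPolynomial (Fin k) ℤ →ₐ[ℤ] κ) :
        MvPolynomial (Fin k) ℤ →+* κ) := by
      refine ringHom_ext' (RingHom.ext_int _ _) fun i => ?_
      simp [z]
    exact congrArg (fun ψ : MvPolynomial (Fin k) ℤ →+* κ => ψ f) h3
  have htower : @IsScalarTower ℤ (⊥ : Subfield κ) κ
      Algebra.toSMul Algebra.toSMul Algebra.toSMul :=
    IsScalarTower.of_algebraMap_eq' (RingHom.ext_int _ _)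
  have hmap : ∀ f, θ f = aeval z (map (algebraMap ℤ (⊥ : Subfield κ)) f) := by
    intro f
    rw [hev, aeval_map_algebraMap]
  have hmem : ∀ f, θ f ∈ Algebra.adjoin (⊥ : Subfield κ) (Set.range z) := by
    intro f
    rw [hmap, Algebra.adjoin_range_eq_range_aeval]
    exact ⟨_, rfl⟩
  have halg : Algebra.IsAlgebraic (Algebra.adjoin (⊥ : Subfield κ) (Set.range z)) κ := by
    refine ⟨fun x => ?_⟩
    obtain ⟨a, b, hb, hx⟩ := hθ x
    refine ⟨Polynomial.C ⟨θ b, hmem b⟩ * Polynomial.X - Polynomial.C ⟨θ a, hmem a⟩, ?_, ?_⟩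
    · intro h0
      have h1 := congrArg (fun p => Polynomial.coeff p 1) h0
      simp only [Polynomial.coeff_sub, Polynomial.coeff_C_mul, Polynomial.coeff_X_one, mul_one,
        Polynomial.coeff_C_succ, sub_zero, Polynomial.coeff_zero] at h1
      exact hb (congrArg Subtype.val h1)
    · rw [map_sub, map_mul, Polynomial.aeval_X, Polynomial.aeval_C, Polynomial.aeval_C]
      show θ b * x - θ a = 0
      rw [← hx]; ring
  refine (Algebra.IsAlgebraic.trdeg_le_cardinalMk (⊥ : Subfield κ) (Set.range z)).trans ?_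
  refine Cardinal.mk_range_le.trans ?_
  simp

lemma td_res_le {R : Type} [CommRing R] (hR : FT R) :
    ∃ k : ℕ, ∀ (q : Ideal R) [q.IsPrime], td q.ResidueField < k := by
  obtain ⟨k, φ, hφ⟩ := hR
  refine ⟨k + 1, fun q _ => ?_⟩
  refine lt_of_le_of_lt (td_le_of_gen ((algebraMap R q.ResidueField).comp φ) fun x => ?_)
    (by exact_mod_cast Nat.lt_succ_self k)
  obtain ⟨a, b, hb, hx⟩ := exists_frac q x
  obtain ⟨a, rfl⟩ := hφ a
  obtain ⟨b, rfl⟩ := hφ b
  exact ⟨a, b, hb, hx⟩

theorem exists_fibreDim (m : ℕ) (X : Scheme.{0})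
    (h : ∃ f : X ⟶ Spec (CommRingCat.of (ZMod m)), LocallyOfFiniteType f ∧ QuasiCompact f) :
    ∃ n, X ∈ FibreDimLT m n := by
  have hX : IsFT X := isFT_of_zmod h
  have hN := hX.isNoetherian
  have hc : CompactSpace X := inferInstance
  have key : ∃ n : ℕ, ∀ x ∈ (Set.univ : Set X), td (X.residueField x) < n := by
    refine isCompact_univ.induction_on (p := fun S : Set X =>
      ∃ n : ℕ, ∀ x ∈ S, td (X.residueField x) < n) ?_ ?_ ?_ ?_
    · exact ⟨0, fun x hx => absurd hx (Set.notMem_empty x)⟩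
    · rintro s t hst ⟨n, hn⟩
      exact ⟨n, fun x hx => hn x (hst hx)⟩
    · rintro s t ⟨n, hn⟩ ⟨k, hk⟩
      refine ⟨n + k, fun x hx => ?_⟩
      rcases hx with hx | hx
      · exact lt_of_lt_of_le (hn x hx) (by exact_mod_cast Nat.le_add_right n k)
      · exact lt_of_lt_of_le (hk x hx) (by exact_mod_cast Nat.le_add_left k n)
    · intro x _
      obtain ⟨A, j, hj, hx, _⟩ :=
        Scheme.exists_affine_mem_range_and_range_subset (TopologicalSpace.Opens.mem_top x)
      obtain ⟨k, hk⟩ := td_res_le (hX.of_isOpenImmersion j hj).ft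
      refine ⟨Set.range j, mem_nhdsWithin_of_mem_nhds
        (j.isOpenEmbedding.isOpen_range.mem_nhds hx), k, ?_⟩
      rintro _ ⟨y, rfl⟩
      have hy : y.asIdeal.IsPrime := y.isPrime
      rw [td_residue j y]
      exact hk _
  obtain ⟨n, hn⟩ := key
  exact ⟨n, h, fun x => hn x (Set.mem_univ x)⟩

end Pool.Agent.Helper81.HG
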