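import Pool.Agent.Helper81.HG.Quad

/-!
# Parallel vectors in the plane
-/

set_option autoImplicit false

open MvPolynomial
open Pool.Agent.Helper81.CP

namespace Pool.Agent.Helper81.HG

variable {G : ∀ (R : Type) [CommRing R], Prop}

/-! ### Coordinate subspaces -/

section coord

variable {σ : Type} [Finite σ] (hG : RG G) (h0 : GS G (∅ : Set (MvPolynomial Empty ℤ)))

include hG h0

lemma gs_coord (S : Set σ) : GS G ((fun i => (X i : MvPolynomial σ ℤ)) '' S) := by
  induction S, S.toFinite using Set.Finite.induction_on with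
  | empty => rw [Set.image_empty]; exact gs_affine_of_base hG h0 σ
  | @insert a S ha _ ih =>
    rw [Set.image_insert_eq]
    refine (hG.gs_free a fun A _ x y hxy hx => ?_).mp ih
    rintro _ ⟨i, hi, rfl⟩
    have h1 := hx _ ⟨i, hi, rfl⟩
    rw [ev_X] at h1 ⊢
    rw [hxy i (fun h => ha (h ▸ hi)), h1]

lemma go_coord (U : Finset σ) : ∀ S : Set σ,
    GO G ((fun i => (X i : MvPolynomial σ ℤ)) '' S) (∏ i ∈ U, X i) := by
  classical
  induction U using Finset.induction_on with
  | empty =>
    intro S
    rw [Finset.prod_empty, hG.gl_one]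
    exact gs_coord hG h0 S
  | insert a U ha ih =>
    intro S
    rw [Finset.prod_insert ha, mul_comm]
    refine hG.gl_opn (X a) (ih S) ?_
    rw [← Set.image_insert_eq (f := fun i => (X i : MvPolynomial σ ℤ))]
    exact ih (insert a S)

end coord

/-! ### Parallel vectors -/

section cols

variable {V : Type}

/-- the equations of parallel vectors: for each pair `(v, w)` in `D` the vectors
`(x (v, 0), x (v, 1))` and `(x (w, 0), x (w, 1))` are parallel -/
noncomputable def cols (D : Set (V × V)) : Set (MvPolynomial (V × Fin 2) ℤ) :=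
  {f | ∃ d ∈ D, f = X (d.1, 0) * X (d.2, 1) - X (d.2, 0) * X (d.1, 1)}

lemma pt_cols {D : Set (V × V)} {A : Type} [CommRing A] {x : V × Fin 2 → A} :
    Pt (cols D) x ↔ ∀ v w, (v, w) ∈ D → x (v, 0) * x (w, 1) = x (w, 0) * x (v, 1) := by
  constructor
  · intro h v w hvw
    have h1 := h _ ⟨(v, w), hvw, rfl⟩
    rw [map_sub, map_mul, map_mul, ev_X, ev_X, ev_X, ev_X, sub_eq_zero] at h1
    exact h1
  · rintro h _ ⟨⟨v, w⟩, hvw, rfl⟩
    rw [map_sub, map_mul, map_mul, ev_X, ev_X, ev_X, ev_X, sub_eq_zero]
    exact h v w hvw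

/-- the three kinds of vectors `(a, b)` -/
def Knd (k : Fin 3) {A : Type} [CommRing A] (a b : A) : Prop :=
  (k = 0 → IsUnit a) ∧ (k ≠ 0 → a = 0) ∧ (k = 1 → IsUnit b) ∧ (k = 2 → b = 0)

variable [Finite V] (hG : RG G) (h0 : GS G (∅ : Set (MvPolynomial Empty ℤ)))

/-- slopes -/
noncomputable def slp {A : Type} [CommRing A] (x : V × Fin 2 → A) (v : V) : A :=
  x (v, 1) * Ring.inverse (x (v, 0))

/-- two vertices of kind `0` joined by an edge -/
def Rl (D : Set (V × V)) (t : V → Fin 3) (v w : V) : Prop := (v, w) ∈ D ∧ t v = 0 ∧ t w = 0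

omit [Finite V] in
lemma slp_eq {D : Set (V × V)} {t : V → Fin 3} {A : Type} [CommRing A] {x : V × Fin 2 → A}
    (hx : Pt (cols D) x) (hk : ∀ v, Knd (t v) (x (v, 0)) (x (v, 1))) {v w : V}
    (h : Rl D t v w) : slp x v = slp x w := by
  obtain ⟨a, ha⟩ := (hk v).1 h.2.1
  obtain ⟨b, hb⟩ := (hk w).1 h.2.2
  have h1 := pt_cols.mp hx v w h.1
  unfold slp
  rw [← ha, ← hb] at h1 ⊢
  rw [Ring.inverse_unit, Ring.inverse_unit, Units.eq_mul_inv_iff_mul_eq, mul_assoc,
    mul_comm _ (b : A), ← mul_assoc, Units.mul_inv_eq_iff_eq_mul, mul_comm, ← h1, mul_comm]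

omit [Finite V] in
lemma slp_out {D : Set (V × V)} {t : V → Fin 3} {A : Type} [CommRing A] {x : V × Fin 2 → A}
    (hx : Pt (cols D) x) (hk : ∀ v, Knd (t v) (x (v, 0)) (x (v, 1))) (v : V) :
    slp x (Quot.mk (Rl D t) v).out = slp x v := by
  let φ : Quot (Rl D t) → A := Quot.lift (slp x) fun v w h => slp_eq hx hk h
  show φ (Quot.mk _ (Quot.mk (Rl D t) v).out) = φ (Quot.mk _ v)
  rw [Quot.out_eq]

omit [Finite V] in
lemma knd_out {D : Set (V × V)} {t : V → Fin 3} (v : V) :
    t (Quot.mk (Rl D t) v).out = 0 ↔ t v = 0 := by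
  let φ : Quot (Rl D t) → Prop := Quot.lift (fun v => t v = 0) fun v w h => by
    rw [h.2.1, h.2.2]
  have h1 : φ (Quot.mk _ (Quot.mk (Rl D t) v).out) = φ (Quot.mk _ v) := by rw [Quot.out_eq]
  exact iff_of_eq h1

include hG h0

/-- the stratum of a function `t` from the vertices to the kinds -/
lemma go_stratum (D : Set (V × V)) (t : V → Fin 3) (E : Set (MvPolynomial (V × Fin 2) ℤ))
    (p : MvPolynomial (V × Fin 2) ℤ)
    (h : ∀ (A : Type) [CommRing A] (x : V × Fin 2 → A), Lc E p x ↔
      Pt (cols D) x ∧ ∀ v, Knd (t v) (x (v, 0)) (x (v, 1))) : GO G E p := by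
  classical
  have := Fintype.ofFinite V
  by_cases hD : ∃ v w, (v, w) ∈ D ∧ ((t v = 0 ∧ t w = 1) ∨ (t v = 1 ∧ t w = 0))
  · obtain ⟨v, w, hvw, hc⟩ := hD
    refine hG.triv _ (subsingleton_rng fun A _ x hx => ?_)
    rw [Pt.dop_iff_lc, h] at hx
    have h1 := pt_cols.mp hx.1.1 v w hvw
    have hv := hx.1.2 v
    have hw := hx.1.2 w
    rcases hc with ⟨e1, e2⟩ | ⟨e1, e2⟩
    · rw [e1] at hv; rw [e2] at hw
      rw [hw.2.1 (by decide), zero_mul] at h1
      have h2 := (hv.1 rfl).mul (hw.2.2.1 rfl)
      rw [h1] at h2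
      exact (isUnit_zero_iff.mp h2).symm
    · rw [e1] at hv; rw [e2] at hw
      rw [hv.2.1 (by decide), zero_mul] at h1
      have h2 := (hw.1 rfl).mul (hv.2.2.1 rfl)
      rw [← h1] at h2
      exact (isUnit_zero_iff.mp h2).symm
  push Not at hD
  let τ : Type := V ⊕ Quot (Rl D t)
  let S : Set τ := {o | Sum.elim (fun v => t v = 2) (fun c => t c.out ≠ 0) o}
  let U : Finset τ := (Finset.univ.filter fun v : V => t v ≠ 2).image Sum.inl
  have hτ : ∀ {A : Type} [CommRing A] (y : τ → A),
      Lc ((fun i => (X i : MvPolynomial τ ℤ)) '' S) (∏ i ∈ U, X i) y ↔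
      (∀ v, t v = 2 → y (Sum.inl v) = 0) ∧ (∀ c : Quot (Rl D t), t c.out ≠ 0 →
        y (Sum.inr c) = 0) ∧ ∀ v, t v ≠ 2 → IsUnit (y (Sum.inl v)) := by
    intro A _ y
    unfold Lc
    constructor
    · rintro ⟨h1, h2⟩
      refine ⟨fun v hv => ?_, fun c hc => ?_, fun v hv => ?_⟩
      · have := h1 _ ⟨Sum.inl v, hv, rfl⟩
        rwa [ev_X] at this
      · have := h1 _ ⟨Sum.inr c, hc, rfl⟩
        rwa [ev_X] at this
      · rw [map_prod] at h2
        have h3 := isUnit_of_dvd_unit (Finset.dvd_prod_of_mem (fun i => ev y (X i))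
          (a := Sum.inl v) (Finset.mem_image_of_mem _ (by simp [hv]))) h2
        rwa [ev_X] at h3
    · rintro ⟨h1, h2, h3⟩
      refine ⟨?_, ?_⟩
      · rintro _ ⟨i, hi, rfl⟩
        rw [ev_X]
        rcases i with v | c
        · exact h1 v hi
        · exact h2 c hi
      · rw [map_prod]
        refine (Finset.univ.filter fun v : V => t v ≠ 2).image Sum.inl |>.prod_induction
          (fun i => ev y (X i)) IsUnit (fun a b ha hb => ha.mul hb) isUnit_one ?_
        intro i hi
        obtain ⟨v, hv, rfl⟩ := Finset.mem_image.mp hi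
        rw [ev_X]
        exact h3 v (Finset.mem_filter.mp hv).2
  refine (hG.gl_iso (E' := (fun i => (X i : MvPolynomial τ ℤ)) '' S) (p' := ∏ i ∈ U, X i)
    (fun A _ x => Sum.elim
      (fun v => if t v = 0 then x (v, 0) else if t v = 1 then x (v, 1) else 0)
      (fun c => if t c.out = 0 then slp x c.out else 0))
    (fun A _ y => fun q => if q.2 = 0 then (if t q.1 = 0 then y (Sum.inl q.1) else 0)
      else (if t q.1 = 0 then y (Sum.inl q.1) * y (Sum.inr (Quot.mk _ q.1))
        else if t q.1 = 1 then y (Sum.inl q.1) else 0))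
    ?_ ?_ ?_ ?_ ?_ ?_).mpr (go_coord hG h0 U S)
  · intro A B _ _ φ x hx o
    rw [h] at hx
    rcases o with v | c
    · simp only [Sum.elim_inl]
      split_ifs <;> simp
    · simp only [Sum.elim_inr]
      split_ifs with hc
      · unfold slp
        rw [map_mul, map_inv_of_unit φ ((hx.2 _).1 hc)]
      · exact map_zero φ
  · intro A B _ _ φ y _ q
    dsimp only
    split_ifs <;> simp
  · intro A _ x hx
    rw [h] at hx
    rw [hτ]
    refine ⟨fun v hv => ?_, fun c hc => ?_, fun v hv => ?_⟩
    · simp only [Sum.elim_inl, hv]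
      rw [if_neg (by decide), if_neg (by decide)]
    · simp only [Sum.elim_inr]
      rw [if_neg hc]
    · simp only [Sum.elim_inl]
      by_cases hv0 : t v = 0
      · rw [if_pos hv0]; exact (hx.2 v).1 hv0
      · have hv1 : t v = 1 := by
          generalize t v = k at *
          fin_cases k
          · exact absurd rfl hv0
          · rfl
          · exact absurd rfl hv
        rw [if_neg hv0, if_pos hv1]
        exact (hx.2 v).2.2.1 hv1
  · intro A _ y hy
    rw [hτ] at hy
    rw [h]
    refine ⟨pt_cols.mpr fun v w hvw => ?_, fun v => ⟨fun hv => ?_, fun hv => ?_, fun hv => ?_,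
      fun hv => ?_⟩⟩
    · simp only [if_true, one_ne_zero, if_false]
      by_cases hv : t v = 0 <;> by_cases hw : t w = 0
      · have h1 : Quot.mk (Rl D t) v = Quot.mk (Rl D t) w := Quot.sound ⟨hvw, hv, hw⟩
        rw [if_pos hv, if_pos hw, if_pos hv, if_pos hw, h1]
        ring
      · have hw1 : t w ≠ 1 := fun hw1 => by
          have := (hD v w hvw).1 hv
          exact this hw1
        rw [if_neg hw, if_neg hw1, if_neg hw]
        simp
      · have hv1 : t v ≠ 1 := fun hv1 => (hD v w hvw).2 hv1 hw
        rw [if_neg hv, if_neg hv1, if_neg hv]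
        simp
      · rw [if_neg hv, zero_mul, if_neg hw, zero_mul]
    · simp only [if_true, hv]
      exact hy.2.2 v (by rw [hv]; decide)
    · simp only [if_true]
      rw [if_neg hv]
    · simp only [one_ne_zero, if_false]
      rw [if_neg (by rw [hv]; decide), if_pos hv]
      exact hy.2.2 v (by rw [hv]; decide)
    · simp only [one_ne_zero, if_false]
      rw [if_neg (by rw [hv]; decide), if_neg (by rw [hv]; decide)]
  · intro A _ x hx
    rw [h] at hx
    funext ⟨v, i⟩
    have hi : i = 0 ∨ i = 1 := by
      fin_cases i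
      · exact Or.inl rfl
      · exact Or.inr rfl
    rcases hi with rfl | rfl
    · simp only [if_true, Sum.elim_inl]
      by_cases hv : t v = 0
      · rw [if_pos hv, if_pos hv]
      · rw [if_neg hv]
        exact ((hx.2 v).2.1 hv).symm
    · simp only [one_ne_zero, if_false, Sum.elim_inl, Sum.elim_inr]
      by_cases hv : t v = 0
      · rw [if_pos hv, if_pos hv, if_pos (knd_out v |>.mpr hv), slp_out hx.1 hx.2]
        obtain ⟨a, ha⟩ := (hx.2 v).1 hv
        unfold slp
        rw [← ha, Ring.inverse_unit]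
        rw [mul_comm, mul_assoc, Units.inv_mul, mul_one]
      · rw [if_neg hv, if_neg hv]
        by_cases hv1 : t v = 1
        · rw [if_pos hv1, if_pos hv1]
        · rw [if_neg hv1]
          have hv2 : t v = 2 := by
            generalize t v = k at *
            fin_cases k
            · exact absurd rfl hv
            · exact absurd rfl hv1
            · rfl
          exact ((hx.2 v).2.2.2 hv2).symm
  · intro A _ y hy
    rw [hτ] at hy
    funext o
    rcases o with v | c
    · simp only [Sum.elim_inl, if_true, one_ne_zero, if_false]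
      by_cases hv : t v = 0
      · rw [if_pos hv, if_pos hv]
      · rw [if_neg hv]
        by_cases hv1 : t v = 1
        · rw [if_pos hv1, if_neg hv, if_pos hv1]
        · rw [if_neg hv1]
          have hv2 : t v = 2 := by
            generalize t v = k at *
            fin_cases k
            · exact absurd rfl hv
            · exact absurd rfl hv1
            · rfl
          exact (hy.1 v hv2).symm
    · simp only [Sum.elim_inr]
      by_cases hc : t c.out = 0
      · rw [if_pos hc]
        unfold slp
        simp only [if_true, one_ne_zero, if_false]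
        rw [if_pos hc, if_pos hc, Quot.out_eq]
        obtain ⟨a, ha⟩ := hy.2.2 c.out (by rw [hc]; decide)
        rw [← ha, Ring.inverse_unit, mul_comm, ← mul_assoc, Units.inv_mul, one_mul]
      · rw [if_neg hc]
        exact (hy.2.1 c hc).symm

/-- **Systems of parallel vectors in the plane are in the class.** -/
theorem gs_cols (D : Set (V × V)) : GS G (cols D) := by
  classical
  have := Fintype.ofFinite V
  have key : ∀ (u : Finset V) (t : V → Fin 3) (E : Set (MvPolynomial (V × Fin 2) ℤ))
      (p : MvPolynomial (V × Fin 2) ℤ),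
      (∀ (A : Type) [CommRing A] (x : V × Fin 2 → A), Lc E p x ↔
        Pt (cols D) x ∧ ∀ v, v ∉ u → Knd (t v) (x (v, 0)) (x (v, 1))) → GO G E p := by
    intro u
    induction u using Finset.induction_on with
    | empty =>
      intro t E p h
      refine go_stratum hG h0 D t E p fun A _ x => ?_
      rw [h A x]
      simp
    | insert a u ha ih =>
      intro t E p h
      have hk : ∀ (k : Fin 3) (A : Type) [CommRing A] (x : V × Fin 2 → A),
          ((Pt (cols D) x ∧ ∀ v, v ∉ insert a u → Knd (t v) (x (v, 0)) (x (v, 1))) ∧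
            Knd k (x (a, 0)) (x (a, 1))) ↔
          (Pt (cols D) x ∧ ∀ v, v ∉ u →
            Knd (Function.update t a k v) (x (v, 0)) (x (v, 1))) := by
        intro k A _ x
        constructor
        · rintro ⟨⟨h1, h2⟩, h3⟩
          refine ⟨h1, fun v hv => ?_⟩
          by_cases hva : v = a
          · subst hva
            rw [Function.update_self]
            exact h3
          · rw [Function.update_of_ne hva]
            exact h2 v (by simp [hva, hv])
        · rintro ⟨h1, h2⟩
          refine ⟨⟨h1, fun v hv => ?_⟩, ?_⟩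
          · rw [Finset.mem_insert, not_or] at hv
            have h3 := h2 v hv.2
            rwa [Function.update_of_ne hv.1] at h3
          · have h3 := h2 a ha
            rwa [Function.update_self] at h3
      refine hG.gl_glue (X (a, 0)) (hG.gl_glue (X (a, 1)) ?_ ?_) ?_
      · refine ih (Function.update t a 2) _ _ fun A _ x => ?_
        rw [← hk 2 A x, ← h A x]
        unfold Lc Knd
        rw [Pt.insert_iff, Pt.insert_iff, ev_X, ev_X]
        simp
        tauto
      · refine ih (Function.update t a 1) _ _ fun A _ x => ?_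
        rw [← hk 1 A x, ← h A x]
        unfold Lc Knd
        rw [Pt.insert_iff, map_mul, ev_X, ev_X, IsUnit.mul_iff]
        simp
        tauto
      · refine ih (Function.update t a 0) _ _ fun A _ x => ?_
        rw [← hk 0 A x, ← h A x]
        unfold Lc Knd
        rw [map_mul, ev_X, IsUnit.mul_iff]
        simp
        tauto
  have h1 := key Finset.univ (fun _ => 0) (cols D) 1 fun A _ x => by simp [Lc]
  rwa [hG.gl_one] at h1

end cols

end Pool.Agent.Helper81.HG
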