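import Pool.Agent.Helper81.HG.Det

/-!
# Realisations of integer polynomials: `p = a - r N⁻¹ c` with affine linear `a`, `r`, `c`, `N`
-/

set_option autoImplicit false

open MvPolynomial Matrix

namespace Pool.Agent.Helper81.HG

variable {n : ℕ}

/-- `p = a - r K c` with `N K = 1`, where `a`, `r`, `c` and `N` are affine linear -/
def Real (p : MvPolynomial (Fin n) ℤ) : Prop :=
  ∃ (T : Type) (_ : Fintype T) (_ : DecidableEq T) (a : MvPolynomial (Fin n) ℤ)
    (r c : T → MvPolynomial (Fin n) ℤ) (N K : Matrix T T (MvPolynomial (Fin n) ℤ)),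
    al a ∧ (∀ t, al (r t)) ∧ (∀ t, al (c t)) ∧ (∀ s t, al (N s t)) ∧ N * K = 1 ∧
      p = a - r ⬝ᵥ (K *ᵥ c)

lemma real_of_al {p : MvPolynomial (Fin n) ℤ} (hp : al p) : Real p := by
  refine ⟨Empty, inferInstance, inferInstance, p, Empty.elim, Empty.elim, 1, 1, hp,
    fun t => t.elim, fun t => t.elim, fun t => t.elim, mul_one 1, ?_⟩
  simp [dotProduct]

lemma real_add {p q : MvPolynomial (Fin n) ℤ} (hp : Real p) (hq : Real q) : Real (p + q) := by
  obtain ⟨T₁, _, _, a₁, r₁, c₁, N₁, K₁, ha₁, hr₁, hc₁, hN₁, hK₁, h₁⟩ := hp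
  obtain ⟨T₂, _, _, a₂, r₂, c₂, N₂, K₂, ha₂, hr₂, hc₂, hN₂, hK₂, h₂⟩ := hq
  refine ⟨T₁ ⊕ T₂, inferInstance, inferInstance, a₁ + a₂, Sum.elim r₁ r₂, Sum.elim c₁ c₂,
    fromBlocks N₁ 0 0 N₂, fromBlocks K₁ 0 0 K₂, al_add ha₁ ha₂, ?_, ?_, ?_, ?_, ?_⟩
  · rintro (t | t)
    · exact hr₁ t
    · exact hr₂ t
  · rintro (t | t)
    · exact hc₁ t
    · exact hc₂ t
  · rintro (s | s) (t | t)
    · exact hN₁ s t
    · exact al_zero
    · exact al_zero
    · exact hN₂ s t
  · rw [fromBlocks_multiply, hK₁, hK₂]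
    simp
  · rw [fromBlocks_mulVec, sumElim_dotProduct_sumElim, h₁, h₂]
    have e1 : (Sum.elim c₁ c₂) ∘ Sum.inl = c₁ := rfl
    have e2 : (Sum.elim c₁ c₂) ∘ Sum.inr = c₂ := rfl
    rw [e1, e2, zero_mulVec, zero_mulVec, add_zero, zero_add]
    ring

lemma real_mul_X {p : MvPolynomial (Fin n) ℤ} (hp : Real p) (k : Fin n) : Real (p * X k) := by
  obtain ⟨T, _, _, a, r, c, N, K, ha, hr, hc, hN, hK, h⟩ := hp
  let cc : Matrix T Unit (MvPolynomial (Fin n) ℤ) := Matrix.of fun t _ => c t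
  refine ⟨T ⊕ Unit, inferInstance, inferInstance, 0, Sum.elim r (fun _ => a),
    Sum.elim 0 (fun _ => - X k), fromBlocks N cc 0 1, fromBlocks K (-(K * cc)) 0 1,
    al_zero, ?_, ?_, ?_, ?_, ?_⟩
  · rintro (t | t)
    · exact hr t
    · exact ha
  · rintro (t | t)
    · exact al_zero
    · exact al_neg (al_X k)
  · rintro (s | s) (t | t)
    · exact hN s t
    · exact hc s
    · exact al_zero
    · exact al_one
  · rw [fromBlocks_multiply, hK]
    have e1 : N * -(K * cc) + cc * (1 : Matrix Unit Unit (MvPolynomial (Fin n) ℤ)) = 0 := by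
      rw [Matrix.mul_neg, ← Matrix.mul_assoc, hK, Matrix.one_mul, Matrix.mul_one,
        neg_add_cancel]
    rw [e1]
    simp only [Matrix.mul_zero, Matrix.zero_mul, Matrix.mul_one, add_zero, zero_add,
      fromBlocks_one]
  · rw [fromBlocks_mulVec, sumElim_dotProduct_sumElim, h]
    have e1 : (Sum.elim (0 : T → MvPolynomial (Fin n) ℤ) (fun _ : Unit => - X k)) ∘ Sum.inl = 0 :=
      rfl
    have e2 : (Sum.elim (0 : T → MvPolynomial (Fin n) ℤ) (fun _ : Unit => - X k)) ∘ Sum.inr =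
      fun _ => - X k := rfl
    rw [e1, e2, mulVec_zero, mulVec_zero, zero_add, zero_add, neg_mulVec, ← mulVec_mulVec]
    have e3 : cc *ᵥ (fun _ => - X k) = (- X k : MvPolynomial (Fin n) ℤ) • c := by
      funext t
      simp [mulVec, dotProduct, cc, mul_comm]
    have e4 : (1 : Matrix Unit Unit (MvPolynomial (Fin n) ℤ)) *ᵥ (fun _ => - X k) =
        fun _ => - X k := one_mulVec _
    rw [e3, e4, mulVec_smul, dotProduct_neg, dotProduct_smul]
    have e5 : (fun _ : Unit => a) ⬝ᵥ (fun _ : Unit => (- X k : MvPolynomial (Fin n) ℤ)) =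
        a * (- X k) := by
      simp [dotProduct]
    rw [e5, smul_eq_mul]
    ring

/-- every integer polynomial has a realisation -/
theorem real_all (p : MvPolynomial (Fin n) ℤ) : Real p := by
  induction p using MvPolynomial.induction_on with
  | C a => exact real_of_al (al_C a)
  | add p q hp hq => exact real_add hp hq
  | mul_X p k hp => exact real_mul_X hp k

end Pool.Agent.Helper81.HG
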