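import Pool.Agent.Helper81.HG.Blk
import Pool.Agent.Helper81.HG.Real
import Pool.Agent.Helper81.HI.Alt

/-!
# Alternating forms control hypersurfaces
-/

set_option autoImplicit false

open MvPolynomial
open scoped Matrix
open Pool.Agent.Helper81.CP Pool.Agent.Helper81.HI

namespace Pool.Agent.Helper81.HG

variable {G : ∀ (R : Type) [CommRing R], Prop} {n : ℕ}

/-- affine linear functions -/
def aff (c : Fin (n + 1) → ℤ) {A : Type} [CommRing A] (ξ : Fin n → A) : A :=
  (c 0 : A) + ∑ l : Fin n, ξ l * (c l.succ : A)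

lemma ev_al (c : Fin (n + 1) → ℤ) {A : Type} [CommRing A] (ξ : Fin n → A) :
    ev ξ (C (c 0) + ∑ l : Fin n, X l * C (c l.succ)) = aff c ξ := by
  simp only [map_add, map_sum, map_mul, ev_X, ev_C, aff]

lemma aff_zero {A : Type} [CommRing A] (ξ : Fin n → A) : aff (fun _ => 0) ξ = 0 := by
  simp [aff]

lemma aff_neg (c : Fin (n + 1) → ℤ) {A : Type} [CommRing A] (ξ : Fin n → A) :
    aff (fun l => - c l) ξ = - aff c ξ := by
  simp only [aff, Int.cast_neg, mul_neg, Finset.sum_neg_distrib]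
  ring

lemma aff_sum {ι : Type} [Fintype ι] (c : Fin (n + 1) → ι → ℤ) {A : Type} [CommRing A]
    (ξ : Fin n → A) (w : ι → A) :
    ∑ i, (c 0 i : A) * w i + ∑ l : Fin n, ξ l * ∑ i, (c l.succ i : A) * w i =
      ∑ i, aff (fun l => c l i) ξ * w i := by
  simp only [Finset.mul_sum]
  rw [Finset.sum_comm, ← Finset.sum_add_distrib]
  refine Finset.sum_congr rfl fun i _ => ?_
  unfold aff
  rw [add_mul, Finset.sum_mul]
  congr 1
  exact Finset.sum_congr rfl fun l _ => by ring

lemma ev_sli_bilp {I J : Type} [Fintype I] [Fintype J] (M : Fin (n + 1) → I → J → ℤ)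
    {A : Type} [CommRing A] (x : (I ⊕ J) ⊕ Fin n → A) : ev x (sli (bilp M)) =
      ∑ i, ∑ j, aff (fun l => M l i j) (fun l => x (Sum.inr l)) *
        (x (Sum.inl (Sum.inl i)) * x (Sum.inl (Sum.inr j))) := by
  rw [ev_sli]
  simp only [ev_bilp]
  simp only [← Fintype.sum_prod_type']
  exact aff_sum (fun l (p : I × J) => M l p.1 p.2) (fun l => x (Sum.inr l))
    (fun p : I × J => x (Sum.inl (Sum.inl p.1)) * x (Sum.inl (Sum.inr p.2)))

/-- the entries of `(a, r; c, N)` -/
def mat {T : Type} (a : Fin (n + 1) → ℤ) (r c : T → Fin (n + 1) → ℤ)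
    (N : T → T → Fin (n + 1) → ℤ) (l : Fin (n + 1)) : Unit ⊕ T → Unit ⊕ T → ℤ
  | Sum.inl _, Sum.inl _ => a l
  | Sum.inl _, Sum.inr t => r t l
  | Sum.inr s, Sum.inl _ => c s l
  | Sum.inr s, Sum.inr t => N s t l

lemma ev_sli_alt {I J : Type} [Fintype I] [Fintype J] (M : Fin (n + 1) → I → J → ℤ)
    {A : Type} [CommRing A] (x : ((I ⊕ J) ⊕ (I ⊕ J)) ⊕ Fin n → A) :
    ev x (sli (bilp (alt M))) = ∑ i, ∑ j, aff (fun l => M l i j) (fun l => x (Sum.inr l)) *
      (x (Sum.inl (Sum.inl (Sum.inl i))) * x (Sum.inl (Sum.inr (Sum.inr j))) -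
        x (Sum.inl (Sum.inr (Sum.inl i))) * x (Sum.inl (Sum.inl (Sum.inr j)))) := by
  rw [ev_sli_bilp, Fintype.sum_sum_type]
  simp only [Fintype.sum_sum_type]
  have h1 : ∀ (i i' : I), aff (fun l => alt M l (Sum.inl i) (Sum.inl i'))
      (fun l => x (Sum.inr l)) = 0 := fun i i' => aff_zero _
  have h2 : ∀ (j j' : J), aff (fun l => alt M l (Sum.inr j) (Sum.inr j'))
      (fun l => x (Sum.inr l)) = 0 := fun j j' => aff_zero _
  have h3 : ∀ (i : I) (j : J), aff (fun l => alt M l (Sum.inl i) (Sum.inr j))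
      (fun l => x (Sum.inr l)) = aff (fun l => M l i j) (fun l => x (Sum.inr l)) :=
    fun i j => rfl
  have h4 : ∀ (i : I) (j : J), aff (fun l => alt M l (Sum.inr j) (Sum.inl i))
      (fun l => x (Sum.inr l)) = - aff (fun l => M l i j) (fun l => x (Sum.inr l)) :=
    fun i j => aff_neg _ _
  simp only [h1, h2, h3, h4, zero_mul, Finset.sum_const_zero, zero_add, add_zero]
  rw [Finset.sum_comm (γ := J), ← Finset.sum_add_distrib]
  refine Finset.sum_congr rfl fun i _ => ?_
  rw [← Finset.sum_add_distrib]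
  refine Finset.sum_congr rfl fun j _ => ?_
  ring

lemma alt_alg {A T : Type} [CommRing A] [Fintype T] (av x0 x1 x2 x3 : A)
    (rv cv y1 z1 y2 z2 : T → A) (Nv : T → T → A) :
    av * (x0 * x3 - x1 * x2) + ∑ t, rv t * (x0 * z2 t - x1 * y2 t) +
      ∑ s, (cv s * (y1 s * x3 - z1 s * x2) + ∑ t, Nv s t * (y1 s * z2 t - z1 s * y2 t)) =
    av * (x0 * x3 - x1 * x2) + (∑ t, x0 * rv t * z2 t + ∑ t, -(x1 * rv t) * y2 t) +
      (∑ s, y1 s * (x3 * cv s + ∑ t, Nv s t * z2 t) +
        ∑ s, z1 s * (-(x2 * cv s) + -∑ t, Nv s t * y2 t)) := by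
  have h1 : ∑ t, rv t * (x0 * z2 t - x1 * y2 t) =
      ∑ t, x0 * rv t * z2 t + ∑ t, -(x1 * rv t) * y2 t := by
    rw [← Finset.sum_add_distrib]
    exact Finset.sum_congr rfl fun t _ => by ring
  have h2 : ∑ s, (cv s * (y1 s * x3 - z1 s * x2) + ∑ t, Nv s t * (y1 s * z2 t - z1 s * y2 t)) =
      ∑ s, y1 s * (x3 * cv s + ∑ t, Nv s t * z2 t) +
        ∑ s, z1 s * (-(x2 * cv s) + -∑ t, Nv s t * y2 t) := by
    rw [← Finset.sum_add_distrib]
    refine Finset.sum_congr rfl fun s _ => ?_
    have h3 : ∑ t, Nv s t * (y1 s * z2 t - z1 s * y2 t) =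
        y1 s * ∑ t, Nv s t * z2 t - z1 s * ∑ t, Nv s t * y2 t := by
      rw [Finset.mul_sum, Finset.mul_sum, ← Finset.sum_sub_distrib]
      exact Finset.sum_congr rfl fun t _ => by ring
    rw [h3]; ring
  rw [h1, h2]

section

variable (hG : RG G)

include hG

lemma bs_reindex {I J I' J' : Type} [Fintype I] [Fintype J] [Fintype I'] [Fintype J']
    {m : ℕ} (e : I ≃ I') (e' : J ≃ J') (M : Fin m → I' → J' → ℤ) :
    GS G (BS M) ↔ GS G (BS fun l i j => M l (e i) (e' j)) := by
  have key : ∀ {A : Type} [CommRing A] (l : Fin m) (z : I' → A) (y : J' → A),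
      ∑ i, ∑ j, (M l i j : A) * (z i * y j) =
      ∑ i, ∑ j, (M l (e i) (e' j) : A) * (z (e i) * y (e' j)) := by
    intro A _ l z y
    rw [← Equiv.sum_comp e]
    refine Finset.sum_congr rfl fun i _ => ?_
    rw [← Equiv.sum_comp e']
  refine hG.gs_iso
    (fun A _ x => Sum.elim (fun i => x (Sum.inl (e i))) (fun j => x (Sum.inr (e' j))))
    (fun A _ x => Sum.elim (fun i => x (Sum.inl (e.symm i))) (fun j => x (Sum.inr (e'.symm j))))
    ?_ ?_ ?_ ?_ ?_ ?_
  · intro A B _ _ φ x _ j
    rcases j with j | j <;> rfl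
  · intro A B _ _ φ x _ j
    rcases j with j | j <;> rfl
  · intro A _ x hx
    rw [Pt.bs_iff] at hx ⊢
    intro l
    exact (key l (fun i => x (Sum.inl i)) (fun j => x (Sum.inr j))).symm.trans (hx l)
  · intro A _ x hx
    rw [Pt.bs_iff] at hx ⊢
    intro l
    refine (key l (fun i => x (Sum.inl (e.symm i))) (fun j => x (Sum.inr (e'.symm j)))).trans ?_
    simpa using hx l
  · intro A _ x _
    funext i
    rcases i with i | i <;> simp
  · intro A _ x _
    funext i
    rcases i with i | i <;> simp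

omit hG in
/-- the variables of the alternating form -/
def kalt {T : Type} : ((((Unit ⊕ T) ⊕ (Unit ⊕ T)) ⊕ ((Unit ⊕ T) ⊕ (Unit ⊕ T))) ⊕ Fin n) →
    (Fin n ⊕ Fin 4) ⊕ ((T ⊕ T) ⊕ (T ⊕ T))
  | Sum.inl (Sum.inl (Sum.inl (Sum.inl _))) => Sum.inl (Sum.inr 0)
  | Sum.inl (Sum.inl (Sum.inl (Sum.inr t))) => Sum.inr (Sum.inl (Sum.inl t))
  | Sum.inl (Sum.inl (Sum.inr (Sum.inl _))) => Sum.inl (Sum.inr 2)
  | Sum.inl (Sum.inl (Sum.inr (Sum.inr t))) => Sum.inr (Sum.inr (Sum.inr t))
  | Sum.inl (Sum.inr (Sum.inl (Sum.inl _))) => Sum.inl (Sum.inr 1)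
  | Sum.inl (Sum.inr (Sum.inl (Sum.inr t))) => Sum.inr (Sum.inl (Sum.inr t))
  | Sum.inl (Sum.inr (Sum.inr (Sum.inl _))) => Sum.inl (Sum.inr 3)
  | Sum.inl (Sum.inr (Sum.inr (Sum.inr t))) => Sum.inr (Sum.inr (Sum.inl t))
  | Sum.inr l => Sum.inl (Sum.inl l)

omit hG in
/-- its inverse -/
def kalt' {T : Type} : (Fin n ⊕ Fin 4) ⊕ ((T ⊕ T) ⊕ (T ⊕ T)) →
    ((((Unit ⊕ T) ⊕ (Unit ⊕ T)) ⊕ ((Unit ⊕ T) ⊕ (Unit ⊕ T))) ⊕ Fin n)
  | Sum.inl (Sum.inr i) => Sum.inl (![Sum.inl (Sum.inl (Sum.inl ())),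
      Sum.inr (Sum.inl (Sum.inl ())), Sum.inl (Sum.inr (Sum.inl ())),
      Sum.inr (Sum.inr (Sum.inl ()))] i)
  | Sum.inr (Sum.inl (Sum.inl t)) => Sum.inl (Sum.inl (Sum.inl (Sum.inr t)))
  | Sum.inr (Sum.inr (Sum.inr t)) => Sum.inl (Sum.inl (Sum.inr (Sum.inr t)))
  | Sum.inr (Sum.inl (Sum.inr t)) => Sum.inl (Sum.inr (Sum.inl (Sum.inr t)))
  | Sum.inr (Sum.inr (Sum.inl t)) => Sum.inl (Sum.inr (Sum.inr (Sum.inr t)))
  | Sum.inl (Sum.inl l) => Sum.inr l

omit hG in
lemma kalt_inj {T : Type} : Function.Injective (kalt (n := n) (T := T)) := by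
  refine Function.LeftInverse.injective (g := kalt') ?_
  rintro (((((_ | t) | (_ | t)) | ((_ | t) | (_ | t)))) | l) <;> rfl

/-- **Systems of `n + 1` alternating bilinear equations control hypersurfaces in `A^n`.** -/
theorem hypG_of_alt (h : ∀ (a : ℕ) (A : Fin (n + 1) → Fin a → Fin a → ℤ),
    (∀ l i j, A l i j = - A l j i) → GS G (BS A)) : HypG G n := by
  classical
  have h0 : GS G (∅ : Set (MvPolynomial Empty ℤ)) := by
    have h1 := h 0 (fun _ _ _ => 0) (fun _ _ _ => by simp)
    have h2 : GS G (∅ : Set (MvPolynomial (Fin 0 ⊕ Fin 0) ℤ)) := by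
      refine (hG.gs_congr fun A _ x => ?_).mp h1
      rw [Pt.bs_iff]
      simp [Pt]
    rw [← hG.gs_emb (Empty.elim : Empty → Fin 0 ⊕ Fin 0) (fun x => x.elim), Set.image_empty]
    exact h2
  have hJ : ∀ (J : Type) [Fintype J] (A : Fin (n + 1) → J → J → ℤ),
      (∀ l i j, A l i j = - A l j i) → GS G (BS A) := by
    intro J _ A hA
    let e : J ≃ Fin (Fintype.card J) := Fintype.equivFin J
    rw [bs_reindex hG e.symm e.symm A]
    exact h _ _ fun l i j => hA l _ _
  have hsli : ∀ (J : Type) [Fintype J] (A : Fin (n + 1) → J → J → ℤ),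
      (∀ l i j, A l i j = - A l j i) → GS G {sli (bilp A)} := by
    intro J _ A hA
    refine gs_sli hG (bilp A) fun C => (hG.gs_congr fun R _ x => ?_).mp
      (hJ J (zl C A) fun l i j => ?_)
    · rw [Pt.bs_iff]
      unfold Pt
      rw [Set.forall_mem_image]
      simp only [ev_bilp, Finset.mem_coe]
      refine forall_congr' fun l => ?_
      by_cases hl : l ∈ C
      · simp [zl, hl]
      · simp [zl, hl]
    · unfold zl
      split_ifs
      · exact hA l i j
      · simp
  intro f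
  obtain ⟨T, _, _, a, r, c, N, K, ha, hr, hc, hN, hNK, hf⟩ := real_all f
  obtain ⟨a', ha'⟩ := ha
  choose r' hr' using hr
  choose c' hc' using hc
  choose N' hN' using hN
  have h1 : GS G {rename (kalt (n := n) (T := T)) (sli (bilp (alt (mat a' r' c' N'))))} := by
    have := hsli _ (alt (mat a' r' c' N')) (fun l i j => alt_neg _ l i j)
    rw [← hG.gs_emb (kalt (n := n) (T := T)) kalt_inj, Set.image_singleton] at this
    exact this
  let ι : MvPolynomial (Fin n) ℤ →+* MvPolynomial (Fin n ⊕ Fin 4) ℤ :=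
    (rename (Sum.inl : Fin n → Fin n ⊕ Fin 4) : MvPolynomial (Fin n) ℤ →ₐ[ℤ] _).toRingHom
  have hι : ∀ {A : Type} [CommRing A] (x : Fin n ⊕ Fin 4 → A) (p : MvPolynomial (Fin n) ℤ),
      ev x (ι p) = ev (fun i => x (Sum.inl i)) p := fun x p => ev_rename _ _ _
  let F : MvPolynomial (Fin n ⊕ Fin 4) ℤ := ι a * dt (Fin n)
  let L : T ⊕ T → MvPolynomial (Fin n ⊕ Fin 4) ℤ :=
    Sum.elim (fun t => X (Sum.inr 0) * ι (r t)) (fun t => - (X (Sum.inr 1) * ι (r t)))
  let R : T ⊕ T → MvPolynomial (Fin n ⊕ Fin 4) ℤ :=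
    Sum.elim (fun t => X (Sum.inr 3) * ι (c t)) (fun t => - (X (Sum.inr 2) * ι (c t)))
  let Nι : Matrix T T (MvPolynomial (Fin n ⊕ Fin 4) ℤ) := N.map ι
  let Kι : Matrix T T (MvPolynomial (Fin n ⊕ Fin 4) ℤ) := K.map ι
  have hNKι : Nι * Kι = 1 := by
    show N.map ι * K.map ι = 1
    rw [← Matrix.map_mul, hNK, Matrix.map_one ι (map_zero _) (map_one _)]
  have h2 := gs_block hG h0 (T := T ⊕ T) F L R (Matrix.fromBlocks Nι 0 0 (-Nι))
    (Matrix.fromBlocks Kι 0 0 (-Kι)) ?_ _ ?_ h1
  · -- the result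
    have h3 : GS G {ι f * dt (Fin n)} := by
      refine (hG.gs_congr fun A _ x => ?_).mp h2
      rw [Pt.one_iff, Pt.one_iff]
      refine Eq.congr_left ?_
      congr 1
      rw [Matrix.fromBlocks_mulVec, hf]
      have e1 : R ∘ Sum.inl = (X (Sum.inr 3) : MvPolynomial (Fin n ⊕ Fin 4) ℤ) • (ι ∘ c) := rfl
      have e2 : R ∘ Sum.inr = (- X (Sum.inr 2) : MvPolynomial (Fin n ⊕ Fin 4) ℤ) • (ι ∘ c) := by
        funext t
        show - (X (Sum.inr 2) * ι (c t)) = (- X (Sum.inr 2)) * ι (c t)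
        ring
      have e3 : L = Sum.elim ((X (Sum.inr 0) : MvPolynomial (Fin n ⊕ Fin 4) ℤ) • (ι ∘ r))
          ((- X (Sum.inr 1) : MvPolynomial (Fin n ⊕ Fin 4) ℤ) • (ι ∘ r)) := by
        funext t
        rcases t with t | t
        · rfl
        · show - (X (Sum.inr 1) * ι (r t)) = (- X (Sum.inr 1)) * ι (r t)
          ring
      have e4 : ι (r ⬝ᵥ K *ᵥ c) = (ι ∘ r) ⬝ᵥ (Kι *ᵥ (ι ∘ c)) := by
        simp only [dotProduct, Matrix.mulVec, map_sum, map_mul, Function.comp_apply]
        rfl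
      rw [e1, e2, e3, sumElim_dotProduct_sumElim, map_sub, e4]
      simp only [Matrix.zero_mulVec, smul_zero, add_zero, zero_add, Matrix.neg_mulVec,
        Matrix.mulVec_smul, dotProduct_neg, dotProduct_smul, smul_dotProduct, smul_eq_mul]
      show ι a * dt (Fin n) - _ = _
      unfold dt
      ring
    have h4 : GS G (∅ : Set (MvPolynomial (Fin n ⊕ Fin 4) ℤ)) := gs_affine_of_base hG h0 _
    have h5 : GS G (dop (ι f * dt (Fin n)) (∅ : Set (MvPolynomial (Fin n ⊕ Fin 4) ℤ))) := by
      refine hG.gs_opn h4 ?_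
      rwa [insert_empty_eq]
    have h6 : GS G (dop (dt (Option (Fin n))) (rename Sum.inl ''
        (dop f (∅ : Set (MvPolynomial (Fin n) ℤ))))) := by
      have hpt : ∀ {A : Type} [CommRing A] (y : Option (Option (Fin n) ⊕ Fin 4) → A),
          Pt (dop (dt (Option (Fin n))) (rename Sum.inl ''
            (dop f (∅ : Set (MvPolynomial (Fin n) ℤ))))) y ↔
          y none * (y (some (Sum.inr 0)) * y (some (Sum.inr 3)) -
            y (some (Sum.inr 1)) * y (some (Sum.inr 2))) = 1 ∧
          y (some (Sum.inl none)) * ev (fun i => y (some (Sum.inl (some i)))) f = 1 := by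
        intro A _ y
        rw [Pt.dop_iff, ev_dt]
        have : Pt (rename Sum.inl '' (dop f (∅ : Set (MvPolynomial (Fin n) ℤ))))
            (fun i => y (some i)) ↔ Pt (dop f (∅ : Set (MvPolynomial (Fin n) ℤ)))
            (fun i => y (some (Sum.inl i))) := by
          simp only [Pt, Set.forall_mem_image, ev_rename]
        rw [this, Pt.dop_iff]
        simp [Pt]
      have hpt' : ∀ {A : Type} [CommRing A] (x : Option (Fin n ⊕ Fin 4) → A),
          Pt (dop (ι f * dt (Fin n)) (∅ : Set (MvPolynomial (Fin n ⊕ Fin 4) ℤ))) x ↔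
          x none * (ev (fun i => x (some (Sum.inl i))) f *
            (x (some (Sum.inr 0)) * x (some (Sum.inr 3)) -
            x (some (Sum.inr 1)) * x (some (Sum.inr 2)))) = 1 := by
        intro A _ x
        rw [Pt.dop_iff, map_mul, ev_dt, hι]
        simp [Pt]
      refine (hG.gs_iso
        (fun A _ x => fun o => o.elim (x none * ev (fun i => x (some (Sum.inl i))) f)
          (Sum.elim (fun o' => o'.elim (x none *
            (x (some (Sum.inr 0)) * x (some (Sum.inr 3)) -
            x (some (Sum.inr 1)) * x (some (Sum.inr 2)))) (fun i => x (some (Sum.inl i))))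
            (fun i => x (some (Sum.inr i)))))
        (fun A _ y => fun o => o.elim (y none * y (some (Sum.inl none)))
          (Sum.elim (fun i => y (some (Sum.inl (some i)))) (fun i => y (some (Sum.inr i)))))
        ?_ ?_ ?_ ?_ ?_ ?_).mp h5
      · intro A B _ _ φ x _ o
        rcases o with _ | (_ | i) | i
        · show φ (_ * _) = _ * _
          rw [map_mul, ev_map]
        · show φ (_ * (_ * _ - _ * _)) = _ * (_ * _ - _ * _)
          simp only [map_mul, map_sub]
        · rfl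
        · rfl
      · intro A B _ _ φ y _ o
        rcases o with _ | i | i
        · exact map_mul φ _ _
        · rfl
        · rfl
      · intro A _ x hx
        rw [hpt'] at hx
        rw [hpt]
        constructor
        · show (x none * ev (fun i => x (some (Sum.inl i))) f) * (_ - _) = 1
          rw [mul_assoc]
          exact hx
        · show (x none * (_ - _)) * ev (fun i => x (some (Sum.inl i))) f = 1
          rw [mul_assoc, mul_comm (_ - _)]
          exact hx
      · intro A _ y hy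
        rw [hpt] at hy
        rw [hpt']
        show (y none * y (some (Sum.inl none))) *
          (ev (fun i => y (some (Sum.inl (some i)))) f *
            (y (some (Sum.inr 0)) * y (some (Sum.inr 3)) -
            y (some (Sum.inr 1)) * y (some (Sum.inr 2)))) = 1
        linear_combination (y (some (Sum.inl none)) *
          ev (fun i => y (some (Sum.inl (some i)))) f) * hy.1 + hy.2
      · intro A _ x hx
        rw [hpt'] at hx
        funext o
        rcases o with _ | i | i
        · show (x none * ev (fun i => x (some (Sum.inl i))) f) * (x none *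
            (x (some (Sum.inr 0)) * x (some (Sum.inr 3)) -
            x (some (Sum.inr 1)) * x (some (Sum.inr 2)))) = x none
          linear_combination (x none) * hx
        · rfl
        · rfl
      · intro A _ y hy
        rw [hpt] at hy
        funext o
        rcases o with _ | (_ | i) | i
        · show (y none * y (some (Sum.inl none))) *
            ev (fun i => y (some (Sum.inl (some i)))) f = y none
          linear_combination (y none) * hy.2
        · show (y none * y (some (Sum.inl none))) *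
            (y (some (Sum.inr 0)) * y (some (Sum.inr 3)) -
            y (some (Sum.inr 1)) * y (some (Sum.inr 2))) = y (some (Sum.inl none))
          linear_combination (y (some (Sum.inl none))) * hy.1
        · rfl
        · rfl
    have h7 : GS G (dop f (∅ : Set (MvPolynomial (Fin n) ℤ))) := hG.gl2 _ _ h6
    have h8 := hG.gs_closed (gs_affine_of_base hG h0 (Fin n)) h7
    rwa [insert_empty_eq] at h8
  · rw [Matrix.fromBlocks_multiply, neg_mul_neg, hNKι]
    simp only [Matrix.mul_zero, Matrix.zero_mul, add_zero, zero_add, Matrix.fromBlocks_one]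
  · intro A _ x
    rw [ev_rename, ev_sli_alt]
    have ea : ev (fun l => x (Sum.inl (Sum.inl l))) a = aff a' (fun l => x (Sum.inl (Sum.inl l))) :=
      by rw [ha', ev_al]
    have er : ∀ t, ev (fun l => x (Sum.inl (Sum.inl l))) (r t) =
      aff (r' t) (fun l => x (Sum.inl (Sum.inl l))) := fun t => by rw [hr', ev_al]
    have ec : ∀ t, ev (fun l => x (Sum.inl (Sum.inl l))) (c t) =
      aff (c' t) (fun l => x (Sum.inl (Sum.inl l))) := fun t => by rw [hc', ev_al]
    have eN : ∀ s t, ev (fun l => x (Sum.inl (Sum.inl l))) (N s t) =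
      aff (N' s t) (fun l => x (Sum.inl (Sum.inl l))) := fun s t => by rw [hN', ev_al]
    have h3 : ev (fun i => x (Sum.inl i)) F = aff a' (fun l => x (Sum.inl (Sum.inl l))) *
        (x (Sum.inl (Sum.inr 0)) * x (Sum.inl (Sum.inr 3)) -
          x (Sum.inl (Sum.inr 1)) * x (Sum.inl (Sum.inr 2))) := by
      show ev (fun i => x (Sum.inl i)) (ι a * dt (Fin n)) = _
      rw [map_mul, ev_dt, hι, ea]
    have h4 : evv (fun i => x (Sum.inl i)) L = Sum.elim
        (fun t => x (Sum.inl (Sum.inr 0)) * aff (r' t) (fun l => x (Sum.inl (Sum.inl l))))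
        (fun t => - (x (Sum.inl (Sum.inr 1)) * aff (r' t) (fun l => x (Sum.inl (Sum.inl l))))) := by
      funext t
      rcases t with t | t
      · show ev (fun i => x (Sum.inl i)) (X (Sum.inr 0) * ι (r t)) = _
        rw [map_mul, ev_X, hι, er]; rfl
      · show ev (fun i => x (Sum.inl i)) (-(X (Sum.inr 1) * ι (r t))) = _
        rw [map_neg, map_mul, ev_X, hι, er]; rfl
    have h5 : evv (fun i => x (Sum.inl i)) R = Sum.elim
        (fun t => x (Sum.inl (Sum.inr 3)) * aff (c' t) (fun l => x (Sum.inl (Sum.inl l))))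
        (fun t => - (x (Sum.inl (Sum.inr 2)) * aff (c' t) (fun l => x (Sum.inl (Sum.inl l))))) := by
      funext t
      rcases t with t | t
      · show ev (fun i => x (Sum.inl i)) (X (Sum.inr 3) * ι (c t)) = _
        rw [map_mul, ev_X, hι, ec]; rfl
      · show ev (fun i => x (Sum.inl i)) (-(X (Sum.inr 2) * ι (c t))) = _
        rw [map_neg, map_mul, ev_X, hι, ec]; rfl
    have h6 : ∀ (w : T ⊕ T → A), evm (fun i => x (Sum.inl i)) (Matrix.fromBlocks Nι 0 0 (-Nι)) *ᵥ w =
        Sum.elim (fun s => ∑ t, aff (N' s t) (fun l => x (Sum.inl (Sum.inl l))) * w (Sum.inl t))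
          (fun s => - ∑ t, aff (N' s t) (fun l => x (Sum.inl (Sum.inl l))) * w (Sum.inr t)) := by
      intro w
      have e1 : ∀ s t, ev (fun i => x (Sum.inl i)) (Nι s t) =
          aff (N' s t) (fun l => x (Sum.inl (Sum.inl l))) := by
        intro s t
        show ev (fun i => x (Sum.inl i)) (ι (N s t)) = _
        rw [hι, eN]
      funext s
      unfold evm
      rw [Matrix.fromBlocks_map, Matrix.fromBlocks_mulVec]
      rcases s with s | s
      · simp only [Sum.elim_inl, Pi.add_apply, Matrix.mulVec, dotProduct, Matrix.map_apply,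
          Function.comp_apply, Matrix.zero_apply, map_zero, zero_mul, Finset.sum_const_zero,
          add_zero, e1]
      · simp only [Sum.elim_inr, Pi.add_apply, Matrix.mulVec, dotProduct, Matrix.map_apply,
          Function.comp_apply, Matrix.zero_apply, map_zero, zero_mul, Finset.sum_const_zero,
          zero_add, Matrix.neg_apply, map_neg, neg_mul, Finset.sum_neg_distrib, e1]
    rw [h3, h4, h5, h6]
    simp only [dotProduct, Fintype.sum_sum_type, Finset.univ_unique, Finset.sum_singleton,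
      Sum.elim_inl, Sum.elim_inr, Pi.add_apply]
    exact alt_alg (aff a' fun l => x (Sum.inl (Sum.inl l))) (x (Sum.inl (Sum.inr 0)))
      (x (Sum.inl (Sum.inr 1))) (x (Sum.inl (Sum.inr 2))) (x (Sum.inl (Sum.inr 3)))
      (fun t => aff (r' t) fun l => x (Sum.inl (Sum.inl l)))
      (fun t => aff (c' t) fun l => x (Sum.inl (Sum.inl l)))
      (fun t => x (Sum.inr (Sum.inl (Sum.inl t)))) (fun t => x (Sum.inr (Sum.inl (Sum.inr t))))
      (fun t => x (Sum.inr (Sum.inr (Sum.inr t)))) (fun t => x (Sum.inr (Sum.inr (Sum.inl t))))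
      (fun s t => aff (N' s t) fun l => x (Sum.inl (Sum.inl l)))

end

end Pool.Agent.Helper81.HG
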