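import Pool.Agent.Helper81.HG.Quad

/-!
# Cones and determinantal hypersurfaces
-/

set_option autoImplicit false

open MvPolynomial
open scoped Matrix
open Pool.Agent.Helper81.CP Pool.Agent.Helper81.HI

namespace Pool.Agent.Helper81.HG

variable {G : ∀ (R : Type) [CommRing R], Prop} {n : ℕ}

/-- zeros are preserved by scaling -/
def Scb (F : MvPolynomial (Fin (n + 1)) ℤ) : Prop :=
  ∀ (A : Type) [CommRing A] (x : Fin (n + 1) → A) (c : A), ev x F = 0 →
    ev (fun i => c * x i) F = 0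

lemma scb_of_hom {F : MvPolynomial (Fin (n + 1)) ℤ} {d : ℕ} (hF : F.IsHomogeneous d) : Scb F := by
  intro A _ x c hx
  have h1 : ev (fun i => c * x i) F = c ^ d * ev x F := by
    rw [ev_eq_aeval, ev_eq_aeval, aeval_def, aeval_def, eval₂_eq', eval₂_eq', Finset.mul_sum]
    refine Finset.sum_congr rfl fun m hm => ?_
    simp only [mul_pow, Finset.prod_mul_distrib]
    have h2 : ∑ i, m i = d := by
      have := hF (mem_support_iff.mp hm)
      rw [Finsupp.weight_apply, Finsupp.sum_fintype _ _ (by simp)] at this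
      simpa using this
    rw [Finset.prod_pow_eq_pow_sum, h2]
    ring
  rw [h1, hx, mul_zero]

section

variable (hG : RG G)

include hG

lemma gs_slice_one (F : MvPolynomial (Fin (n + 1)) ℤ) (f : MvPolynomial (Fin n) ℤ)
    (hf : ∀ (A : Type) [CommRing A] (y : Fin n → A), ev (Fin.cons 1 y : Fin (n + 1) → A) F = ev y f) :
    GS G (insert (X 0 - 1) {F}) ↔ GS G {f} := by
  refine hG.gs_iso (fun A _ x i => x (Fin.succ i)) (fun A _ y => Fin.cons 1 y)
    ?_ ?_ ?_ ?_ ?_ ?_
  · intro A B _ _ φ x _ j; rfl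
  · intro A B _ _ φ x _ j
    refine Fin.cases ?_ (fun j => ?_) j
    · exact map_one φ
    · rfl
  · intro A _ x hx
    rw [Pt.insert_iff, Pt.one_iff, map_sub, map_one, ev_X, sub_eq_zero] at hx
    rw [Pt.one_iff, ← hf]
    have e1 : (Fin.cons 1 (fun i => x (Fin.succ i)) : Fin (n + 1) → A) = x := by
      funext i
      refine Fin.cases ?_ (fun i => ?_) i
      · exact hx.1.symm
      · rfl
    rw [e1]
    exact hx.2
  · intro A _ y hy
    rw [Pt.one_iff] at hy
    rw [Pt.insert_iff, Pt.one_iff, map_sub, map_one, ev_X, sub_eq_zero, hf]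
    exact ⟨rfl, hy⟩
  · intro A _ x hx
    rw [Pt.insert_iff, map_sub, map_one, ev_X, sub_eq_zero] at hx
    funext i
    refine Fin.cases ?_ (fun i => ?_) i
    · exact hx.1.symm
    · rfl
  · intro A _ y _; rfl

lemma gs_slice_zero (F : MvPolynomial (Fin (n + 1)) ℤ) (f : MvPolynomial (Fin n) ℤ)
    (hf : ∀ (A : Type) [CommRing A] (y : Fin n → A), ev (Fin.cons 0 y : Fin (n + 1) → A) F = ev y f) :
    GS G (insert (X 0) {F}) ↔ GS G {f} := by
  refine hG.gs_iso (fun A _ x i => x (Fin.succ i)) (fun A _ y => Fin.cons 0 y)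
    ?_ ?_ ?_ ?_ ?_ ?_
  · intro A B _ _ φ x _ j; rfl
  · intro A B _ _ φ x _ j
    refine Fin.cases ?_ (fun j => ?_) j
    · exact map_zero φ
    · rfl
  · intro A _ x hx
    rw [Pt.insert_iff, Pt.one_iff, ev_X] at hx
    rw [Pt.one_iff, ← hf]
    have e1 : (Fin.cons 0 (fun i => x (Fin.succ i)) : Fin (n + 1) → A) = x := by
      funext i
      refine Fin.cases ?_ (fun i => ?_) i
      · exact hx.1.symm
      · rfl
    rw [e1]
    exact hx.2
  · intro A _ y hy
    rw [Pt.one_iff] at hy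
    rw [Pt.insert_iff, Pt.one_iff, ev_X, hf]
    exact ⟨rfl, hy⟩
  · intro A _ x hx
    rw [Pt.insert_iff, ev_X] at hx
    funext i
    refine Fin.cases ?_ (fun i => ?_) i
    · exact hx.1.symm
    · rfl
  · intro A _ y _; rfl

lemma gs_slice_unit {F : MvPolynomial (Fin (n + 1)) ℤ} (hF : Scb F) :
    GS G (dop (X 0) {F}) ↔ GS G (insert (X 0 - 1) {F}) := by
  refine hG.gs_scale Set.univ (X 0) ?_ ?_
  · intro A _ x c hx
    rw [Pt.one_iff] at hx ⊢
    have e1 : scl Set.univ c x = fun i => c * x i := by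
      funext i
      simp [scl]
    rw [e1]
    exact hF A x c hx
  · intro A _ x c
    simp [scl]

/-- hypersurfaces in `A^n` control cones in `A^(n+1)` -/
theorem gs_cone (hH : HypG G n) {F : MvPolynomial (Fin (n + 1)) ℤ} (hF : Scb F) :
    GS G {F} := by
  refine hG.gs_glue (p := X 0) ?_ ?_
  · refine (gs_slice_zero hG F (aeval (Fin.cons 0 X : Fin (n + 1) → MvPolynomial (Fin n) ℤ) F)
      fun A _ y => ?_).mpr (hH _)
    rw [ev_eq_aeval, ev_eq_aeval, ← AlgHom.comp_apply]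
    congr 1
    apply algHom_ext
    intro i
    rw [AlgHom.comp_apply, aeval_X, aeval_X]
    refine Fin.cases ?_ (fun i => ?_) i
    · simp
    · simp
  · rw [gs_slice_unit hG hF]
    refine (gs_slice_one hG F (aeval (Fin.cons 1 X : Fin (n + 1) → MvPolynomial (Fin n) ℤ) F)
      fun A _ y => ?_).mpr (hH _)
    rw [ev_eq_aeval, ev_eq_aeval, ← AlgHom.comp_apply]
    congr 1
    apply algHom_ext
    intro i
    rw [AlgHom.comp_apply, aeval_X, aeval_X]
    refine Fin.cases ?_ (fun i => ?_) i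
    · simp
    · simp

/-- classes of cones in `A^(n+1)` which control hypersurfaces in `A^n` -/
theorem hypG_of_cones (𝓕 : Set (MvPolynomial (Fin (n + 1)) ℤ)) (hF : ∀ F ∈ 𝓕, GS G {F})
    (h0 : 0 ∈ 𝓕) (hX : X 0 ∈ 𝓕) (hm : ∀ F ∈ 𝓕, X 0 * F ∈ 𝓕) (hs : ∀ F ∈ 𝓕, Scb F)
    (hf : ∀ f : MvPolynomial (Fin n) ℤ, ∃ F ∈ 𝓕, ∀ (A : Type) [CommRing A] (y : Fin n → A),
      ev (Fin.cons 1 y : Fin (n + 1) → A) F = ev y f) : HypG G n := by
  intro f
  obtain ⟨F, hF', hFf⟩ := hf f
  have h1 : GS G (∅ : Set (MvPolynomial (Fin (n + 1)) ℤ)) := by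
    refine (hG.gs_congr fun A _ x => ?_).mp (hF 0 h0)
    rw [Pt.one_iff]
    simp [Pt]
  have h2 : GO G (∅ : Set (MvPolynomial (Fin (n + 1)) ℤ)) (X 0) := by
    refine hG.gs_opn h1 ?_
    rw [insert_empty_eq]
    exact hF _ hX
  have h3 : GO G (∅ : Set (MvPolynomial (Fin (n + 1)) ℤ)) (X 0 * F) := by
    refine hG.gs_opn h1 ?_
    rw [insert_empty_eq]
    exact hF _ (hm F hF')
  have h4 : GO G (insert F (∅ : Set (MvPolynomial (Fin (n + 1)) ℤ))) (X 0) :=
    hG.gl_closed F h2 h3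
  rw [insert_empty_eq] at h4
  have h5 : GS G (dop (X 0) {F}) := h4
  rw [gs_slice_unit hG (hs F hF')] at h5
  exact (gs_slice_one hG F f hFf).mp h5

end

/-! ### Determinants -/

section

variable {ι : Type} [Fintype ι] [DecidableEq ι]

/-- `det (∑ x_l M_l)` -/
noncomputable def dett (M : Fin (n + 1) → Matrix ι ι ℤ) : MvPolynomial (Fin (n + 1)) ℤ :=
  Matrix.det (Matrix.of fun i j => ∑ l, C (M l i j) * X l)

lemma ev_dett (M : Fin (n + 1) → Matrix ι ι ℤ) {A : Type} [CommRing A] (x : Fin (n + 1) → A) :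
    ev x (dett M) = Matrix.det (Matrix.of fun i j => ∑ l, (M l i j : A) * x l) := by
  unfold dett
  rw [RingHom.map_det]
  congr 1
  ext i j
  simp only [RingHom.mapMatrix_apply, Matrix.map_apply, Matrix.of_apply, map_sum, map_mul, ev_C,
    ev_X]

lemma scb_dett (M : Fin (n + 1) → Matrix ι ι ℤ) : Scb (dett M) := by
  intro A _ x c hx
  rw [ev_dett] at hx ⊢
  have h1 : (Matrix.of fun i j => ∑ l, (M l i j : A) * (c * x l)) =
      c • (Matrix.of fun i j => ∑ l, (M l i j : A) * x l) := by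
    ext i j
    simp only [Matrix.of_apply, Matrix.smul_apply, smul_eq_mul, Finset.mul_sum]
    exact Finset.sum_congr rfl fun l _ => by ring
  rw [h1, Matrix.det_smul, hx, mul_zero]

lemma hom_dett (M : Fin (n + 1) → Matrix ι ι ℤ) :
    (dett M).IsHomogeneous (Fintype.card ι) := by
  unfold dett
  rw [Matrix.det_apply]
  refine IsHomogeneous.sum _ _ _ fun σ _ => ?_
  have h1 : (∏ i, (Matrix.of fun i j => (∑ l, C (M l i j) * X l :
      MvPolynomial (Fin (n + 1)) ℤ)) (σ i) i).IsHomogeneous (Fintype.card ι) := by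
    have h2 : Fintype.card ι = ∑ _i : ι, 1 := by simp
    rw [h2]
    refine IsHomogeneous.prod _ _ _ fun i _ => ?_
    refine IsHomogeneous.sum Finset.univ
      (fun l => (C (M l (σ i) i) * X l : MvPolynomial (Fin (n + 1)) ℤ)) _ fun l _ => ?_
    exact isHomogeneous_C_mul_X _ _
  rcases Int.units_eq_one_or (Equiv.Perm.sign σ) with h | h
  · rw [h, one_smul]; exact h1
  · rw [h, Units.neg_smul, one_smul]; exact h1.neg

lemma dett_reindex {ι' : Type} [Fintype ι'] [DecidableEq ι'] (e : ι ≃ ι')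
    (M : Fin (n + 1) → Matrix ι ι ℤ) :
    dett (fun l => (M l).submatrix e.symm e.symm) = dett M := by
  unfold dett
  exact Matrix.det_submatrix_equiv_self e.symm
    (Matrix.of fun i j => (∑ l, C (M l i j) * X l : MvPolynomial (Fin (n + 1)) ℤ))

end

/-- the determinantal polynomials -/
def Dt (n : ℕ) : Set (MvPolynomial (Fin (n + 1)) ℤ) :=
  {F | ∃ (s : ℕ) (M : Fin (n + 1) → Matrix (Fin s) (Fin s) ℤ), F = dett M}

lemma dt_mem {ι : Type} [Fintype ι] [DecidableEq ι] (M : Fin (n + 1) → Matrix ι ι ℤ) :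
    dett M ∈ Dt n := by
  let e : ι ≃ Fin (Fintype.card ι) := Fintype.equivFin ι
  exact ⟨_, fun l => (M l).submatrix e.symm e.symm, (dett_reindex e M).symm⟩

lemma dt_mul (F : MvPolynomial (Fin (n + 1)) ℤ) (hF : F ∈ Dt n) : X 0 * F ∈ Dt n := by
  obtain ⟨s, M, rfl⟩ := hF
  let M' : Fin (n + 1) → Matrix (Unit ⊕ Fin s) (Unit ⊕ Fin s) ℤ := fun l =>
    Matrix.fromBlocks (if l = 0 then 1 else 0) 0 0 (M l)
  have h1 : X 0 * dett M = dett M' := by
    unfold dett
    have h2 : (Matrix.of fun i j => (∑ l, C (M' l i j) * X l : MvPolynomial (Fin (n + 1)) ℤ)) =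
        Matrix.fromBlocks (Matrix.of fun _ _ => X 0) 0 0
          (Matrix.of fun i j => ∑ l, C (M l i j) * X l) := by
      ext1 i j
      rcases i with i | i <;> rcases j with j | j
      · show ∑ l : Fin (n + 1), (C ((if l = 0 then (1 : Matrix Unit Unit ℤ) else 0) i j) * X l :
          MvPolynomial (Fin (n + 1)) ℤ) = X 0
        rw [Finset.sum_eq_single 0]
        · simp
        · intro l _ hl; simp [hl]
        · intro h; exact (h (Finset.mem_univ _)).elim
      · show ∑ l : Fin (n + 1), (C (0 : ℤ) * X l : MvPolynomial (Fin (n + 1)) ℤ) = 0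
        simp
      · show ∑ l : Fin (n + 1), (C (0 : ℤ) * X l : MvPolynomial (Fin (n + 1)) ℤ) = 0
        simp
      · rfl
    rw [h2, Matrix.det_fromBlocks_zero₂₁, Matrix.det_unique (n := Unit)]
    rfl
  rw [h1]
  exact dt_mem M'

lemma dt_zero : (0 : MvPolynomial (Fin (n + 1)) ℤ) ∈ Dt n := by
  refine ⟨1, fun _ => 0, ?_⟩
  unfold dett
  rw [Matrix.det_unique]
  simp

lemma dt_X : (X 0 : MvPolynomial (Fin (n + 1)) ℤ) ∈ Dt n := by
  refine ⟨1, fun l => if l = 0 then 1 else 0, ?_⟩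
  unfold dett
  rw [Matrix.det_unique, Matrix.of_apply, Finset.sum_eq_single 0]
  · simp
  · intro l _ hl; simp [hl]
  · intro h; exact (h (Finset.mem_univ _)).elim

/-- **Determinantal hypersurfaces control all hypersurfaces.** -/
theorem hypG_of_dett (hG : RG G)
    (h : ∀ (s : ℕ) (M : Fin (n + 1) → Matrix (Fin s) (Fin s) ℤ), GS G {dett M}) :
    HypG G n := by
  refine hypG_of_cones hG (Dt n) ?_ dt_zero dt_X dt_mul ?_ fun f => ?_
  · rintro F ⟨s, M, rfl⟩
    exact h s M
  · rintro F ⟨s, M, rfl⟩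
    exact scb_dett M
  · obtain ⟨s, M, hM⟩ := exists_det f
    refine ⟨dett M, ⟨s, M, rfl⟩, fun A _ y => ?_⟩
    rw [ev_dett, ← hM, RingHom.map_det]
    congr 1
    ext i j
    simp only [RingHom.mapMatrix_apply, Matrix.map_apply, Matrix.of_apply, map_add, map_sum,
      map_mul, ev_C, ev_X]
    rw [Fin.sum_univ_succ, Fin.cons_zero, mul_one]
    congr 1
    exact Finset.sum_congr rfl fun l _ => by rw [Fin.cons_succ, mul_comm]

end Pool.Agent.Helper81.HG
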