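import Mathlib

/-!
# Polynomials as determinants of matrices with affine linear entries over `ℤ`
-/

set_option autoImplicit false

open MvPolynomial Matrix

namespace Pool.Agent.Helper81.HG

variable {n : ℕ}

/-- integer polynomials of degree at most one -/
def al (p : MvPolynomial (Fin n) ℤ) : Prop :=
  ∃ c : Fin (n + 1) → ℤ, p = C (c 0) + ∑ l : Fin n, X l * C (c l.succ)

lemma al_C (a : ℤ) : al (C a : MvPolynomial (Fin n) ℤ) := by
  refine ⟨Fin.cons a 0, ?_⟩
  simp

lemma al_zero : al (0 : MvPolynomial (Fin n) ℤ) := by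
  simpa using al_C (n := n) 0

lemma al_one : al (1 : MvPolynomial (Fin n) ℤ) := by
  simpa using al_C (n := n) 1

lemma al_X (k : Fin n) : al (X k : MvPolynomial (Fin n) ℤ) := by
  classical
  refine ⟨Fin.cons 0 (Pi.single k 1), ?_⟩
  simp only [Fin.cons_zero, Fin.cons_succ, map_zero, zero_add]
  rw [Finset.sum_eq_single k]
  · simp
  · intro l _ hl
    rw [Pi.single_eq_of_ne hl]; simp
  · intro h; exact (h (Finset.mem_univ k)).elim

lemma al_add {p q : MvPolynomial (Fin n) ℤ} (hp : al p) (hq : al q) : al (p + q) := by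
  obtain ⟨c, rfl⟩ := hp
  obtain ⟨d, rfl⟩ := hq
  refine ⟨fun l => c l + d l, ?_⟩
  simp only [map_add, mul_add, Finset.sum_add_distrib]
  ring

lemma al_neg {p : MvPolynomial (Fin n) ℤ} (hp : al p) : al (-p) := by
  obtain ⟨c, rfl⟩ := hp
  refine ⟨fun l => - c l, ?_⟩
  simp only [map_neg, mul_neg, Finset.sum_neg_distrib]
  ring

lemma det_block {I T : Type} [Fintype I] [DecidableEq I] [Fintype T] [DecidableEq T] [IsEmpty T]
    {R : Type} [CommRing R] (A : Matrix I I R) : det (fromBlocks A 0 0 (0 : Matrix T T R)) = det A := by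
  rw [det_fromBlocks_zero₂₁, det_isEmpty (A := (0 : Matrix T T R)), mul_one]

/-- the polynomial `p` can be added to an entry of a matrix at the cost of new rows and columns -/
def Add (p : MvPolynomial (Fin n) ℤ) : Prop :=
  ∀ (I : Type) [Fintype I] [DecidableEq I] (N : Matrix I I (MvPolynomial (Fin n) ℤ)),
    (∀ a b, al (N a b)) → ∀ i j : I, ∃ (T : Type) (_ : Fintype T) (_ : DecidableEq T)
      (N' : Matrix (I ⊕ T) (I ⊕ T) (MvPolynomial (Fin n) ℤ)), (∀ a b, al (N' a b)) ∧
      ∀ Q : Matrix I I (MvPolynomial (Fin n) ℤ),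
        det (N' + fromBlocks Q 0 0 0) = det (N + single i j p + Q)

lemma add_of_al {p : MvPolynomial (Fin n) ℤ} (hp : al p) : Add p := by
  intro I _ _ N hN i j
  refine ⟨Empty, inferInstance, inferInstance, fromBlocks (N + single i j p) 0 0 0, ?_, ?_⟩
  · rintro (a | a) (b | b)
    · rw [fromBlocks_apply₁₁, Matrix.add_apply]
      refine al_add (hN a b) ?_
      rw [Matrix.single_apply]
      split_ifs
      · exact hp
      · exact al_zero
    · exact b.elim
    · exact a.elim
    · exact a.elim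
  · intro Q
    rw [fromBlocks_add, add_zero, add_zero, add_zero, det_block]

lemma add_add {p q : MvPolynomial (Fin n) ℤ} (hp : Add p) (hq : Add q) : Add (p + q) := by
  intro I _ _ N hN i j
  obtain ⟨T₁, _, _, N₁, hN₁, h₁⟩ := hp I N hN i j
  obtain ⟨T₂, _, _, N₂, hN₂, h₂⟩ := hq (I ⊕ T₁) N₁ hN₁ (Sum.inl i) (Sum.inl j)
  let e : (I ⊕ T₁) ⊕ T₂ ≃ I ⊕ (T₁ ⊕ T₂) := Equiv.sumAssoc I T₁ T₂
  refine ⟨T₁ ⊕ T₂, inferInstance, inferInstance, N₂.submatrix e.symm e.symm,
    fun a b => hN₂ _ _, fun Q => ?_⟩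
  have h3 : N₂.submatrix e.symm e.symm + fromBlocks Q 0 0 0 =
      (N₂ + fromBlocks (fromBlocks Q 0 0 0) 0 0 0).submatrix e.symm e.symm := by
    ext a b
    rcases a with a | a | a <;> rcases b with b | b | b <;> rfl
  rw [h3, det_submatrix_equiv_self, h₂]
  have h4 : N₁ + single (Sum.inl i) (Sum.inl j) q + fromBlocks Q 0 0 0 =
      N₁ + fromBlocks (single i j q + Q) 0 0 0 := by
    rw [add_assoc]
    congr 1
    ext a b
    rcases a with a | a <;> rcases b with b | b <;>
      simp [Matrix.single_apply, fromBlocks]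
  rw [h4, h₁]
  congr 1
  rw [Matrix.single_add]
  abel

lemma add_mul_X {p : MvPolynomial (Fin n) ℤ} (hp : Add p) (k : Fin n) : Add (p * X k) := by
  intro I _ _ N hN i j
  let B : Matrix I Unit (MvPolynomial (Fin n) ℤ) := Matrix.of fun a _ => if a = i then - X k else 0
  let N₀ : Matrix (I ⊕ Unit) (I ⊕ Unit) (MvPolynomial (Fin n) ℤ) := fromBlocks N B 0 1
  have hN₀ : ∀ a b, al (N₀ a b) := by
    rintro (a | a) (b | b)
    · exact hN a b
    · show al (if a = i then - X k else 0)
      split_ifs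
      · exact al_neg (al_X k)
      · exact al_zero
    · exact al_zero
    · exact al_one
  obtain ⟨T₁, _, _, N₁, hN₁, h₁⟩ := hp (I ⊕ Unit) N₀ hN₀ (Sum.inr ()) (Sum.inl j)
  let e : (I ⊕ Unit) ⊕ T₁ ≃ I ⊕ (Unit ⊕ T₁) := Equiv.sumAssoc I Unit T₁
  refine ⟨Unit ⊕ T₁, inferInstance, inferInstance, N₁.submatrix e.symm e.symm,
    fun a b => hN₁ _ _, fun Q => ?_⟩
  have h3 : N₁.submatrix e.symm e.symm + fromBlocks Q 0 0 0 =
      (N₁ + fromBlocks (fromBlocks Q 0 0 0) 0 0 0).submatrix e.symm e.symm := by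
    ext a b
    rcases a with a | a | a <;> rcases b with b | b | b <;> rfl
  rw [h3, det_submatrix_equiv_self, h₁]
  let D : Matrix Unit I (MvPolynomial (Fin n) ℤ) := Matrix.of fun _ b => if b = j then p else 0
  have h4 : N₀ + single (Sum.inr ()) (Sum.inl j) p + fromBlocks Q 0 0 0 =
      fromBlocks (N + Q) B D 1 := by
    ext a b
    rcases a with a | a <;> rcases b with b | b
    · simp [N₀, Matrix.single_apply, fromBlocks]
    · simp [N₀, Matrix.single_apply, fromBlocks]
    · simp [N₀, D, Matrix.single_apply, fromBlocks, eq_comm]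
    · simp [N₀, Matrix.single_apply, fromBlocks]
  rw [h4, det_fromBlocks_one₂₂]
  congr 1
  ext a b
  simp only [Matrix.sub_apply, Matrix.add_apply, Matrix.mul_apply, Finset.univ_unique,
    Finset.sum_singleton, B, D, Matrix.of_apply, Matrix.single_apply]
  by_cases ha : a = i
  · by_cases hb : b = j
    · subst ha; subst hb
      simp
      ring
    · have hb' : ¬ j = b := fun h => hb h.symm
      simp [ha, hb, hb']
  · have ha' : ¬ i = a := fun h => ha h.symm
    simp [ha, ha']

lemma add_all (p : MvPolynomial (Fin n) ℤ) : Add p := by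
  induction p using MvPolynomial.induction_on with
  | C a => exact add_of_al (al_C a)
  | add p q hp hq => exact add_add hp hq
  | mul_X p k hp => exact add_mul_X hp k

/-- **Every integer polynomial is the determinant of a matrix with affine linear entries.** -/
theorem exists_det (f : MvPolynomial (Fin n) ℤ) :
    ∃ (s : ℕ) (M : Fin (n + 1) → Matrix (Fin s) (Fin s) ℤ),
      det (Matrix.of fun i j => (C (M 0 i j) + ∑ l : Fin n, X l * C (M l.succ i j) :
        MvPolynomial (Fin n) ℤ)) = f := by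
  obtain ⟨T, _, _, N', hN', h⟩ := add_all f Unit 0 (fun _ _ => al_zero) () ()
  let e : (Unit ⊕ T) ≃ Fin (Fintype.card (Unit ⊕ T)) := Fintype.equivFin _
  choose c hc using hN'
  refine ⟨Fintype.card (Unit ⊕ T), fun l => Matrix.of fun i j => c (e.symm i) (e.symm j) l, ?_⟩
  have h1 : (Matrix.of fun i j => (C (c (e.symm i) (e.symm j) 0) +
      ∑ l : Fin n, X l * C (c (e.symm i) (e.symm j) l.succ) : MvPolynomial (Fin n) ℤ)) =
      N'.submatrix e.symm e.symm := by
    ext1 i j
    exact (hc (e.symm i) (e.symm j)).symm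
  have h2 := h 0
  rw [fromBlocks_zero, add_zero, add_zero, zero_add] at h2
  refine (congrArg det h1).trans ?_
  rw [det_submatrix_equiv_self, h2, det_unique, Matrix.single_apply]
  simp

end Pool.Agent.Helper81.HG
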