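import Pool.Agent.Helper81.HG.Lin
import Pool.Agent.Helper81.HI.Geo

/-!
# Rings of small transcendence degree
-/

set_option autoImplicit false

open MvPolynomial
open Pool.Agent.Helper81.CP Pool.Agent.Helper81.HI

namespace Pool.Agent.Helper81.HG

variable {G : ∀ (R : Type) [CommRing R], Prop}

lemma Pt.iff_span {σ A : Type} [CommRing A] {E : Set (MvPolynomial σ ℤ)} {x : σ → A} :
    Pt E x ↔ Ideal.span E ≤ RingHom.ker (ev x) := by
  rw [Ideal.span_le]
  rfl

lemma Pt.congr_span {σ A : Type} [CommRing A] {E E' : Set (MvPolynomial σ ℤ)} {x : σ → A}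
    (h : Ideal.span E = Ideal.span E') : Pt E x ↔ Pt E' x := by
  rw [Pt.iff_span, Pt.iff_span, h]

lemma Pt.ideal_insert {σ A : Type} [CommRing A] {I : Ideal (MvPolynomial σ ℤ)}
    {p : MvPolynomial σ ℤ} {x : σ → A} :
    Pt (insert p (I : Set (MvPolynomial σ ℤ))) x ↔
      Pt ((I ⊔ Ideal.span {p} : Ideal (MvPolynomial σ ℤ)) : Set (MvPolynomial σ ℤ)) x := by
  refine Pt.congr_span ?_
  rw [Ideal.span_insert, Ideal.span_eq, Ideal.span_eq, sup_comm]

/-- the localization of the image of a ring in a field -/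
lemma loc_ringEquiv {R K : Type} [CommRing R] [Field K] (θ : R →+* K)
    (hθ : Function.Injective θ) (r : R) (hr : θ r ≠ 0) :
    Nonempty (Localization.Away r ≃+* loc θ.range (θ r)) := by
  let _ : Algebra θ.range (loc θ.range (θ r)) :=
    (Subring.inclusion (le_loc θ.range (θ r))).toAlgebra
  have hloc := isLoc_loc θ.range (θ r) (θ.mem_range_self r) hr
  let e : R ≃+* θ.range := RingEquiv.ofBijective θ.rangeRestrict
    ⟨fun a b h => hθ (congrArg Subtype.val h), θ.rangeRestrict_surjective⟩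
  have h1 : Submonoid.map (e : R →* θ.range) (Submonoid.powers r) =
      Submonoid.powers (⟨θ r, θ.mem_range_self r⟩ : θ.range) := by
    rw [Submonoid.map_powers]
    rfl
  exact ⟨IsLocalization.ringEquivOfRingEquiv (M := Submonoid.powers r)
    (T := Submonoid.powers (⟨θ r, θ.mem_range_self r⟩ : θ.range))
    (Localization.Away r) (loc θ.range (θ r)) e h1⟩

section

variable (hG : RG G) {σ : Type} [Finite σ]

include hG

lemma go_loc {K : Type} [Field K] (φ : MvPolynomial σ ℤ →+* K) (a : MvPolynomial σ ℤ)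
    (ha : φ a ≠ 0) :
    GO G (RingHom.ker φ : Set (MvPolynomial σ ℤ)) a ↔ G (loc φ.range (φ a)) := by
  have hspan : Ideal.span (RingHom.ker φ : Set (MvPolynomial σ ℤ)) = RingHom.ker φ :=
    Ideal.span_eq _
  let θ : Rng σ (RingHom.ker φ : Set (MvPolynomial σ ℤ)) →+* K :=
    Ideal.Quotient.lift _ φ (fun b hb => by
      rw [hspan] at hb
      exact hb)
  have hθ : Function.Injective θ := by
    rw [injective_iff_map_eq_zero]
    intro b hb
    obtain ⟨b, rfl⟩ := Ideal.Quotient.mk_surjective b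
    rw [Ideal.Quotient.eq_zero_iff_mem, hspan]
    exact hb
  have hθφ : ∀ b, θ (Ideal.Quotient.mk _ b) = φ b := fun b => rfl
  have hrange : θ.range = φ.range := by
    ext y
    constructor
    · rintro ⟨b, rfl⟩
      obtain ⟨b, rfl⟩ := Ideal.Quotient.mk_surjective b
      exact ⟨b, rfl⟩
    · rintro ⟨b, rfl⟩
      exact ⟨Ideal.Quotient.mk _ b, rfl⟩
  have h1 : ev (tau (RingHom.ker φ : Set (MvPolynomial σ ℤ))) a = Ideal.Quotient.mk _ a :=
    ev_tau _ a
  have h2 : θ (ev (tau (RingHom.ker φ : Set (MvPolynomial σ ℤ))) a) = φ a := by rw [h1]; rfl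
  obtain ⟨e⟩ := loc_ringEquiv θ hθ (ev (tau (RingHom.ker φ : Set (MvPolynomial σ ℤ))) a)
    (by rw [h2]; exact ha)
  have hft : FT (Localization.Away (ev (tau (RingHom.ker φ : Set (MvPolynomial σ ℤ))) a)) :=
    ((rep_rng (RingHom.ker φ : Set (MvPolynomial σ ℤ))).dop a).ft
  have h3 : G (Localization.Away (ev (tau (RingHom.ker φ : Set (MvPolynomial σ ℤ))) a)) ↔
      G (loc θ.range (θ (ev (tau (RingHom.ker φ : Set (MvPolynomial σ ℤ))) a))) :=
    ⟨hG.iso _ _ hft e, hG.iso _ _ (hft.of_surj e.toRingHom e.surjective) e.symm⟩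
  rw [h2, hrange] at h3
  exact (hG.gs_opn_iff _ a).symm.trans h3

omit [Finite σ] in
lemma gs_top : GS G ((⊤ : Ideal (MvPolynomial σ ℤ)) : Set (MvPolynomial σ ℤ)) := by
  refine hG.triv _ ?_
  have h1 : Ideal.span ((⊤ : Ideal (MvPolynomial σ ℤ)) : Set (MvPolynomial σ ℤ)) = ⊤ :=
    Ideal.span_eq _
  exact Ideal.Quotient.subsingleton_iff.mpr h1

/-- **Noetherian induction.** -/
theorem gs_noe {I₀ : Ideal (MvPolynomial σ ℤ)}
    (h : ∀ p : Ideal (MvPolynomial σ ℤ), p.IsPrime → I₀ ≤ p →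
      (∀ J : Ideal (MvPolynomial σ ℤ), p < J → GS G (J : Set (MvPolynomial σ ℤ))) →
      GS G (p : Set (MvPolynomial σ ℤ)))
    (I : Ideal (MvPolynomial σ ℤ)) (hI₀ : I₀ ≤ I) : GS G (I : Set (MvPolynomial σ ℤ)) := by
  revert hI₀
  refine IsNoetherian.induction (P := fun I : Ideal (MvPolynomial σ ℤ) =>
    I₀ ≤ I → GS G (I : Set (MvPolynomial σ ℤ))) (fun (I : Ideal (MvPolynomial σ ℤ)) ih hI₀ => ?_) I
  have ih' : ∀ J : Ideal (MvPolynomial σ ℤ), I < J → GS G (J : Set (MvPolynomial σ ℤ)) :=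
    fun J hJ => ih J hJ (hI₀.trans hJ.le)
  by_cases hI : Ideal.IsPrime I
  · exact h I hI hI₀ ih'
  · rw [Ideal.not_isPrime_iff] at hI
    rcases hI with rfl | ⟨a, ha, b, hb, hab⟩
    · exact gs_top hG
    · have h1 : ∀ (J : Ideal (MvPolynomial σ ℤ)) (c : MvPolynomial σ ℤ), I ≤ J → c ∉ I → c ∈ J →
          I < J := by
        intro J c hJ hc hc'
        exact lt_of_le_of_ne hJ fun h => hc (h ▸ hc')
      have ha' : a ∈ I ⊔ Ideal.span {a} := Ideal.mem_sup_right (Ideal.mem_span_singleton_self a)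
      have hb' : b ∈ I ⊔ Ideal.span {b} := Ideal.mem_sup_right (Ideal.mem_span_singleton_self b)
      have e1 : GS G (insert a (I : Set (MvPolynomial σ ℤ))) :=
        (hG.gs_congr fun _ _ _ => Pt.ideal_insert).mpr
          (ih' _ (h1 (I ⊔ Ideal.span {a}) a le_sup_left ha ha'))
      have e2 : GS G (insert b (I : Set (MvPolynomial σ ℤ))) :=
        (hG.gs_congr fun _ _ _ => Pt.ideal_insert).mpr
          (ih' _ (h1 (I ⊔ Ideal.span {b}) b le_sup_left hb hb'))
      have e3 : GS G (insert a (insert b (I : Set (MvPolynomial σ ℤ)))) := by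
        refine (hG.gs_congr fun _ _ x => ?_).mpr
          (ih' (I ⊔ Ideal.span {b} ⊔ Ideal.span {a}) (h1 _ b (le_sup_left.trans le_sup_left) hb
            (Ideal.mem_sup_left hb')))
        rw [← Pt.ideal_insert (I := I ⊔ Ideal.span {b})]
        simp only [Pt.insert_iff]
        rw [← Pt.ideal_insert (I := I), Pt.insert_iff]
      refine hG.gs_glue e1 ((hG.gl_congr (p' := a) (fun A _ x => ?_)).mpr (hG.gs_opn e2 e3))
      unfold Lc
      rw [Pt.insert_iff]
      constructor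
      · rintro ⟨h2, h3⟩
        refine ⟨⟨?_, h2⟩, h3⟩
        have h4 : ev x (a * b) = 0 := h2 _ hab
        rw [map_mul] at h4
        exact (h3.mul_right_eq_zero).mp h4
      · rintro ⟨⟨_, h2⟩, h3⟩
        exact ⟨h2, h3⟩

/-- **Rings of small transcendence degree are controlled by hypersurfaces in `A^m`.** -/
theorem gs_of_trdeg {m : ℕ} (hH : HypG G m) {I₀ : Ideal (MvPolynomial σ ℤ)}
    (h : ∀ (p : Ideal (MvPolynomial σ ℤ)) [p.IsPrime], I₀ ≤ p →
      Algebra.trdeg (⊥ : Subfield p.ResidueField) p.ResidueField < m)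
    (I : Ideal (MvPolynomial σ ℤ)) (hI₀ : I₀ ≤ I) : GS G (I : Set (MvPolynomial σ ℤ)) := by
  classical
  refine gs_noe hG (fun p hp hp₀ ih => ?_) I hI₀
  have hK := h p hp₀
  have hA := fg_poly σ
  have h1 : Algebra.EssFiniteType ℤ p.ResidueField :=
    Algebra.EssFiniteType.comp ℤ (MvPolynomial σ ℤ) _
  have htower : @IsScalarTower ℤ (⊥ : Subfield p.ResidueField) p.ResidueField
      Algebra.toSMul Algebra.toSMul Algebra.toSMul :=
    IsScalarTower.of_algebraMap_eq' (RingHom.ext_int _ _)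
  have hR := fg_poly (Fin m)
  have h2 : Algebra.EssFiniteType (⊥ : Subfield p.ResidueField) p.ResidueField :=
    Algebra.EssFiniteType.of_comp ℤ (⊥ : Subfield p.ResidueField) p.ResidueField
  obtain ⟨z, hz⟩ := exists_generators hK
  let φ : MvPolynomial σ ℤ →+* p.ResidueField := algebraMap (MvPolynomial σ ℤ) p.ResidueField
  let ψ : MvPolynomial (Fin m) ℤ →+* p.ResidueField :=
    ((aeval z : MvPolynomial (Fin m) ℤ →ₐ[ℤ] p.ResidueField) :
      MvPolynomial (Fin m) ℤ →+* p.ResidueField)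
  have hrange : Subring.closure (Set.range z) ≤ ψ.range := by
    rw [Subring.closure_le]
    rintro _ ⟨i, rfl⟩
    exact ⟨X i, aeval_X z i⟩
  have hψ : ∀ x : p.ResidueField, ∃ a b : MvPolynomial (Fin m) ℤ, ψ b ≠ 0 ∧ x * ψ b = ψ a := by
    intro x
    have hx : x ∈ Subfield.closure (Set.range z) := by rw [hz]; trivial
    obtain ⟨y, hy, w, hw, hyw⟩ := Subfield.mem_closure_iff.mp hx
    obtain ⟨a, ha⟩ := hrange hy
    obtain ⟨b, hb⟩ := hrange hw
    by_cases h0 : w = 0
    · refine ⟨0, 1, by simp, ?_⟩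
      rw [← hyw, h0]; simp
    · refine ⟨a, b, by rw [hb]; exact h0, ?_⟩
      rw [ha, hb, ← hyw]; field_simp
  obtain ⟨a, g, ha, hg, heq⟩ := bir_loc φ ψ (exists_frac p) hψ
  obtain ⟨S, hS⟩ := (inferInstance : IsNoetherianRing (MvPolynomial (Fin m) ℤ)).noetherian
    (RingHom.ker ψ)
  have hS' : Ideal.span (S : Set (MvPolynomial (Fin m) ℤ)) = RingHom.ker ψ := hS
  have hker : RingHom.ker φ = p := ker_residue p
  have hap : a ∉ p := by
    intro hap
    apply ha
    have : a ∈ RingHom.ker φ := by rw [hker]; exact hap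
    exact this
  have h3 : GO G (RingHom.ker ψ : Set (MvPolynomial (Fin m) ℤ)) g := by
    refine (hG.gl_congr fun A _ x => ?_).mp (go_mem hG hH S g)
    unfold Lc
    rw [Pt.congr_span (E := (S : Set (MvPolynomial (Fin m) ℤ)))
      (E' := (RingHom.ker ψ : Set (MvPolynomial (Fin m) ℤ))) (by rw [hS', Ideal.span_eq])]
  have h4 : GO G (RingHom.ker φ : Set (MvPolynomial σ ℤ)) a := by
    rw [go_loc hG φ a ha, heq, ← go_loc hG ψ g hg]
    exact h3
  rw [hker] at h4
  refine hG.gs_glue ((hG.gs_congr fun _ _ _ => Pt.ideal_insert).mpr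
    (ih (p ⊔ Ideal.span {a}) ?_)) h4
  refine lt_of_le_of_ne le_sup_left fun h => hap ?_
  rw [h]
  exact Ideal.mem_sup_right (Ideal.mem_span_singleton_self a)

end

/-- **Rings of small transcendence degree are controlled by hypersurfaces in `A^m`.** -/
theorem g_of_trdeg (hG : RG G) {m : ℕ} (hH : HypG G m) {R : Type} [CommRing R] (hR : FT R)
    (h : ∀ (q : Ideal R) [q.IsPrime],
      Algebra.trdeg (⊥ : Subfield q.ResidueField) q.ResidueField < m) : G R := by
  obtain ⟨n, π, hπ⟩ := hR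
  have h1 : GS G (RingHom.ker π : Set (MvPolynomial (Fin n) ℤ)) := by
    refine gs_of_trdeg hG hH (I₀ := RingHom.ker π) (fun p _ hp => ?_) _ le_rfl
    have hq : (p.map π).IsPrime := Ideal.map_isPrime_of_surjective hπ hp
    have hc : p = (p.map π).comap π := (Ideal.comap_map_of_surjective' π hπ p).symm ▸
      (sup_eq_left.mpr hp).symm
    exact lt_of_le_of_lt (trdeg_le_of_hom (Ideal.ResidueField.map p (p.map π) π hc))
      (h (p.map π))
  have hspan : Ideal.span (RingHom.ker π : Set (MvPolynomial (Fin n) ℤ)) = RingHom.ker π :=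
    Ideal.span_eq _
  have e : Rng (Fin n) (RingHom.ker π : Set (MvPolynomial (Fin n) ℤ)) ≃+* R :=
    (Ideal.quotEquivOfEq hspan).trans (RingHom.quotientKerEquivOfSurjective hπ)
  exact hG.iso _ _ (ft_rng _) e h1

end Pool.Agent.Helper81.HG
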