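import Pool.Agent.Helper81.HG.Dim

/-!
# From rings of small transcendence degree to hypersurfaces
-/

set_option autoImplicit false

open MvPolynomial
open Pool.Agent.Helper81.CP Pool.Agent.Helper81.HI

namespace Pool.Agent.Helper81.HG

variable {G : ∀ (R : Type) [CommRing R], Prop}

/-- the residue fields of quotients of the ring of integers are prime fields -/
lemma trdeg_of_int {R : Type} [CommRing R] (hR : ∀ r : R, ∃ n : ℤ, r = n) (q : Ideal R)
    [q.IsPrime] : Algebra.trdeg (⊥ : Subfield q.ResidueField) q.ResidueField = 0 := by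
  have h : Algebra.IsAlgebraic (⊥ : Subfield q.ResidueField) q.ResidueField := by
    refine ⟨fun x => ?_⟩
    have hx : x ∈ (⊥ : Subfield q.ResidueField) := by
      obtain ⟨a, b, hb, hx⟩ := exists_frac q x
      obtain ⟨n, rfl⟩ := hR a
      obtain ⟨l, rfl⟩ := hR b
      rw [map_intCast] at hb hx
      rw [map_intCast] at hx
      have h1 : x = (n : q.ResidueField) / (l : q.ResidueField) := by
        rw [eq_div_iff hb, hx]
      rw [h1]
      exact Subfield.div_mem _ (intCast_mem _ n) (intCast_mem _ l)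
    exact isAlgebraic_algebraMap (⟨x, hx⟩ : (⊥ : Subfield q.ResidueField))
  exact trdeg_eq_zero_iff.mpr h

lemma exists_int (E : Set (MvPolynomial Empty ℤ)) (r : Rng Empty E) : ∃ n : ℤ, r = n := by
  obtain ⟨r, rfl⟩ := Ideal.Quotient.mk_surjective r
  obtain ⟨n, rfl⟩ := MvPolynomial.C_surjective Empty r
  refine ⟨n, ?_⟩
  rw [← map_intCast (Ideal.Quotient.mk (Ideal.span E))]
  simp

/-- **Rings of small transcendence degree control hypersurfaces in `A^m`.** -/
theorem hypG_of_D (hG : RG G) {m : ℕ} (hm : 0 < m)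
    (hD : ∀ (R : Type) [CommRing R], FT R → (∀ (q : Ideal R) [q.IsPrime],
      Algebra.trdeg (⊥ : Subfield q.ResidueField) q.ResidueField < m) → G R) : HypG G m := by
  have hR := fg_poly (Fin m)
  have hint : ∀ E : Set (MvPolynomial Empty ℤ), GS G E := fun E =>
    hD _ (ft_rng E) fun q _ => by
      rw [trdeg_of_int (exists_int E) q]
      exact_mod_cast hm
  have key : ∀ I : Ideal (MvPolynomial (Fin m) ℤ), GS G (I : Set (MvPolynomial (Fin m) ℤ)) := by
    intro I
    refine gs_noe hG (I₀ := ⊥) (fun p hp _ _ => ?_) I bot_le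
    by_cases h0 : p = ⊥
    · subst h0
      refine (hG.gs_congr fun A _ x => ?_).mp (gs_affine_of_base hG (hint ∅) (Fin m))
      refine Pt.congr_span ?_
      rw [Ideal.span_empty, Ideal.span_eq]
    by_cases h1 : ∃ ℓ : ℕ, ℓ.Prime ∧ p = Ideal.span {C (ℓ : ℤ)}
    · obtain ⟨ℓ, hℓ, rfl⟩ := h1
      have h2 := hint {C (ℓ : ℤ)}
      rw [← hG.gs_emb (Empty.elim : Empty → Fin m) (fun x => x.elim), Set.image_singleton,
        rename_C] at h2
      refine (hG.gs_congr fun A _ x => ?_).mp h2
      exact Pt.congr_span (by rw [Ideal.span_eq])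
    have hspan : Ideal.span (p : Set (MvPolynomial (Fin m) ℤ)) = p := Ideal.span_eq p
    refine hD _ (ft_rng _) fun q hq => ?_
    by_contra hlt
    rw [not_lt] at hlt
    let θ : MvPolynomial (Fin m) ℤ →+* q.ResidueField :=
      (algebraMap (Rng (Fin m) (p : Set (MvPolynomial (Fin m) ℤ))) q.ResidueField).comp
        (Ideal.Quotient.mk _)
    have hpθ : p ≤ RingHom.ker θ := by
      intro f hf
      show algebraMap (Rng (Fin m) (p : Set (MvPolynomial (Fin m) ℤ))) q.ResidueField
        (Ideal.Quotient.mk _ f) = 0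
      rw [Ideal.Quotient.eq_zero_iff_mem.mpr (by rw [hspan]; exact hf), map_zero]
    have hθ : ∀ x : q.ResidueField, ∃ a b, θ b ≠ 0 ∧ x * θ b = θ a := by
      intro x
      obtain ⟨a, b, hb, hx⟩ := exists_frac q x
      obtain ⟨a, rfl⟩ := Ideal.Quotient.mk_surjective a
      obtain ⟨b, rfl⟩ := Ideal.Quotient.mk_surjective b
      exact ⟨a, b, hb, hx⟩
    rcases ker_of_trdeg θ hθ hlt with h2 | ⟨ℓ, hℓ, h2⟩
    · exact h0 (le_bot_iff.mp (h2 ▸ hpθ))
    · exact h1 ⟨ℓ, hℓ, eq_of_le_span hℓ p hp h0 (h2 ▸ hpθ)⟩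
  intro f
  refine (hG.gs_congr fun A _ x => ?_).mp (key (Ideal.span {f}))
  exact Pt.congr_span (by rw [Ideal.span_eq])

end Pool.Agent.Helper81.HG
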