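import Pool.Agent.Helper81.HG.Pen
import Pool.Agent.Helper81.HI.Cnt

/-!
# Trilinear forms control hypersurfaces
-/

set_option autoImplicit false

open MvPolynomial
open Pool.Agent.Helper81.CP Pool.Agent.Helper81.HI

namespace Pool.Agent.Helper81.HG

variable {G : ∀ (R : Type) [CommRing R], Prop}

lemma ev_eq_aeval {σ A : Type} [CommRing A] (x : σ → A) (f : MvPolynomial σ ℤ) :
    ev x f = aeval x f := by
  rw [aeval_def, algebraMap_int_eq]
  rfl

lemma map_mv {N D : ℕ} {A B : Type} [CommRing A] [CommRing B] (φ : A →+* B) (x : Fin N → A)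
    (m : Mn N D) : φ (mv x m) = mv (fun i => φ (x i)) m := by
  unfold mv
  rw [map_prod]
  exact Finset.prod_congr rfl fun i _ => map_pow φ _ _

lemma map_can {N : ℕ} (f : MvPolynomial (Fin N) ℤ) {A B : Type} [CommRing A] [CommRing B]
    (φ : A →+* B) (x : Fin N → A) (t : A) (j : JJ f) :
    φ (can f x t j) = can f (fun i => φ (x i)) (φ t) j := by
  unfold can
  rw [map_mul, map_mul, map_mv]
  congr 1
  split_ifs <;> simp

variable (hG : RG G)

include hG

lemma ts_reindex {m : ℕ} {I J I' J' : Type} [Fintype I] [Fintype J] [Fintype I'] [Fintype J']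
    (e : I ≃ I') (e' : J ≃ J') (M : Fin m → I' → J' → ℤ) :
    GS G {TS M} ↔ GS G {TS fun l i j => M l (e i) (e' j)} := by
  have key : ∀ {A : Type} [CommRing A] (x : Fin m → A) (z : I' → A) (y : J' → A),
      ∑ l, ∑ i, ∑ j, (M l i j : A) * (x l * z i * y j) =
      ∑ l, ∑ i, ∑ j, (M l (e i) (e' j) : A) * (x l * z (e i) * y (e' j)) := by
    intro A _ x z y
    refine Finset.sum_congr rfl fun l _ => ?_
    rw [← Equiv.sum_comp e]
    refine Finset.sum_congr rfl fun i _ => ?_
    rw [← Equiv.sum_comp e']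
  refine hG.gs_iso
    (fun A _ x => Sum.elim (fun l => x (Sum.inl l))
      (Sum.elim (fun i => x (Sum.inr (Sum.inl (e i)))) (fun j => x (Sum.inr (Sum.inr (e' j))))))
    (fun A _ x => Sum.elim (fun l => x (Sum.inl l))
      (Sum.elim (fun i => x (Sum.inr (Sum.inl (e.symm i))))
        (fun j => x (Sum.inr (Sum.inr (e'.symm j))))))
    ?_ ?_ ?_ ?_ ?_ ?_
  · intro A B _ _ φ x _ j
    rcases j with j | j | j <;> rfl
  · intro A B _ _ φ x _ j
    rcases j with j | j | j <;> rfl
  · intro A _ x hx
    rw [Pt.ts_iff] at hx ⊢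
    rw [key (fun l => x (Sum.inl l)) (fun i => x (Sum.inr (Sum.inl i)))
      (fun j => x (Sum.inr (Sum.inr j)))] at hx
    exact hx
  · intro A _ x hx
    rw [Pt.ts_iff] at hx ⊢
    refine (key (fun l => x (Sum.inl l)) (fun i => x (Sum.inr (Sum.inl (e.symm i))))
      (fun j => x (Sum.inr (Sum.inr (e'.symm j))))).trans ?_
    simpa using hx
  · intro A _ x _
    funext i
    rcases i with i | i | i <;> simp
  · intro A _ x _
    funext i
    rcases i with i | i | i <;> simp

lemma ts_of_finset {m : ℕ}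
    (hT : ∀ (a b : ℕ) (T : Finset (Fin m × Fin a × Fin b)), GS G {TS (ofT T)})
    {I J : Type} [Fintype I] [Fintype J] (M : Fin m → I → J → ℤ)
    (h : ∀ l i j, M l i j = 0 ∨ M l i j = 1) : GS G {TS M} := by
  classical
  let e : I ≃ Fin (Fintype.card I) := Fintype.equivFin I
  let e' : J ≃ Fin (Fintype.card J) := Fintype.equivFin J
  rw [ts_reindex hG e.symm e'.symm M]
  have h1 : (fun l i j => M l (e.symm i) (e'.symm j)) = ofT (Finset.univ.filter
      (fun t : Fin m × Fin (Fintype.card I) × Fin (Fintype.card J) =>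
        M t.1 (e.symm t.2.1) (e'.symm t.2.2) = 1)) := by
    funext l i j
    unfold ofT
    simp only [Finset.mem_filter, Finset.mem_univ, true_and]
    rcases h l (e.symm i) (e'.symm j) with h2 | h2 <;> rw [h2] <;> simp
  rw [h1]
  exact hT _ _ _

lemma ks_of_finset {m : ℕ}
    (hT : ∀ (a b : ℕ) (T : Finset (Fin m × Fin a × Fin b)), GS G {TS (ofT T)})
    {I J : Type} [Fintype I] [Fintype J] (M : Fin m → I → J → ℤ)
    (h : ∀ l i j, M l i j = 0 ∨ M l i j = 1) : GS G (KS M) := by
  classical
  refine ks_of_ts hG fun B => ts_of_finset hG hT _ fun l i j => ?_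
  unfold zr
  split_ifs
  · exact h l i j
  · exact Or.inl rfl

/-- the solutions with `x_0 = 1` of the encoding -/
lemma ka_enc {N : ℕ} (f : MvPolynomial (Fin N) ℤ) :
    GS G (KA (enc f)) ↔
      GS G ({rename some f * X none} : Set (MvPolynomial (Option (Fin N)) ℤ)) := by
  have hpt : ∀ {A : Type} [CommRing A] (x : Option (Fin N) → A),
      Pt ({rename some f * X none} : Set (MvPolynomial (Option (Fin N)) ℤ)) x ↔
        aeval (fun i => x (some i)) f * x none = 0 := by
    intro A _ x
    simp only [Pt, Set.mem_singleton_iff, forall_eq]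
    rw [map_mul, ev_rename, ev_X, ev_eq_aeval]
  refine hG.gs_iso
    (fun A _ x => fun o => o.elim (x (Sum.inr (fun _ => 0, 0, false)))
      (fun i => x (Sum.inl i)))
    (fun A _ y => Sum.elim (fun i => y (some i)) (can f (fun i => y (some i)) (y none)))
    ?_ ?_ ?_ ?_ ?_ ?_
  · intro A B _ _ φ x _ j
    rcases j with _ | j <;> rfl
  · intro A B _ _ φ y _ i
    rcases i with i | i
    · rfl
    · exact map_can f φ _ _ i
  · intro A _ x hx
    rw [Pt.ka_iff] at hx
    rw [hpt]
    have h1 := enc_sol f (fun i => x (Sum.inl i)) (fun j => x (Sum.inr j)) hx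
    have h2 := hx (Sum.inr (Sum.inr ()))
    have h3 := row3 f (fun i => x (Sum.inl i)) (fun j => x (Sum.inr j))
    rw [h3, Finset.sum_congr rfl fun j _ => congrArg (fun t => ((d1 (sel f j) : ℤ) : A) * t)
      (congrFun h1 j), sum_sel] at h2
    exact h2
  · intro A _ y hy
    rw [hpt] at hy
    rw [Pt.ka_iff]
    exact enc_can f _ _ hy
  · intro A _ x hx
    rw [Pt.ka_iff] at hx
    have h1 := enc_sol f (fun i => x (Sum.inl i)) (fun j => x (Sum.inr j)) hx
    funext i
    rcases i with i | i
    · rfl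
    · exact (congrFun h1 i).symm
  · intro A _ y _
    funext o
    rcases o with _ | i
    · show can f (fun i => y (some i)) (y none) (fun _ => 0, 0, false) = y none
      simp [can, mv]
    · rfl

/-- from `f(x) t = 0` to `f(x) = 0` -/
lemma gs_of_mul {N : ℕ} (f : MvPolynomial (Fin N) ℤ)
    (h0 : GS G (∅ : Set (MvPolynomial (Fin N) ℤ)))
    (h : GS G ({rename some f * X none} : Set (MvPolynomial (Option (Fin N)) ℤ))) :
    GS G {f} := by
  classical
  -- the part `t = 0`
  have h1 : GS G (insert (X none) ({rename some f * X none} :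
      Set (MvPolynomial (Option (Fin N)) ℤ))) := by
    refine (hG.gs_iso (fun A _ x => fun o => o.elim 0 x) (fun A _ y i => y (some i))
      ?_ ?_ ?_ ?_ ?_ ?_).mp h0
    · intro A B _ _ φ x _ o
      rcases o with _ | i
      · exact map_zero φ
      · rfl
    · intro A B _ _ φ y _ i; rfl
    · intro A _ x _
      simp [Pt]
    · intro A _ y _
      simp [Pt]
    · intro A _ x _; rfl
    · intro A _ y hy
      rw [Pt.insert_iff, ev_X] at hy
      funext o
      rcases o with _ | i
      · exact hy.1.symm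
      · rfl
  have h2 : GS G (dop (X none) ({rename some f * X none} :
      Set (MvPolynomial (Option (Fin N)) ℤ))) := hG.gs_opn h h1
  have h3 : GS G (dop (X none) (lft {f})) := by
    refine (hG.gs_congr fun A _ x => ?_).mp h2
    rw [Pt.dop_iff, Pt.dop_iff, Pt.lft_iff, ev_X]
    refine and_congr_right fun hu => ?_
    simp only [Pt, Set.mem_singleton_iff, forall_eq, map_mul, ev_rename, ev_X]
    constructor
    · intro h
      have h4 := congrArg (fun t => x none * t) h
      simp only [mul_zero] at h4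
      rw [mul_left_comm, hu, mul_one] at h4
      exact h4
    · intro h
      rw [h, zero_mul]
  exact hG.gs_gm h3

/-- **Trilinear forms with coefficients 0 and 1 and `N + 1` variables in the first group control
hypersurfaces in `A^N`.** -/
theorem hypG_of_ts {N : ℕ}
    (hT : ∀ (a b : ℕ) (T : Finset (Fin (N + 1) × Fin a × Fin b)), GS G {TS (ofT T)}) :
    HypG G N := by
  classical
  have h0 : GS G (∅ : Set (MvPolynomial Empty ℤ)) := by
    have h1 := hT 0 0 ∅
    have h2 : GS G (∅ : Set (MvPolynomial (Fin (N + 1) ⊕ Fin 0 ⊕ Fin 0) ℤ)) := by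
      refine (hG.gs_congr fun A _ x => ?_).mp h1
      rw [Pt.ts_iff]
      simp [Pt]
    rw [← hG.gs_emb (Empty.elim : Empty → Fin (N + 1) ⊕ Fin 0 ⊕ Fin 0) (fun x => x.elim),
      Set.image_empty]
    exact h2
  intro f
  have h1 : GS G (KS (enc f)) := ks_of_finset hG hT _ (enc_01 f)
  have h2 : GS G (KS (encInf f)) := ks_of_finset hG hT _ (encInf_01 f)
  have h3 : GS G (KS fun l => enc f (Fin.succ l)) := (ks_of_zero hG (encInf f)
    (fun i j => rfl)).mp h2
  have h4 : GS G (KA (enc f)) := ka_of hG h1 h3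
  exact gs_of_mul hG f (gs_affine_of_base hG h0 (Fin N)) ((ka_enc hG f).mp h4)

end Pool.Agent.Helper81.HG
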