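import Pool.Agent.Helper81.CP.Good

/-!
# Descent along `GL₂`
-/

set_option autoImplicit false

open MvPolynomial
open Pool.Agent.Helper81.CP

namespace Pool.Agent.Helper81.HG

variable {Q : ∀ (R : Type) [CommRing R], ℤ → Prop}

/-- the determinant of the four additional coordinates -/
noncomputable def dt (σ : Type) : MvPolynomial (σ ⊕ Fin 4) ℤ :=
  X (Sum.inr 0) * X (Sum.inr 3) - X (Sum.inr 1) * X (Sum.inr 2)

/-- the system `E` with four additional coordinates, those in `S` being zero -/
noncomputable def FS {σ : Type} (E : Set (MvPolynomial σ ℤ)) (S : Finset (Fin 4)) :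
    Set (MvPolynomial (σ ⊕ Fin 4) ℤ) :=
  rename Sum.inl '' E ∪ (fun i => X (Sum.inr i)) '' (S : Set (Fin 4))

lemma Pt.fs_iff {σ : Type} {E : Set (MvPolynomial σ ℤ)} {S : Finset (Fin 4)} {A : Type}
    [CommRing A] {x : σ ⊕ Fin 4 → A} :
    Pt (FS E S) x ↔ Pt E (fun i => x (Sum.inl i)) ∧ ∀ i ∈ S, x (Sum.inr i) = 0 := by
  unfold FS Pt
  simp only [Set.mem_union, or_imp, forall_and, Set.forall_mem_image, ev_rename, ev_X,
    Finset.mem_coe]

lemma ev_dt {σ A : Type} [CommRing A] (x : σ ⊕ Fin 4 → A) : ev x (dt σ) =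
    x (Sum.inr 0) * x (Sum.inr 3) - x (Sum.inr 1) * x (Sum.inr 2) := by
  unfold dt
  rw [map_sub, map_mul, map_mul]
  simp only [ev_X]

section

variable (hQ : RingCP Q) {σ : Type} [Finite σ] (E : Set (MvPolynomial σ ℤ))

include hQ

lemma qs_fs_step {S : Finset (Fin 4)} {i : Fin 4} (hi : i ∉ S) (s : ℤ) :
    QS Q (FS E S) (s + 1) ↔ QS Q (FS E (insert i S)) s := by
  classical
  rw [hQ.qs_free (FS E S) (Sum.inr i) ?_ s]
  · refine hQ.qs_congr (fun A _ x => ?_) s
    rw [Pt.insert_iff, Pt.fs_iff, Pt.fs_iff, ev_X]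
    simp only [Finset.mem_insert, forall_eq_or_imp]
    tauto
  · intro A _ x y hxy hx
    rw [Pt.fs_iff] at hx ⊢
    have h1 : (fun i => y (Sum.inl i)) = fun i => x (Sum.inl i) :=
      funext fun i => hxy (Sum.inl i) (by simp)
    rw [h1]
    refine ⟨hx.1, fun j hj => ?_⟩
    rw [hxy (Sum.inr j) (by
      intro h
      rw [Sum.inr.inj_iff] at h
      exact hi (h ▸ hj))]
    exact hx.2 j hj

lemma qs_fs_univ (s : ℤ) : QS Q (FS E Finset.univ) s ↔ QS Q E s := by
  refine hQ.qs_iso (fun A _ x i => x (Sum.inl i)) (fun A _ y => Sum.elim y (fun _ => 0))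
    ?_ ?_ ?_ ?_ ?_ ?_ s
  · intro A B _ _ φ x _ j; rfl
  · intro A B _ _ φ y _ i
    rcases i with i | i
    · rfl
    · exact map_zero φ
  · intro A _ x hx
    rw [Pt.fs_iff] at hx
    exact hx.1
  · intro A _ y hy
    rw [Pt.fs_iff]
    exact ⟨hy, fun i _ => rfl⟩
  · intro A _ x hx
    rw [Pt.fs_iff] at hx
    funext i
    rcases i with i | i
    · rfl
    · exact (hx.2 i (Finset.mem_univ i)).symm
  · intro A _ y _; rfl

lemma qs_fs (k : ℕ) : ∀ S : Finset (Fin 4), Sᶜ.card = k → ∀ s : ℤ,
    (QS Q (FS E S) (s + k) ↔ QS Q E s) := by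
  classical
  induction k with
  | zero =>
    intro S hS s
    have : S = Finset.univ := by
      rw [Finset.card_eq_zero] at hS
      rw [← compl_compl S, hS]
      simp
    rw [this, Nat.cast_zero, add_zero]
    exact qs_fs_univ hQ E s
  | succ k ih =>
    intro S hS s
    obtain ⟨i, hi⟩ : Sᶜ.Nonempty := by
      rw [← Finset.card_pos]; omega
    have hi' : i ∉ S := Finset.mem_compl.mp hi
    have h1 : (insert i S)ᶜ.card = k := by
      rw [Finset.compl_insert, Finset.card_erase_of_mem hi, hS]; rfl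
    rw [← ih (insert i S) h1 s, ← qs_fs_step hQ E hi']
    push_cast
    rw [add_assoc]

/-- the singular matrices -/
lemma qs_sing {t : ℤ} (h : ∀ s, t ≤ s → QS Q E s) :
    QS Q (insert (dt σ) (FS E ∅)) (t + 3) := by
  classical
  have hfs : ∀ (S : Finset (Fin 4)) (k : ℕ), Sᶜ.card = k → k ≤ 3 → QS Q (FS E S) (t + 3) := by
    intro S k hk hk3
    have h1 := (qs_fs hQ E k S hk (t + 3 - k)).mpr (h _ (by
      have : (k : ℤ) ≤ 3 := by exact_mod_cast hk3
      linarith))
    rwa [sub_add_cancel] at h1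
  have h3 : QS Q (FS E {3}) (t + 3) := hfs {3} 3 (by decide) (by norm_num)
  have h03 : QS Q (FS E {0, 3}) (t + 3) := hfs {0, 3} 2 (by decide) (by norm_num)
  have h01 : QS Q (FS E {0, 1}) (t + 3) := hfs {0, 1} 2 (by decide) (by norm_num)
  have h02 : QS Q (FS E {0, 2}) (t + 3) := hfs {0, 2} 2 (by decide) (by norm_num)
  have h012 : QS Q (FS E {0, 1, 2}) (t + 3) := hfs {0, 1, 2} 1 (by decide) (by norm_num)
  refine hQ.glue' (p := X (Sum.inr 0)) ?_ ?_
  · refine hQ.glue' (p := X (Sum.inr 1)) ?_ ?_
    · refine (hQ.qs_congr (fun A _ x => ?_) (t + 3)).mp h01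
      simp only [Pt.insert_iff, Pt.fs_iff, ev_X, ev_dt, Finset.mem_insert,
        Finset.mem_singleton, forall_eq_or_imp, forall_eq, Finset.notMem_empty, false_implies,
        implies_true, and_true]
      constructor
      · rintro ⟨h1, h2, h3⟩
        exact ⟨h3, h2, by rw [h2, h3]; ring, h1⟩
      · rintro ⟨h1, h2, _, h4⟩
        exact ⟨h4, h2, h1⟩
    · have h1 : QS Q (dop (X (Sum.inr 1)) (FS E {0, 2})) (t + 3) := by
        refine hQ.opn' h02 ((hQ.qs_congr (fun A _ x => ?_) (t + 3)).mp h012)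
        simp only [Pt.insert_iff, Pt.fs_iff, ev_X, Finset.mem_insert,
          Finset.mem_singleton, forall_eq_or_imp, forall_eq]
        tauto
      refine (hQ.qs_congr (fun A _ x => ?_) (t + 3)).mp h1
      simp only [Pt.dop_iff, Pt.insert_iff, Pt.fs_iff, ev_X, ev_dt, Finset.mem_insert,
        Finset.mem_singleton, forall_eq_or_imp, forall_eq, Finset.notMem_empty, false_implies,
        implies_true, and_true]
      constructor
      · rintro ⟨h1, h2, h3, h4⟩
        exact ⟨h1, h3, by rw [h3, h4]; ring, h2⟩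
      · rintro ⟨h1, h2, h3, h4⟩
        refine ⟨h1, h4, h2, ?_⟩
        rw [h2, zero_mul, zero_sub, neg_eq_zero] at h3
        have h5 := congrArg (fun z => x none * z) h3
        simpa [← mul_assoc, h1] using h5
  · have h1 : QS Q (dop (X (Sum.inr 0)) (FS E {3})) (t + 3) := by
      refine hQ.opn' h3 ((hQ.qs_congr (fun A _ x => ?_) (t + 3)).mp h03)
      simp only [Pt.insert_iff, Pt.fs_iff, ev_X, Finset.mem_insert,
        Finset.mem_singleton, forall_eq_or_imp, forall_eq]
      tauto
    refine (hQ.qs_iso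
      (fun A _ x => fun o => o.elim (x none) (Sum.elim (fun i => x (some (Sum.inl i)))
        ![x (some (Sum.inr 0)), x (some (Sum.inr 1)), x (some (Sum.inr 2)),
          x none * (x (some (Sum.inr 1)) * x (some (Sum.inr 2)))]))
      (fun A _ y => fun o => o.elim (y none) (Sum.elim (fun i => y (some (Sum.inl i)))
        ![y (some (Sum.inr 0)), y (some (Sum.inr 1)), y (some (Sum.inr 2)), 0]))
      ?_ ?_ ?_ ?_ ?_ ?_ (t + 3)).mp h1
    · intro A B _ _ φ x _ o
      rcases o with _ | i | i
      · rfl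
      · rfl
      · fin_cases i <;> simp
    · intro A B _ _ φ x _ o
      rcases o with _ | i | i
      · rfl
      · rfl
      · fin_cases i <;> simp
    · intro A _ x hx
      simp only [Pt.dop_iff, Pt.fs_iff, ev_X, Finset.mem_singleton, forall_eq] at hx
      simp only [Pt.dop_iff, Pt.insert_iff, Pt.fs_iff, ev_X, ev_dt, Finset.notMem_empty,
        false_implies, implies_true, and_true]
      obtain ⟨h1, h2, h3⟩ := hx
      refine ⟨h1, ?_, h2⟩
      show x (some (Sum.inr 0)) * (x none * (x (some (Sum.inr 1)) * x (some (Sum.inr 2)))) -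
        x (some (Sum.inr 1)) * x (some (Sum.inr 2)) = 0
      linear_combination (x (some (Sum.inr 1)) * x (some (Sum.inr 2))) * h1
    · intro A _ y hy
      simp only [Pt.dop_iff, Pt.insert_iff, Pt.fs_iff, ev_X, ev_dt, Finset.notMem_empty,
        false_implies, implies_true, and_true] at hy
      simp only [Pt.dop_iff, Pt.fs_iff, ev_X, Finset.mem_singleton, forall_eq]
      exact ⟨hy.1, hy.2.2, rfl⟩
    · intro A _ x hx
      simp only [Pt.dop_iff, Pt.fs_iff, ev_X, Finset.mem_singleton, forall_eq] at hx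
      funext o
      rcases o with _ | i | i
      · rfl
      · rfl
      · fin_cases i
        · rfl
        · rfl
        · rfl
        · exact hx.2.2.symm
    · intro A _ y hy
      simp only [Pt.dop_iff, Pt.insert_iff, Pt.fs_iff, ev_X, ev_dt, Finset.notMem_empty,
        false_implies, implies_true, and_true] at hy
      obtain ⟨h1, h2, h3⟩ := hy
      funext o
      rcases o with _ | i | i
      · rfl
      · rfl
      · fin_cases i
        · rfl
        · rfl
        · rfl
        · show y none * (y (some (Sum.inr 1)) * y (some (Sum.inr 2))) = y (some (Sum.inr 3))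
          linear_combination (y (some (Sum.inr 3))) * h1 - y none * h2

/-- **Descent along `GL₂`.** -/
theorem good_gl2 (h : Good Q (dop (dt σ) (rename Sum.inl '' E))) : Good Q E := by
  have h' : Good Q (dop (dt σ) (FS E ∅)) := by
    refine (hQ.good_congr fun A _ x => ?_).mp h
    rw [Pt.dop_iff, Pt.dop_iff, Pt.fs_iff]
    simp only [Pt, Set.forall_mem_image, ev_rename, Finset.notMem_empty, false_implies,
      implies_true, and_true]
  obtain ⟨s₀, hs₀⟩ := hQ.bdd _ (ft_rng E)
  have key : ∀ n : ℕ, ∀ s : ℤ, s₀ - n ≤ s → QS Q E s := by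
    intro n
    induction n with
    | zero =>
      intro s hs
      exact hs₀ s (by simpa using hs)
    | succ n ih =>
      intro s hs
      have h1 : QS Q (insert (dt σ) (FS E ∅)) (s + 4) := by
        have := qs_sing hQ E (t := s + 1) fun r hr =>
          ih r (by push_cast at hs; linarith)
        have h4 : s + 1 + 3 = s + 4 := by ring
        rwa [h4] at this
      have h2 : QS Q (FS E ∅) (s + 4) := hQ.glue' h1 (h' (s + 4))
      exact (qs_fs hQ E 4 ∅ (by decide) s).mp h2
  intro s
  exact key (s₀ - s).toNat s (by have := Int.self_le_toNat (s₀ - s); linarith)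

end

end Pool.Agent.Helper81.HG
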