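import Pool.Agent.Helper81.HG.Mix

/-!
# Linear systems with polynomial coefficients
-/

set_option autoImplicit false

open MvPolynomial
open Pool.Agent.Helper81.CP

namespace Pool.Agent.Helper81.HG

variable {G : ∀ (R : Type) [CommRing R], Prop}

/-- the hypersurfaces in affine `m`-space belong to the class -/
def HypG (G : ∀ (R : Type) [CommRing R], Prop) (m : ℕ) : Prop :=
  ∀ f : MvPolynomial (Fin m) ℤ, GS G {f}

/-- linear equations with polynomial coefficients -/
noncomputable def LS {m a : ℕ} {ι : Type} (S : Set (MvPolynomial (Fin m) ℤ))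
    (M : ι → Fin a → MvPolynomial (Fin m) ℤ) : Set (MvPolynomial (Fin m ⊕ Fin a) ℤ) :=
  rename Sum.inl '' S ∪ Set.range fun i => ∑ j, rename Sum.inl (M i j) * X (Sum.inr j)

lemma Pt.ls_iff {m a : ℕ} {ι : Type} {S : Set (MvPolynomial (Fin m) ℤ)}
    {M : ι → Fin a → MvPolynomial (Fin m) ℤ} {A : Type} [CommRing A] {x : Fin m ⊕ Fin a → A} :
    Pt (LS S M) x ↔ Pt S (fun i => x (Sum.inl i)) ∧
      ∀ i, ∑ j, ev (fun i => x (Sum.inl i)) (M i j) * x (Sum.inr j) = 0 := by
  unfold LS Pt
  simp only [Set.mem_union, or_imp, forall_and, Set.forall_mem_image, Set.forall_mem_range,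
    ev_rename, map_sum, map_mul, ev_X]

variable (hG : RG G)

section

variable {m a : ℕ} {ι : Type} {S : Set (MvPolynomial (Fin m) ℤ)} {g : MvPolynomial (Fin m) ℤ}

/-- the solutions of a linear system over a locally closed subset -/
def WG (G : ∀ (R : Type) [CommRing R], Prop) (S : Set (MvPolynomial (Fin m) ℤ))
    (g : MvPolynomial (Fin m) ℤ) (M : ι → Fin a → MvPolynomial (Fin m) ℤ) : Prop :=
  GO G (LS S M) (rename Sum.inl g)

lemma lc_ls {M : ι → Fin a → MvPolynomial (Fin m) ℤ} {A : Type} [CommRing A]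
    {x : Fin m ⊕ Fin a → A} : Lc (LS S M) (rename Sum.inl g) x ↔
      Lc S g (fun i => x (Sum.inl i)) ∧
      ∀ i, ∑ j, ev (fun i => x (Sum.inl i)) (M i j) * x (Sum.inr j) = 0 := by
  unfold Lc
  rw [Pt.ls_iff, ev_rename]
  tauto

include hG

lemma wg_zero {M : ι → Fin 0 → MvPolynomial (Fin m) ℤ} : WG G S g M ↔ GO G S g := by
  refine hG.gl_iso (fun A _ x i => x (Sum.inl i)) (fun A _ y => Sum.elim y Fin.elim0)
    ?_ ?_ ?_ ?_ ?_ ?_
  · intro A B _ _ φ x _ j; rfl
  · intro A B _ _ φ y _ i
    rcases i with i | i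
    · rfl
    · exact i.elim0
  · intro A _ x hx
    exact (lc_ls.mp hx).1
  · intro A _ y hy
    rw [lc_ls]
    exact ⟨hy, fun i => by simp⟩
  · intro A _ x _
    funext i
    rcases i with i | i
    · rfl
    · exact i.elim0
  · intro A _ y _; rfl

lemma wg_glue {M : ι → Fin a → MvPolynomial (Fin m) ℤ} (f : MvPolynomial (Fin m) ℤ)
    (h1 : WG G (insert f S) g M) (h2 : WG G S (g * f) M) : WG G S g M := by
  refine hG.gl_glue (rename Sum.inl f) ?_ ?_
  · refine (hG.gl_congr fun A _ x => ?_).mp h1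
    rw [lc_ls]
    unfold Lc
    rw [Pt.insert_iff, Pt.insert_iff, Pt.ls_iff, ev_rename, ev_rename]
    tauto
  · rw [← map_mul]
    exact h2

lemma wg_free {M : ι → Fin (a + 1) → MvPolynomial (Fin m) ℤ} (h : ∀ i, M i 0 ∈ S)
    (h1 : WG G S g (fun i j => M i j.succ)) : WG G S g M := by
  have h2 := (hG.gl_line _ _).mpr h1
  have hl : ∀ (A : Type) [CommRing A] (x : Option (Fin m ⊕ Fin a) → A),
      Lc (lft (LS S fun i (j : Fin a) => M i j.succ)) (rename some (rename Sum.inl g)) x ↔
        Lc S g (fun i => x (some (Sum.inl i))) ∧ ∀ i, ∑ j : Fin a,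
          ev (fun i => x (some (Sum.inl i))) (M i j.succ) * x (some (Sum.inr j)) = 0 := by
    intro A _ x
    unfold Lc
    rw [Pt.lft_iff, Pt.ls_iff, ev_rename, ev_rename]
    tauto
  refine (hG.gl_iso
    (fun A _ y => Sum.elim (fun i => y (some (Sum.inl i)))
      (Fin.cons (y none) (fun j => y (some (Sum.inr j)))))
    (fun A _ x => fun o => o.elim (x (Sum.inr 0)) (Sum.elim (fun i => x (Sum.inl i))
      (fun j => x (Sum.inr j.succ)))) ?_ ?_ ?_ ?_ ?_ ?_).mp h2
  · intro A B _ _ φ y _ i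
    rcases i with i | i
    · rfl
    · refine Fin.cases ?_ (fun i => ?_) i <;> rfl
  · intro A B _ _ φ x _ o
    rcases o with _ | i | i <;> rfl
  · intro A _ y hy
    rw [hl] at hy
    rw [lc_ls]
    refine ⟨hy.1, fun i => ?_⟩
    rw [Fin.sum_univ_succ]
    have h0 : ev (fun i => y (some (Sum.inl i))) (M i 0) = 0 := hy.1.1 _ (h i)
    have h3 := hy.2 i
    show ev (fun i => y (some (Sum.inl i))) (M i 0) * _ + ∑ j : Fin a,
      ev (fun i => y (some (Sum.inl i))) (M i j.succ) * y (some (Sum.inr j)) = 0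
    rw [h0, zero_mul, zero_add, h3]
  · intro A _ x hx
    rw [lc_ls] at hx
    rw [hl]
    refine ⟨hx.1, fun i => ?_⟩
    have h0 : ev (fun i => x (Sum.inl i)) (M i 0) = 0 := hx.1.1 _ (h i)
    have h3 := hx.2 i
    rw [Fin.sum_univ_succ, h0, zero_mul, zero_add] at h3
    exact h3
  · intro A _ y _
    funext o
    rcases o with _ | i | i <;> rfl
  · intro A _ x _
    funext i
    rcases i with i | i
    · rfl
    · refine Fin.cases ?_ (fun i => ?_) i <;> rfl

lemma wg_elim {M : ι → Fin (a + 1) → MvPolynomial (Fin m) ℤ} (i₀ : ι)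
    (h1 : WG G S (g * M i₀ 0) (fun i j => M i₀ 0 * M i j.succ - M i 0 * M i₀ j.succ)) :
    WG G S (g * M i₀ 0) M := by
  have hu : ∀ {A : Type} [CommRing A] {x : Fin m → A}, Lc S (g * M i₀ 0) x →
      IsUnit (ev x (M i₀ 0)) := by
    intro A _ x hx
    have := hx.2
    rw [map_mul] at this
    exact isUnit_of_mul_isUnit_right this
  have key : ∀ {A : Type} [CommRing A] (x : Fin m → A) (y : Fin (a + 1) → A),
      IsUnit (ev x (M i₀ 0)) → ∑ j, ev x (M i₀ j) * y j = 0 → ∀ i,
      (∑ j, ev x (M i j) * y j = 0 ↔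
        ∑ j : Fin a, ev x (M i₀ 0 * M i j.succ - M i 0 * M i₀ j.succ) * y j.succ = 0) := by
    intro A _ x y h0 h1 i
    have h2 : ∑ j : Fin a, ev x (M i₀ 0 * M i j.succ - M i 0 * M i₀ j.succ) * y j.succ =
        ev x (M i₀ 0) * ∑ j, ev x (M i j) * y j -
          ev x (M i 0) * ∑ j, ev x (M i₀ j) * y j := by
      rw [Fin.sum_univ_succ, Fin.sum_univ_succ, mul_add, mul_add, Finset.mul_sum, Finset.mul_sum]
      have h3 : ∑ j : Fin a, ev x (M i₀ 0 * M i j.succ - M i 0 * M i₀ j.succ) * y j.succ =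
          ∑ j : Fin a, ev x (M i₀ 0) * (ev x (M i j.succ) * y j.succ) -
          ∑ j : Fin a, ev x (M i 0) * (ev x (M i₀ j.succ) * y j.succ) := by
        rw [← Finset.sum_sub_distrib]
        refine Finset.sum_congr rfl fun j _ => ?_
        rw [map_sub, map_mul, map_mul]
        ring
      rw [h3]; ring
    rw [h2, h1, mul_zero, sub_zero]
    constructor
    · intro h; rw [h, mul_zero]
    · intro h
      exact (h0.mul_right_eq_zero).mp h
  let y0 : ∀ {A : Type} [CommRing A], (Fin m → A) → (Fin a → A) → A := fun x y =>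
    -(Ring.inverse (ev x (M i₀ 0)) * ∑ j : Fin a, ev x (M i₀ j.succ) * y j)
  have hy0 : ∀ {A : Type} [CommRing A] (x : Fin m → A) (y : Fin a → A),
      IsUnit (ev x (M i₀ 0)) →
      ∑ j, ev x (M i₀ j) * (Fin.cons (y0 x y) y : Fin (a + 1) → A) j = 0 := by
    intro A _ x y h0
    rw [Fin.sum_univ_succ]
    simp only [Fin.cons_zero, Fin.cons_succ, y0]
    have := Ring.mul_inverse_cancel _ h0
    linear_combination (-∑ j : Fin a, ev x (M i₀ j.succ) * y j) * this
  refine (hG.gl_iso
    (fun A _ y => Sum.elim (fun i => y (Sum.inl i))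
      (Fin.cons (y0 (fun i => y (Sum.inl i)) (fun j => y (Sum.inr j))) (fun j => y (Sum.inr j))))
    (fun A _ x => Sum.elim (fun i => x (Sum.inl i)) (fun j => x (Sum.inr j.succ)))
    ?_ ?_ ?_ ?_ ?_ ?_).mp h1
  · intro A B _ _ φ y hy i
    rcases i with i | i
    · rfl
    · refine Fin.cases ?_ (fun i => ?_) i
      · show φ (-(Ring.inverse (ev (fun i => y (Sum.inl i)) (M i₀ 0)) * ∑ j : Fin a,
          ev (fun i => y (Sum.inl i)) (M i₀ j.succ) * y (Sum.inr j))) =
          -(Ring.inverse (ev (fun i => φ (y (Sum.inl i))) (M i₀ 0)) * ∑ j : Fin a,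
          ev (fun i => φ (y (Sum.inl i))) (M i₀ j.succ) * φ (y (Sum.inr j)))
        rw [map_neg, map_mul, map_inv_of_unit φ (hu (lc_ls.mp hy).1), ev_map, map_sum]
        simp only [map_mul, ev_map]
      · rfl
  · intro A B _ _ φ x _ i
    rcases i with i | i <;> rfl
  · intro A _ y hy
    rw [lc_ls] at hy ⊢
    refine ⟨hy.1, fun i => ?_⟩
    have h2 := (key (fun i => y (Sum.inl i)) (Fin.cons (y0 (fun i => y (Sum.inl i))
      (fun j => y (Sum.inr j))) (fun j => y (Sum.inr j))) (hu hy.1) (hy0 _ _ (hu hy.1)) i).mpr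
      (by simpa using hy.2 i)
    exact h2
  · intro A _ x hx
    rw [lc_ls] at hx ⊢
    refine ⟨hx.1, fun i => ?_⟩
    exact (key (fun i => x (Sum.inl i)) (fun j => x (Sum.inr j)) (hu hx.1) (hx.2 i₀) i).mp
      (hx.2 i)
  · intro A _ y _
    funext i
    rcases i with i | i <;> rfl
  · intro A _ x hx
    rw [lc_ls] at hx
    have h0 := hu hx.1
    have h2 := hx.2 i₀
    rw [Fin.sum_univ_succ] at h2
    funext i
    rcases i with i | i
    · rfl
    · refine Fin.cases ?_ (fun i => ?_) i
      · show -(Ring.inverse (ev (fun i => x (Sum.inl i)) (M i₀ 0)) * ∑ j : Fin a,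
          ev (fun i => x (Sum.inl i)) (M i₀ j.succ) * x (Sum.inr j.succ)) = x (Sum.inr 0)
        have h3 := Ring.inverse_mul_cancel _ h0
        linear_combination (-Ring.inverse (ev (fun i => x (Sum.inl i)) (M i₀ 0))) * h2 +
          x (Sum.inr 0) * h3
      · rfl

end

section

variable {m : ℕ}

include hG

lemma gs_affine (hH : HypG G m) : GS G (∅ : Set (MvPolynomial (Fin m) ℤ)) := by
  refine (hG.gs_congr fun A _ x => ?_).mp (hH 0)
  simp [Pt]

/-- the ring of integers belongs to the class -/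
lemma gs_base (hH : HypG G m) : GS G (∅ : Set (MvPolynomial Empty ℤ)) := by
  rw [← hG.gs_emb (Empty.elim : Empty → Fin m) (fun x => x.elim), Set.image_empty]
  exact gs_affine hG hH

lemma gs_affine_of_base (h : GS G (∅ : Set (MvPolynomial Empty ℤ))) (τ : Type) [Finite τ] :
    GS G (∅ : Set (MvPolynomial τ ℤ)) := by
  rw [← hG.gs_emb (Empty.elim : Empty → τ) (fun x => x.elim), Set.image_empty] at h
  exact h

lemma go_mem (hH : HypG G m) (S : Finset (MvPolynomial (Fin m) ℤ)) :
    ∀ g : MvPolynomial (Fin m) ℤ, GO G (S : Set (MvPolynomial (Fin m) ℤ)) g := by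
  classical
  induction S using Finset.induction_on with
  | empty =>
    intro g
    rw [Finset.coe_empty]
    refine hG.gs_opn (gs_affine hG hH) ?_
    rw [insert_empty_eq]
    exact hH g
  | insert f S hf ih =>
    intro g
    rw [Finset.coe_insert]
    exact hG.gl_closed f (ih g) (ih (g * f))

lemma hypG_pred (hH : HypG G (m + 1)) : HypG G m := by
  intro f
  have h := hH (rename Fin.succ f)
  rw [← Set.image_singleton, hG.gs_emb Fin.succ (Fin.succ_injective m)] at h
  exact h

lemma hypG_le {m' : ℕ} (h : m ≤ m') (hH : HypG G m') : HypG G m := by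
  induction m', h using Nat.le_induction with
  | base => exact hH
  | succ l _ ih => exact ih (hypG_pred hG hH)

theorem wg_mem (hH : HypG G m) (a : ℕ) : ∀ {ι : Type} [Fintype ι]
    (M : ι → Fin a → MvPolynomial (Fin m) ℤ) (S : Finset (MvPolynomial (Fin m) ℤ))
    (g : MvPolynomial (Fin m) ℤ), WG G (S : Set (MvPolynomial (Fin m) ℤ)) g M := by
  classical
  induction a with
  | zero =>
    intro ι _ M S g
    exact (wg_zero hG).mpr (go_mem hG hH S g)
  | succ a ih =>
    intro ι _ M S g
    have claim : ∀ (R : Finset ι) (S : Finset (MvPolynomial (Fin m) ℤ))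
        (g : MvPolynomial (Fin m) ℤ), (∀ i, i ∉ R → M i 0 ∈ S) →
        WG G (S : Set (MvPolynomial (Fin m) ℤ)) g M := by
      intro R
      induction R using Finset.induction_on with
      | empty =>
        intro S g h
        exact wg_free hG (fun i => Finset.mem_coe.mpr (h i (Finset.notMem_empty i)))
          (ih (fun i j => M i j.succ) S g)
      | insert i R hi ihR =>
        intro S g h
        refine wg_glue hG (M i 0) ?_ (wg_elim hG i (ih _ S _))
        rw [← Finset.coe_insert]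
        refine ihR (insert (M i 0) S) g fun l hl => ?_
        by_cases hli : l = i
        · rw [hli]; exact Finset.mem_insert_self _ _
        · exact Finset.mem_insert_of_mem (h l (by simp [hli, hl]))
    exact claim Finset.univ S g fun i hi => (hi (Finset.mem_univ i)).elim

end

end Pool.Agent.Helper81.HG
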