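import Pool.Agent.Helper81.HG.Smo
import Pool.Agent.Helper81.HG.Bnd
import Pool.Agent.Helper81.CP.Thy

/-!
# The hierarchy for both questions
-/

set_option autoImplicit false

open AlgebraicGeometry CategoryTheory TopologicalSpace MvPolynomial
open Pool.Agent.Helper81.CP

namespace Pool.Agent.Helper81.HG

universe u

theorem blochSoule_iff (H : Scheme.{0} → ℤ → ℤ → ModuleCat.{u} ℚ) (X : Scheme.{0}) :
    BlochSoule H X ↔ CP.BS H X := by
  constructor
  · rintro ⟨F, h1, h2⟩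
    exact ⟨F, h1, fun s => ⟨⟨(h2 s).1, (h2 s).2.1⟩, (h2 s).2.2⟩⟩
  · rintro ⟨F, h1, h2⟩
    exact ⟨F, h1, fun s => ⟨(h2 s).1.1, (h2 s).1.2, (h2 s).2⟩⟩

/-- from cut-and-paste properties to the two questions -/
theorem controls_of_ctl {𝒞 𝒞' : Set Scheme.{0}} (hft : ∀ X ∈ 𝒞, IsFT X)
    (h : CC (Ctl 𝒞') 𝒞) : Controls.{u} 𝒞' 𝒞 := by
  intro X hX
  obtain ⟨F, hF, hF', key⟩ := h X hX
  refine ⟨F, hF, hF', fun hc => ?_, fun H hH hb => ?_⟩
  · refine exists_isCont (hft X hX) (key _ schemeCP_cont fun Y hY s => ?_)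
    obtain ⟨Z, hZ⟩ := hc Y hY
    exact ⟨Z, IsCont.contOn hZ s⟩
  · have hT : IsTheory H := ⟨hH.empty, hH.bounded, hH.homotopy, hH.localization⟩
    rw [blochSoule_iff]
    have key' := key _ (schemeCP_Ps hT) fun Y hY s => by
      obtain ⟨Z, hZ, hZ'⟩ := (blochSoule_iff H Y).mp (hb Y hY)
      exact ⟨(hZ' s).1, Z, hZ.contOn s, (hZ' s).2⟩
    obtain ⟨Z, hZ⟩ := exists_isCont (hft X hX) fun s => by
      obtain ⟨_, W, hW, _⟩ := key' s
      exact ⟨W, hW⟩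
    refine ⟨Z, hZ, fun s => ?_⟩
    obtain ⟨h1, W, hW, hW'⟩ := key' s
    exact ⟨h1, by rw [(hZ.contOn s).unique hW, hW']⟩

lemma isFT_zero (m : ℕ) {σ : Type} [Finite σ] (S : Set (MvPolynomial σ ℤ)) :
    IsFT (Zeros m S) :=
  FT.isFT (ft_rng (insert (C (m : ℤ)) S))

lemma isFT_level {m n : ℕ} {𝒞 : Set Scheme.{0}} (h : 𝒞 ∈ Level m n) : ∀ X ∈ 𝒞, IsFT X := by
  intro X hX
  simp only [Level, Set.mem_insert_iff, Set.mem_singleton_iff] at h
  rcases h with rfl | rfl | rfl | rfl | rfl | rfl | rfl | rfl | rfl | rfl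
  · exact isFT_of_zmod hX.1
  · obtain ⟨S, rfl⟩ := hX; exact isFT_zero _ _
  · obtain ⟨f, rfl⟩ := hX; exact isFT_zero _ _
  · obtain ⟨d, F, _, rfl⟩ := hX; exact isFT_zero _ _
  · obtain ⟨s, M, rfl⟩ := hX; exact isFT_zero _ _
  · obtain ⟨a, b, M, rfl⟩ := hX; exact isFT_zero _ _
  · obtain ⟨a, A, _, rfl⟩ := hX; exact isFT_zero _ _
  · obtain ⟨a, b, M, rfl⟩ := hX; exact isFT_zero _ _
  · obtain ⟨a, b, T, rfl⟩ := hX; exact isFT_zero _ _
  · obtain ⟨a, b, T, rfl⟩ := hX; exact isFT_zero _ _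

lemma isFT_half {m n : ℕ} {𝒞 : Set Scheme.{0}} (h : 𝒞 ∈ HalfLevel m n) :
    ∀ X ∈ 𝒞, IsFT X := by
  intro X hX
  simp only [HalfLevel, Set.mem_insert_iff, Set.mem_singleton_iff] at h
  rcases h with rfl | rfl | rfl
  · obtain ⟨b, c, rfl⟩ := hX; exact isFT_zero _ _
  · obtain ⟨a, Q, rfl⟩ := hX; exact isFT_zero _ _
  · obtain ⟨a, q, _, rfl⟩ := hX; exact isFT_zero _ _

lemma cc_self (𝒞 : Set Scheme.{0}) : CC (Ctl 𝒞) 𝒞 := fun _ hX => ctl_self hX

/-- the schemes defined by quadratic forms have equations of degree at most two -/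
lemma forms_subset (m n : ℕ) : QuadraticForms m n ⊆ Quadratic m n := by
  rintro X ⟨a, Q, rfl⟩
  refine ⟨a, _, fun l => ?_, rfl⟩
  refine (totalDegree_finsetSum _ _).trans (Finset.sup_le fun i _ => ?_)
  refine (totalDegree_finsetSum _ _).trans (Finset.sup_le fun j _ => ?_)
  refine (totalDegree_mul _ _).trans ?_
  rw [totalDegree_C, zero_add]
  refine (totalDegree_mul _ _).trans ?_
  rw [totalDegree_X, totalDegree_X]

lemma cc_forms {G : Scheme.{0} → Prop} {m n : ℕ} {𝒞' : Set Scheme.{0}}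
    (h' : 𝒞' ∈ ({QuadraticForms m n, Quadratic m n} : Set (Set Scheme.{0}))) (h : CC G 𝒞') :
    CC G (QuadraticForms m n) := by
  simp only [Set.mem_insert_iff, Set.mem_singleton_iff] at h'
  rcases h' with rfl | rfl
  · exact h
  · exact fun X hX => h X (forms_subset m n hX)

theorem main (m n : ℕ) (hn : 0 < n) :
    (∀ 𝒞 ∈ Level m n, ∀ 𝒞' ∈ Level m n ∪ HalfLevel m n, Controls.{u} 𝒞' 𝒞) ∧
    (∀ 𝒞 ∈ HalfLevel m n, Controls.{u} (QuadraticForms m n) 𝒞) ∧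
    (∀ 𝒞' ∈ Level m (n + 1), Controls.{u} 𝒞' (DoubleCover m n)) := by
  refine ⟨fun 𝒞 h 𝒞' h' => ?_, fun 𝒞 h => ?_, fun 𝒞' h' => ?_⟩
  · refine controls_of_ctl (isFT_level h) (cc_level (sg_ctl 𝒞') ?_ h)
    rcases h' with h' | h'
    · exact hyp_of_level (sg_ctl 𝒞') hn h' (cc_self 𝒞')
    · refine hyp_of_double (sg_ctl 𝒞') ?_
      simp only [HalfLevel, Set.mem_insert_iff, Set.mem_singleton_iff] at h'
      rcases h' with rfl | h'
      · exact cc_self _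
      · exact cc_double_of_quadraticForms (sg_ctl 𝒞') (cc_forms h' (cc_self 𝒞'))
  · refine controls_of_ctl (isFT_half h) ?_
    have h1 : CC (Ctl (QuadraticForms m n)) (QuadraticForms m n) := cc_self _
    simp only [HalfLevel, Set.mem_insert_iff, Set.mem_singleton_iff] at h
    rcases h with rfl | rfl | rfl
    · exact cc_double_of_quadraticForms (sg_ctl _) h1
    · exact h1
    · exact cc_quadratic (sg_ctl _) h1
  · refine controls_of_ctl (isFT_half (m := m) (n := n) (by simp [HalfLevel])) ?_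
    exact cc_double_of_hyp (sg_ctl 𝒞')
      (hyp_of_level (sg_ctl 𝒞') (Nat.succ_pos n) h' (cc_self 𝒞'))

end Pool.Agent.Helper81.HG
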