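import Pool.Agent.Helper81.HG.Base
import Pool.Agent.Helper81.CP.Bil

/-!
# Systems of equations and their linear combinations
-/

set_option autoImplicit false

open MvPolynomial
open Pool.Agent.Helper81.CP

namespace Pool.Agent.Helper81.HG

variable {G : ∀ (R : Type) [CommRing R], Prop}

section

variable (hG : RG G) {σ : Type} [Finite σ]

include hG

open scoped Classical in
lemma RG.gs_free {E : Set (MvPolynomial σ ℤ)} (a : σ)
    (hfree : ∀ (A : Type) [CommRing A] (x y : σ → A), (∀ i, i ≠ a → y i = x i) →
      Pt E x → Pt E y) : GS G E ↔ GS G (insert (X a) E) := by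
  rw [← hG.gl_one, ← hG.gl_one]
  refine hG.gl_free a fun A _ x y hxy hx => ⟨hfree A x y hxy hx.1, ?_⟩
  rw [map_one]
  exact isUnit_one

open scoped Classical in
lemma RG.gs_free_opn {E : Set (MvPolynomial σ ℤ)} (a : σ)
    (hfree : ∀ (A : Type) [CommRing A] (x y : σ → A), (∀ i, i ≠ a → y i = x i) →
      Pt E x → Pt E y) : GS G E ↔ GS G (dop (X a) E) := by
  have h := hG.gl_gm (E := E) (p := 1) a fun A _ x y hxy hx => ⟨hfree A x y hxy hx.1, by
    rw [map_one]
    exact isUnit_one⟩
  rw [one_mul, hG.gl_one] at h
  exact h.symm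

lemma RG.gs_sum {τ : Type} [Finite τ] (E : Set (MvPolynomial σ ℤ)) :
    GS G (rename (Sum.inl : σ → σ ⊕ τ) '' E) ↔ GS G E :=
  hG.gs_emb Sum.inl Sum.inl_injective E

lemma RG.gs_scale {E : Set (MvPolynomial σ ℤ)} (W : Set σ) (q : MvPolynomial σ ℤ)
    (hE : ∀ (A : Type) [CommRing A] (x : σ → A) (c : A), Pt E x → Pt E (scl W c x))
    (hq : ∀ (A : Type) [CommRing A] (x : σ → A) (c : A), ev (scl W c x) q = c * ev x q) :
    GS G (dop q E) ↔ GS G (insert (q - 1) E) := by
  have h := hG.gl_scale (E := E) (p := 1) W q (fun A _ x c _ hx => ⟨hE A x c hx.1, by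
    rw [map_one]
    exact isUnit_one⟩) hq
  rw [one_mul, hG.gl_one] at h
  exact h

end

section

variable {σ K : Type} (b : K → MvPolynomial σ ℤ) (hG : RG G) [Finite σ] [Finite K]

include hG

open scoped Classical in
lemma RG.gs_mix_line {C B : Finset K} {a : K} (hab : a ∉ B) :
    GS G (dop (rename Sum.inl (b a)) (mix b C ∅)) ↔
      GS G (dop (rename Sum.inl (b a)) (mix b C (insert a B))) := by
  rw [← hG.gs_line (dop (rename Sum.inl (b a)) (mix b C (insert a B)))]
  exact hG.gs_iso (fwd b B a) (bwd a) (fun A B' _ _ φ x _ j => fwd_map b φ B a x j)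
    (fun A B' _ _ φ y _ i => bwd_map φ a y i) (fun A _ x hx => pt_fwd b hab hx)
    (fun A _ y hy => pt_bwd b hy) (fun A _ x _ => bwd_fwd b x)
    (fun A _ y hy => fwd_bwd b hab hy)

open scoped Classical in
/-- If the equation `∑ z_κ b_κ = 0` belongs to the class for all sets of indices, then the systems
`b_κ = 0` do. -/
theorem RG.gs_mix (h : ∀ B : Finset K, GS G (mix b ∅ B)) (C : Finset K) :
    ∀ B : Finset K, Disjoint C B → GS G (mix b C B) := by
  induction C using Finset.induction_on with
  | empty => exact fun B _ => h B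
  | insert a C ha ih =>
    -- the system without linear equation
    have free : ∀ (D : Finset K) (A : Type) [CommRing A] (x y : σ ⊕ K → A),
        (∀ i, i ≠ Sum.inr a → y i = x i) → Pt (mix b D ∅) x → Pt (mix b D ∅) y := by
      intro D A _ x y hxy hx
      rw [Pt.mix_iff] at hx ⊢
      refine ⟨by simp, fun κ hκ => ?_⟩
      have h1 : (fun i => y (Sum.inl i)) = fun i => x (Sum.inl i) :=
        funext fun i => hxy (Sum.inl i) (by simp)
      rw [h1]
      exact hx.2 κ hκ
    have h0 : GS G (mix b C ∅) := ih ∅ (Finset.disjoint_empty_right _)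
    have h1 : GS G (mix b C {a}) := ih {a} (by simpa using ha)
    have h2 : GS G (insert (X (Sum.inr a)) (mix b C ∅)) := (hG.gs_free _ (free C)).mp h0
    have h3 : GS G (insert (X (Sum.inr a)) (mix b C {a})) := by
      refine (hG.gs_congr fun A _ x => ?_).mp h2
      rw [Pt.insert_iff, Pt.insert_iff, Pt.mix_iff, Pt.mix_iff]
      simp only [ev_X, Finset.sum_empty, Finset.sum_singleton, true_and]
      constructor
      · rintro ⟨h, h'⟩
        exact ⟨h, by rw [h, zero_mul], h'⟩
      · rintro ⟨h, _, h'⟩
        exact ⟨h, h'⟩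
    have h4 : GS G (dop (X (Sum.inr a)) (mix b C {a})) := hG.gs_opn h1 h3
    have h5 : GS G (dop (X (Sum.inr a)) (mix b (insert a C) ∅)) := by
      refine (hG.gs_congr fun A _ x => ?_).mp h4
      rw [Pt.dop_iff, Pt.dop_iff, Pt.mix_iff, Pt.mix_iff]
      simp only [ev_X, Finset.sum_empty, Finset.sum_singleton, true_and, Finset.mem_insert,
        forall_eq_or_imp]
      constructor
      · rintro ⟨h, h', h''⟩
        refine ⟨h, ?_, h''⟩
        have := congrArg (fun t => x none * t) h'
        simpa [← mul_assoc, h] using this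
      · rintro ⟨h, h', h''⟩
        exact ⟨h, by rw [h', mul_zero], h''⟩
    have h6 : GS G (mix b (insert a C) ∅) := (hG.gs_free_opn _ (free (insert a C))).mpr h5
    -- the general case
    intro B hB
    have hab : a ∉ B := fun h => (Finset.disjoint_left.mp hB (Finset.mem_insert_self a C)) h
    have hCB : Disjoint C (insert a B) := by
      rw [Finset.disjoint_left] at hB ⊢
      intro κ hκ hκ'
      rcases Finset.mem_insert.mp hκ' with rfl | h'
      · exact ha hκ
      · exact hB (Finset.mem_insert_of_mem hκ) h'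
    have h7 : GS G (mix b C (insert a B)) := ih _ hCB
    let p : MvPolynomial (σ ⊕ K) ℤ := rename Sum.inl (b a)
    have h8 : GS G (insert p (mix b C ∅)) := by
      refine (hG.gs_congr fun A _ x => ?_).mp h6
      rw [Pt.insert_iff, Pt.mix_iff, Pt.mix_iff]
      simp only [p, ev_rename, Finset.mem_insert, forall_eq_or_imp, Finset.sum_empty, true_and]
    have h9 : GS G (dop p (mix b C ∅)) := hG.gs_opn h0 h8
    have h10 : GS G (dop p (mix b C (insert a B))) := (hG.gs_mix_line b hab).mp h9
    have h11 : GS G (insert p (mix b C (insert a B))) := hG.gs_closed h7 h10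
    refine (hG.gs_congr fun A _ x => ?_).mp h11
    rw [Pt.insert_iff, Pt.mix_iff, Pt.mix_iff, Finset.sum_insert hab]
    simp only [p, ev_rename, Finset.mem_insert, forall_eq_or_imp]
    constructor
    · rintro ⟨h, h', h''⟩
      rw [h, mul_zero, zero_add] at h'
      exact ⟨h', h, h''⟩
    · rintro ⟨h', h, h''⟩
      refine ⟨h, ?_, h''⟩
      rw [h, mul_zero, zero_add]
      exact h'

/-- If the equation `∑ z_κ b_κ = 0` belongs to the class for all sets of indices, then the system
of all equations `b_κ = 0` does. -/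
theorem RG.gs_range (h : ∀ B : Finset K, GS G (mix b ∅ B)) : GS G (Set.range b) := by
  have := Fintype.ofFinite K
  have h1 := hG.gs_mix b h Finset.univ ∅ (Finset.disjoint_empty_right _)
  rw [← hG.gs_sum (τ := K)]
  refine (hG.gs_congr fun A _ x => ?_).mp h1
  rw [Pt.mix_iff]
  simp only [Pt, Set.forall_mem_image, ev_rename, Set.forall_mem_range, Finset.sum_empty,
    true_and, Finset.mem_univ, forall_const]

open scoped Classical in
/-- If the systems `b_κ = 0` belong to the class for all sets of indices, then the equations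
`∑ z_κ b_κ = 0` do. -/
theorem RG.gs_mix_of (h : ∀ C : Finset K, GS G (b '' (C : Set K))) (B : Finset K) :
    ∀ C : Finset K, Disjoint C B → GS G (mix b C B) := by
  induction B using Finset.induction_on with
  | empty =>
    intro C _
    have h1 := (hG.gs_sum (τ := K) _).mpr (h C)
    refine (hG.gs_congr fun A _ x => ?_).mp h1
    rw [Pt.mix_iff]
    simp only [Pt, Set.forall_mem_image, ev_rename, Finset.sum_empty, true_and,
      Finset.mem_coe]
  | insert a B hab ih =>
    intro C hC
    have haC : a ∉ C := fun h => (Finset.disjoint_right.mp hC (Finset.mem_insert_self a B)) h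
    have hCB : Disjoint C B := Finset.disjoint_of_subset_right (Finset.subset_insert a B) hC
    have hCB' : Disjoint (insert a C) B := by
      rw [Finset.disjoint_insert_left]
      exact ⟨hab, hCB⟩
    have h0 : ∀ D : Finset K, GS G (mix b D ∅) := by
      intro D
      have h1 := (hG.gs_sum (τ := K) _).mpr (h D)
      refine (hG.gs_congr fun A _ x => ?_).mp h1
      rw [Pt.mix_iff]
      simp only [Pt, Set.forall_mem_image, ev_rename, Finset.sum_empty, true_and,
        Finset.mem_coe]
    let p : MvPolynomial (σ ⊕ K) ℤ := rename Sum.inl (b a)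
    have h8 : GS G (insert p (mix b C ∅)) := by
      refine (hG.gs_congr fun A _ x => ?_).mp (h0 (insert a C))
      rw [Pt.insert_iff, Pt.mix_iff, Pt.mix_iff]
      simp only [p, ev_rename, Finset.mem_insert, forall_eq_or_imp, Finset.sum_empty, true_and]
    have h9 : GS G (dop p (mix b C ∅)) := hG.gs_opn (h0 C) h8
    have h10 : GS G (dop p (mix b C (insert a B))) := (hG.gs_mix_line b hab).mp h9
    refine hG.gs_glue ((hG.gs_congr fun A _ x => ?_).mp (ih (insert a C) hCB')) h10
    rw [Pt.insert_iff, Pt.mix_iff, Pt.mix_iff, Finset.sum_insert hab]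
    simp only [p, ev_rename, Finset.mem_insert, forall_eq_or_imp]
    constructor
    · rintro ⟨h', h, h''⟩
      refine ⟨h, ?_, h''⟩
      rw [h, mul_zero, zero_add]
      exact h'
    · rintro ⟨h, h', h''⟩
      rw [h, mul_zero, zero_add] at h'
      exact ⟨h', h, h''⟩

end

end Pool.Agent.Helper81.HG
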