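import Pool.Agent.Helper81.HG.Lin

/-!
# Pencils of matrices, bilinear systems and trilinear forms
-/

set_option autoImplicit false

open MvPolynomial
open Pool.Agent.Helper81.CP

namespace Pool.Agent.Helper81.HG

variable {G : ∀ (R : Type) [CommRing R], Prop}

@[simp] lemma ev_C {σ A : Type} [CommRing A] (x : σ → A) (n : ℤ) : ev x (C n) = (n : A) := by
  simp [ev]

section defs

variable {m : ℕ} {I J : Type} [Fintype I] [Fintype J]

/-- the equations `(∑ x_l M_l) y = 0` -/
noncomputable def KS (M : Fin m → I → J → ℤ) : Set (MvPolynomial (Fin m ⊕ J) ℤ) :=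
  Set.range fun i : I => ∑ l, ∑ j, C (M l i j) * (X (Sum.inl l) * X (Sum.inr j))

/-- the trilinear form `∑ x_l M_l(z, y)` -/
noncomputable def TS (M : Fin m → I → J → ℤ) : MvPolynomial (Fin m ⊕ I ⊕ J) ℤ :=
  ∑ l, ∑ i, ∑ j, C (M l i j) * (X (Sum.inl l) * X (Sum.inr (Sum.inl i)) * X (Sum.inr (Sum.inr j)))

/-- the bilinear equations `M_l(z, y) = 0` -/
noncomputable def BS (M : Fin m → I → J → ℤ) : Set (MvPolynomial (I ⊕ J) ℤ) :=
  Set.range fun l : Fin m => ∑ i, ∑ j, C (M l i j) * (X (Sum.inl i) * X (Sum.inr j))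

/-- the equations `(M_0 + ∑ x_l M_l) y = 0` -/
noncomputable def KA (M : Fin (m + 1) → I → J → ℤ) : Set (MvPolynomial (Fin m ⊕ J) ℤ) :=
  Set.range fun i : I => ∑ j, (C (M 0 i j) + ∑ l : Fin m, X (Sum.inl l) * C (M l.succ i j)) *
    X (Sum.inr j)

omit [Fintype I] in
lemma Pt.ks_iff {M : Fin m → I → J → ℤ} {A : Type} [CommRing A] {x : Fin m ⊕ J → A} :
    Pt (KS M) x ↔ ∀ i, ∑ l, ∑ j, (M l i j : A) * (x (Sum.inl l) * x (Sum.inr j)) = 0 := by
  unfold KS Pt
  rw [Set.forall_mem_range]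
  simp only [map_sum, map_mul, ev_X, ev_C]

lemma Pt.ts_iff {M : Fin m → I → J → ℤ} {A : Type} [CommRing A] {x : Fin m ⊕ I ⊕ J → A} :
    Pt {TS M} x ↔ ∑ l, ∑ i, ∑ j, (M l i j : A) *
      (x (Sum.inl l) * x (Sum.inr (Sum.inl i)) * x (Sum.inr (Sum.inr j))) = 0 := by
  unfold TS Pt
  simp only [Set.mem_singleton_iff, forall_eq, map_sum, map_mul, ev_X, ev_C]

lemma Pt.bs_iff {M : Fin m → I → J → ℤ} {A : Type} [CommRing A] {x : I ⊕ J → A} :
    Pt (BS M) x ↔ ∀ l, ∑ i, ∑ j, (M l i j : A) * (x (Sum.inl i) * x (Sum.inr j)) = 0 := by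
  unfold BS Pt
  rw [Set.forall_mem_range]
  simp only [map_sum, map_mul, ev_X, ev_C]

omit [Fintype I] in
lemma Pt.ka_iff {M : Fin (m + 1) → I → J → ℤ} {A : Type} [CommRing A] {x : Fin m ⊕ J → A} :
    Pt (KA M) x ↔ ∀ i, ∑ j, ((M 0 i j : A) + ∑ l : Fin m, x (Sum.inl l) * (M l.succ i j : A)) *
      x (Sum.inr j) = 0 := by
  unfold KA Pt
  rw [Set.forall_mem_range]
  simp only [map_add, map_sum, map_mul, ev_X, ev_C]

/-- setting the rows outside `B` to zero -/
noncomputable def zr (B : Finset I) (M : Fin m → I → J → ℤ) (l : Fin m) (i : I) (j : J) : ℤ :=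
  open scoped Classical in if i ∈ B then M l i j else 0

/-- setting the matrices outside `B` to zero -/
noncomputable def zl (B : Finset (Fin m)) (M : Fin m → I → J → ℤ) (l : Fin m) (i : I) (j : J) :
    ℤ :=
  open scoped Classical in if l ∈ B then M l i j else 0

end defs

variable (hG : RG G) {m : ℕ} {I J : Type} [Fintype I] [Fintype J]

include hG

/-! ### Splitting by the first coordinate -/

omit [Fintype I] in
lemma ks_inf (M : Fin (m + 1) → I → J → ℤ) :
    GS G (insert (X (Sum.inl 0)) (KS M)) ↔ GS G (KS fun l => M l.succ) := by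
  have key : ∀ {A : Type} [CommRing A] (x : Fin (m + 1) → A) (y : J → A), x 0 = 0 → ∀ i,
      ∑ l, ∑ j, (M l i j : A) * (x l * y j) =
        ∑ l : Fin m, ∑ j, (M l.succ i j : A) * (x l.succ * y j) := by
    intro A _ x y h i
    rw [Fin.sum_univ_succ, h]
    simp
  refine hG.gs_iso
    (fun A _ x => Sum.elim (fun l => x (Sum.inl l.succ)) (fun j => x (Sum.inr j)))
    (fun A _ y => Sum.elim (Fin.cons 0 (fun l => y (Sum.inl l))) (fun j => y (Sum.inr j)))
    ?_ ?_ ?_ ?_ ?_ ?_
  · intro A B _ _ φ x _ j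
    rcases j with j | j <;> rfl
  · intro A B _ _ φ y _ i
    rcases i with i | i
    · refine Fin.cases ?_ (fun i => ?_) i
      · exact map_zero φ
      · rfl
    · rfl
  · intro A _ x hx
    rw [Pt.insert_iff, Pt.ks_iff, ev_X] at hx
    rw [Pt.ks_iff]
    intro i
    have := hx.2 i
    rw [key (fun l => x (Sum.inl l)) (fun j => x (Sum.inr j)) hx.1] at this
    exact this
  · intro A _ y hy
    rw [Pt.ks_iff] at hy
    rw [Pt.insert_iff, Pt.ks_iff, ev_X]
    refine ⟨rfl, fun i => ?_⟩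
    have := key (Fin.cons 0 (fun l => y (Sum.inl l))) (fun j => y (Sum.inr j)) rfl i
    exact this.trans (hy i)
  · intro A _ x hx
    rw [Pt.insert_iff, ev_X] at hx
    funext i
    rcases i with i | i
    · refine Fin.cases ?_ (fun i => ?_) i
      · exact hx.1.symm
      · rfl
    · rfl
  · intro A _ y _
    funext i
    rcases i with i | i <;> rfl

omit [Fintype I] in
lemma ks_of_zero (M : Fin (m + 1) → I → J → ℤ) (h : ∀ i j, M 0 i j = 0) :
    GS G (KS M) ↔ GS G (KS fun l => M l.succ) := by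
  classical
  rw [hG.gs_free (Sum.inl 0), ks_inf hG M]
  intro A _ x y hxy hx
  rw [Pt.ks_iff] at hx ⊢
  intro i
  rw [← hx i]
  refine Finset.sum_congr rfl fun l _ => Finset.sum_congr rfl fun j _ => ?_
  refine Fin.cases ?_ (fun l => ?_) l
  · rw [h]; simp
  · rw [hxy (Sum.inl l.succ) (by simp), hxy (Sum.inr j) (by simp)]

omit [Fintype I] in
lemma ks_slice (M : Fin (m + 1) → I → J → ℤ) :
    GS G (insert (X (Sum.inl 0) - 1) (KS M)) ↔ GS G (KA M) := by
  have key : ∀ {A : Type} [CommRing A] (x : Fin (m + 1) → A) (y : J → A), x 0 = 1 → ∀ i,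
      ∑ l, ∑ j, (M l i j : A) * (x l * y j) =
        ∑ j, ((M 0 i j : A) + ∑ l : Fin m, x l.succ * (M l.succ i j : A)) * y j := by
    intro A _ x y h i
    rw [Fin.sum_univ_succ, h, Finset.sum_comm, ← Finset.sum_add_distrib]
    refine Finset.sum_congr rfl fun j _ => ?_
    rw [add_mul, Finset.sum_mul]
    congr 1
    · ring
    · exact Finset.sum_congr rfl fun l _ => by ring
  refine hG.gs_iso
    (fun A _ x => Sum.elim (fun l => x (Sum.inl l.succ)) (fun j => x (Sum.inr j)))
    (fun A _ y => Sum.elim (Fin.cons 1 (fun l => y (Sum.inl l))) (fun j => y (Sum.inr j)))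
    ?_ ?_ ?_ ?_ ?_ ?_
  · intro A B _ _ φ x _ j
    rcases j with j | j <;> rfl
  · intro A B _ _ φ y _ i
    rcases i with i | i
    · refine Fin.cases ?_ (fun i => ?_) i
      · exact map_one φ
      · rfl
    · rfl
  · intro A _ x hx
    rw [Pt.insert_iff, Pt.ks_iff, map_sub, map_one, ev_X, sub_eq_zero] at hx
    rw [Pt.ka_iff]
    intro i
    have := hx.2 i
    rw [key (fun l => x (Sum.inl l)) (fun j => x (Sum.inr j)) hx.1] at this
    exact this
  · intro A _ y hy
    rw [Pt.ka_iff] at hy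
    rw [Pt.insert_iff, Pt.ks_iff, map_sub, map_one, ev_X, sub_eq_zero]
    refine ⟨rfl, fun i => ?_⟩
    have := key (Fin.cons 1 (fun l => y (Sum.inl l))) (fun j => y (Sum.inr j)) rfl i
    exact this.trans (hy i)
  · intro A _ x hx
    rw [Pt.insert_iff, map_sub, map_one, ev_X, sub_eq_zero] at hx
    funext i
    rcases i with i | i
    · refine Fin.cases ?_ (fun i => ?_) i
      · exact hx.1.symm
      · rfl
    · rfl
  · intro A _ y _
    funext i
    rcases i with i | i <;> rfl

omit [Fintype I] in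
lemma ks_opn (M : Fin (m + 1) → I → J → ℤ) :
    GS G (dop (X (Sum.inl 0)) (KS M)) ↔ GS G (KA M) := by
  rw [← ks_slice hG M]
  refine hG.gs_scale (Set.range Sum.inl) (X (Sum.inl 0)) ?_ ?_
  · intro A _ x c hx
    rw [Pt.ks_iff] at hx ⊢
    intro i
    have : ∑ l, ∑ j, (M l i j : A) * (scl (Set.range Sum.inl) c x (Sum.inl l) *
        scl (Set.range Sum.inl) c x (Sum.inr j)) =
        c * ∑ l, ∑ j, (M l i j : A) * (x (Sum.inl l) * x (Sum.inr j)) := by
      rw [Finset.mul_sum]
      refine Finset.sum_congr rfl fun l _ => ?_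
      rw [Finset.mul_sum]
      refine Finset.sum_congr rfl fun j _ => ?_
      simp [scl]
      ring
    rw [this, hx i, mul_zero]
  · intro A _ x c
    simp [scl]

omit [Fintype I] in
lemma ks_glue {M : Fin (m + 1) → I → J → ℤ} (h1 : GS G (KS fun l => M l.succ))
    (h2 : GS G (KA M)) : GS G (KS M) :=
  hG.gs_glue ((ks_inf hG M).mpr h1) ((ks_opn hG M).mpr h2)

omit [Fintype I] in
lemma ka_of {M : Fin (m + 1) → I → J → ℤ} (h1 : GS G (KS M))
    (h2 : GS G (KS fun l => M l.succ)) : GS G (KA M) :=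
  (ks_opn hG M).mp (hG.gs_opn h1 ((ks_inf hG M).mpr h2))

/-! ### Hypersurfaces control pencils -/

lemma ka_mem (hH : HypG G m) (M : Fin (m + 1) → I → J → ℤ) : GS G (KA M) := by
  let e : J ≃ Fin (Fintype.card J) := Fintype.equivFin J
  let M' : I → Fin (Fintype.card J) → MvPolynomial (Fin m) ℤ := fun i j =>
    C (M 0 i (e.symm j)) + ∑ l : Fin m, X l * C (M l.succ i (e.symm j))
  have h1 : WG G (∅ : Set (MvPolynomial (Fin m) ℤ)) 1 M' := by
    have := wg_mem hG hH _ M' ∅ 1
    rwa [Finset.coe_empty] at this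
  have h2 : GS G (LS ∅ M') := by
    unfold WG at h1
    rwa [map_one, hG.gl_one] at h1
  have hM' : ∀ {A : Type} [CommRing A] (x : Fin m → A) (i : I) (j : J),
      ev x (M' i (e j)) = (M 0 i j : A) + ∑ l : Fin m, x l * (M l.succ i j : A) := by
    intro A _ x i j
    simp only [M', map_add, map_sum, map_mul, ev_X, ev_C, Equiv.symm_apply_apply]
  refine (hG.gs_iso
    (fun A _ x => Sum.elim (fun l => x (Sum.inl l)) (fun j => x (Sum.inr (e j))))
    (fun A _ y => Sum.elim (fun l => y (Sum.inl l)) (fun j => y (Sum.inr (e.symm j))))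
    ?_ ?_ ?_ ?_ ?_ ?_).mp h2
  · intro A B _ _ φ x _ j
    rcases j with j | j <;> rfl
  · intro A B _ _ φ x _ j
    rcases j with j | j <;> rfl
  · intro A _ x hx
    rw [Pt.ls_iff] at hx
    rw [Pt.ka_iff]
    intro i
    have := hx.2 i
    rw [← Equiv.sum_comp e] at this
    simp only [hM'] at this
    exact this
  · intro A _ y hy
    rw [Pt.ka_iff] at hy
    rw [Pt.ls_iff]
    refine ⟨by simp [Pt], fun i => ?_⟩
    have := hy i
    rw [← Equiv.sum_comp e]
    simp only [hM', Sum.elim_inl, Sum.elim_inr, Equiv.symm_apply_apply]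
    exact this
  · intro A _ x _
    funext i
    rcases i with i | i
    · rfl
    · simp
  · intro A _ y _
    funext i
    rcases i with i | i
    · rfl
    · simp

omit [Fintype I] in
lemma ks_zero (h : GS G (∅ : Set (MvPolynomial Empty ℤ))) (M : Fin 0 → I → J → ℤ) :
    GS G (KS M) := by
  refine (hG.gs_congr fun A _ x => ?_).mp (gs_affine_of_base hG h (Fin 0 ⊕ J))
  rw [Pt.ks_iff]
  simp [Pt]

lemma ks_mem {N : ℕ} (hH : HypG G N) {m : ℕ} (hm : m ≤ N + 1) (M : Fin m → I → J → ℤ) :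
    GS G (KS M) := by
  induction m with
  | zero => exact ks_zero hG (gs_base hG hH) M
  | succ m ih =>
    exact ks_glue hG (ih (by omega) (fun l => M l.succ))
      (ka_mem hG (hypG_le hG (by omega : m ≤ N) hH) M)

/-! ### Trilinear forms -/

omit hG in
lemma sum_zr (B : Finset I) (M : Fin m → I → J → ℤ) {A : Type} [CommRing A] (x : Fin m → A)
    (z : I → A) (y : J → A) :
    ∑ l, ∑ i, ∑ j, (zr B M l i j : A) * (x l * z i * y j) =
      ∑ i ∈ B, z i * ∑ l, ∑ j, (M l i j : A) * (x l * y j) := by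
  classical
  rw [Finset.sum_comm, ← Finset.sum_subset (Finset.subset_univ B)]
  · refine Finset.sum_congr rfl fun i hi => ?_
    rw [Finset.mul_sum]
    refine Finset.sum_congr rfl fun l _ => ?_
    rw [Finset.mul_sum]
    refine Finset.sum_congr rfl fun j _ => ?_
    unfold zr
    rw [if_pos hi]; ring
  · intro i _ hi
    refine Finset.sum_eq_zero fun l _ => Finset.sum_eq_zero fun j _ => ?_
    unfold zr
    rw [if_neg hi]; simp

omit hG in
lemma sum_zl (B : Finset (Fin m)) (M : Fin m → I → J → ℤ) {A : Type} [CommRing A] (x : Fin m → A)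
    (z : I → A) (y : J → A) :
    ∑ l, ∑ i, ∑ j, (zl B M l i j : A) * (x l * z i * y j) =
      ∑ l ∈ B, x l * ∑ i, ∑ j, (M l i j : A) * (z i * y j) := by
  classical
  rw [← Finset.sum_subset (Finset.subset_univ B)]
  · refine Finset.sum_congr rfl fun l hl => ?_
    rw [Finset.mul_sum]
    refine Finset.sum_congr rfl fun i _ => ?_
    rw [Finset.mul_sum]
    refine Finset.sum_congr rfl fun j _ => ?_
    unfold zl
    rw [if_pos hl]; ring
  · intro l _ hl
    refine Finset.sum_eq_zero fun i _ => Finset.sum_eq_zero fun j _ => ?_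
    unfold zl
    rw [if_neg hl]; simp

/-- the rows of the pencil -/
noncomputable def rowp (M : Fin m → I → J → ℤ) (i : I) : MvPolynomial (Fin m ⊕ J) ℤ :=
  ∑ l, ∑ j, C (M l i j) * (X (Sum.inl l) * X (Sum.inr j))

/-- the bilinear forms -/
noncomputable def bilp (M : Fin m → I → J → ℤ) (l : Fin m) : MvPolynomial (I ⊕ J) ℤ :=
  ∑ i, ∑ j, C (M l i j) * (X (Sum.inl i) * X (Sum.inr j))

omit hG [Fintype I] in
lemma ev_rowp (M : Fin m → I → J → ℤ) (i : I) {A : Type} [CommRing A] (x : Fin m ⊕ J → A) :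
    ev x (rowp M i) = ∑ l, ∑ j, (M l i j : A) * (x (Sum.inl l) * x (Sum.inr j)) := by
  unfold rowp
  simp only [map_sum, map_mul, ev_X, ev_C]

omit hG in
lemma ev_bilp (M : Fin m → I → J → ℤ) (l : Fin m) {A : Type} [CommRing A] (x : I ⊕ J → A) :
    ev x (bilp M l) = ∑ i, ∑ j, (M l i j : A) * (x (Sum.inl i) * x (Sum.inr j)) := by
  unfold bilp
  simp only [map_sum, map_mul, ev_X, ev_C]

lemma mix_row (B : Finset I) (M : Fin m → I → J → ℤ) :
    GS G (mix (rowp M) ∅ B) ↔ GS G {TS (zr B M)} := by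
  refine hG.gs_iso
    (fun A _ x => Sum.elim (fun l => x (Sum.inl (Sum.inl l)))
      (Sum.elim (fun i => x (Sum.inr i)) (fun j => x (Sum.inl (Sum.inr j)))))
    (fun A _ y => Sum.elim (Sum.elim (fun l => y (Sum.inl l)) (fun j => y (Sum.inr (Sum.inr j))))
      (fun i => y (Sum.inr (Sum.inl i)))) ?_ ?_ ?_ ?_ ?_ ?_
  · intro A B _ _ φ x _ j
    rcases j with j | j | j <;> rfl
  · intro A B _ _ φ x _ j
    rcases j with (j | j) | j <;> rfl
  · intro A _ x hx
    rw [Pt.mix_iff] at hx
    rw [Pt.ts_iff]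
    have := sum_zr B M (fun l => x (Sum.inl (Sum.inl l))) (fun i => x (Sum.inr i))
      (fun j => x (Sum.inl (Sum.inr j)))
    refine this.trans ?_
    rw [← hx.1]
    exact Finset.sum_congr rfl fun i _ => by rw [ev_rowp]
  · intro A _ y hy
    rw [Pt.ts_iff] at hy
    rw [Pt.mix_iff]
    refine ⟨?_, by simp⟩
    have := sum_zr B M (fun l => y (Sum.inl l)) (fun i => y (Sum.inr (Sum.inl i)))
      (fun j => y (Sum.inr (Sum.inr j)))
    rw [hy] at this
    rw [this]
    exact Finset.sum_congr rfl fun i _ => by rw [ev_rowp]; rfl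
  · intro A _ x _
    funext i
    rcases i with (i | i) | i <;> rfl
  · intro A _ y _
    funext i
    rcases i with i | i | i <;> rfl

lemma mix_bil (B : Finset (Fin m)) (M : Fin m → I → J → ℤ) :
    GS G (mix (bilp M) ∅ B) ↔ GS G {TS (zl B M)} := by
  refine hG.gs_iso
    (fun A _ x => Sum.elim (fun l => x (Sum.inr l)) (fun i => x (Sum.inl i)))
    (fun A _ y => Sum.elim (fun i => y (Sum.inr i)) (fun l => y (Sum.inl l)))
    ?_ ?_ ?_ ?_ ?_ ?_
  · intro A B _ _ φ x _ j
    rcases j with j | j <;> rfl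
  · intro A B _ _ φ x _ j
    rcases j with j | j <;> rfl
  · intro A _ x hx
    rw [Pt.mix_iff] at hx
    rw [Pt.ts_iff]
    have := sum_zl B M (fun l => x (Sum.inr l)) (fun i => x (Sum.inl (Sum.inl i)))
      (fun j => x (Sum.inl (Sum.inr j)))
    refine this.trans ?_
    rw [← hx.1]
    exact Finset.sum_congr rfl fun i _ => by rw [ev_bilp]
  · intro A _ y hy
    rw [Pt.ts_iff] at hy
    rw [Pt.mix_iff]
    refine ⟨?_, by simp⟩
    have := sum_zl B M (fun l => y (Sum.inl l)) (fun i => y (Sum.inr (Sum.inl i)))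
      (fun j => y (Sum.inr (Sum.inr j)))
    rw [hy] at this
    rw [this]
    exact Finset.sum_congr rfl fun i _ => by rw [ev_bilp]; rfl
  · intro A _ x _
    funext i
    rcases i with i | i <;> rfl
  · intro A _ y _
    funext i
    rcases i with i | i <;> rfl

omit hG [Fintype J] in
lemma zr_univ (M : Fin m → I → J → ℤ) : zr Finset.univ M = M := by
  funext l i j
  simp [zr]

omit hG [Fintype I] [Fintype J] in
lemma zl_univ (M : Fin m → I → J → ℤ) : zl Finset.univ M = M := by
  funext l i j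
  simp [zl]

/-- trilinear forms control pencils -/
theorem ks_of_ts {M : Fin m → I → J → ℤ} (h : ∀ B : Finset I, GS G {TS (zr B M)}) :
    GS G (KS M) :=
  hG.gs_range (rowp M) fun B => (mix_row hG B M).mpr (h B)

/-- trilinear forms control bilinear systems -/
theorem bs_of_ts {M : Fin m → I → J → ℤ} (h : ∀ B : Finset (Fin m), GS G {TS (zl B M)}) :
    GS G (BS M) :=
  hG.gs_range (bilp M) fun B => (mix_bil hG B M).mpr (h B)

/-- pencils control trilinear forms -/
theorem ts_of_ks {M : Fin m → I → J → ℤ} (h : ∀ B : Finset I, GS G (KS (zr B M))) :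
    GS G {TS M} := by
  have h1 := hG.gs_mix_of (rowp M) (fun C => (hG.gs_congr fun A _ x => ?_).mp (h C))
    Finset.univ ∅ (Finset.disjoint_empty_left _)
  · rw [mix_row hG, zr_univ] at h1
    exact h1
  · rw [Pt.ks_iff]
    unfold Pt
    rw [Set.forall_mem_image]
    simp only [ev_rowp, Finset.mem_coe]
    refine forall_congr' fun i => ?_
    by_cases hi : i ∈ C
    · simp [zr, hi]
    · simp [zr, hi]

/-- bilinear systems control trilinear forms -/
theorem ts_of_bs {M : Fin m → I → J → ℤ} (h : ∀ B : Finset (Fin m), GS G (BS (zl B M))) :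
    GS G {TS M} := by
  have h1 := hG.gs_mix_of (bilp M) (fun C => (hG.gs_congr fun A _ x => ?_).mp (h C))
    Finset.univ ∅ (Finset.disjoint_empty_left _)
  · rw [mix_bil hG, zl_univ] at h1
    exact h1
  · rw [Pt.bs_iff]
    unfold Pt
    rw [Set.forall_mem_image]
    simp only [ev_bilp, Finset.mem_coe]
    refine forall_congr' fun i => ?_
    by_cases hi : i ∈ C
    · simp [zl, hi]
    · simp [zl, hi]

end Pool.Agent.Helper81.HG
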