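import Pool.Agent.Helper81.HG.Comm
import Pool.Agent.Helper81.HG.Enc

/-!
# Quadratic forms control double covers, double covers control hypersurfaces
-/

set_option autoImplicit false

open MvPolynomial
open scoped Matrix
open Pool.Agent.Helper81.CP Pool.Agent.Helper81.HI

namespace Pool.Agent.Helper81.HG

variable {G : ∀ (R : Type) [CommRing R], Prop} {n : ℕ}

/-! ### Realisations of pairs -/

/-- a common realisation of two polynomials -/
def Real2 (b c : MvPolynomial (Fin n) ℤ) : Prop :=
  ∃ (T : Type) (_ : Fintype T) (_ : DecidableEq T) (a₁ a₂ : MvPolynomial (Fin n) ℤ)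
    (r₁ r₂ w : T → MvPolynomial (Fin n) ℤ) (N K : Matrix T T (MvPolynomial (Fin n) ℤ)),
    al a₁ ∧ al a₂ ∧ (∀ t, al (r₁ t)) ∧ (∀ t, al (r₂ t)) ∧ (∀ t, al (w t)) ∧
      (∀ s t, al (N s t)) ∧ N * K = 1 ∧ b = a₁ - r₁ ⬝ᵥ (K *ᵥ w) ∧ c = a₂ - r₂ ⬝ᵥ (K *ᵥ w)

lemma real2_all (b c : MvPolynomial (Fin n) ℤ) : Real2 b c := by
  obtain ⟨T₁, _, _, a₁, r₁, c₁, N₁, K₁, ha₁, hr₁, hc₁, hN₁, hK₁, h₁⟩ := real_all b
  obtain ⟨T₂, _, _, a₂, r₂, c₂, N₂, K₂, ha₂, hr₂, hc₂, hN₂, hK₂, h₂⟩ := real_all c
  have e1 : (Sum.elim c₁ c₂) ∘ Sum.inl = c₁ := rfl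
  have e2 : (Sum.elim c₁ c₂) ∘ Sum.inr = c₂ := rfl
  refine ⟨T₁ ⊕ T₂, inferInstance, inferInstance, a₁, a₂, Sum.elim r₁ 0, Sum.elim 0 r₂,
    Sum.elim c₁ c₂, Matrix.fromBlocks N₁ 0 0 N₂, Matrix.fromBlocks K₁ 0 0 K₂, ha₁, ha₂,
    ?_, ?_, ?_, ?_, ?_, ?_, ?_⟩
  · rintro (t | t)
    · exact hr₁ t
    · exact al_zero
  · rintro (t | t)
    · exact al_zero
    · exact hr₂ t
  · rintro (t | t)
    · exact hc₁ t
    · exact hc₂ t
  · rintro (s | s) (t | t)
    · exact hN₁ s t
    · exact al_zero
    · exact al_zero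
    · exact hN₂ s t
  · rw [Matrix.fromBlocks_multiply, hK₁, hK₂]
    simp
  · rw [Matrix.fromBlocks_mulVec, sumElim_dotProduct_sumElim, h₁, e1, e2, Matrix.zero_mulVec,
      Matrix.zero_mulVec, add_zero, zero_dotProduct, add_zero]
  · rw [Matrix.fromBlocks_mulVec, sumElim_dotProduct_sumElim, h₂, e1, e2, Matrix.zero_mulVec,
      Matrix.zero_mulVec, zero_add, zero_dotProduct, zero_add]

/-! ### Quadratic forms -/

section

variable {J : Type} [Fintype J] {m : ℕ}

/-- quadratic forms -/
noncomputable def quadp (Q : Fin m → J → J → ℤ) (l : Fin m) : MvPolynomial J ℤ :=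
  ∑ i, ∑ j, C (Q l i j) * (X i * X j)

lemma ev_quadp (Q : Fin m → J → J → ℤ) (l : Fin m) {A : Type} [CommRing A] (x : J → A) :
    ev x (quadp Q l) = ∑ i, ∑ j, (Q l i j : A) * (x i * x j) := by
  unfold quadp
  simp only [map_sum, map_mul, ev_X, ev_C]

lemma Pt.quad_iff {Q : Fin m → J → J → ℤ} {A : Type} [CommRing A] {x : J → A} :
    Pt (Set.range (quadp Q)) x ↔ ∀ l, ∑ i, ∑ j, (Q l i j : A) * (x i * x j) = 0 := by
  unfold Pt
  rw [Set.forall_mem_range]
  simp only [ev_quadp]

lemma ev_sli_quadp (Q : Fin (n + 1) → J → J → ℤ) {A : Type} [CommRing A] (x : J ⊕ Fin n → A) :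
    ev x (sli (quadp Q)) = ∑ i, ∑ j, aff (fun l => Q l i j) (fun l => x (Sum.inr l)) *
      (x (Sum.inl i) * x (Sum.inl j)) := by
  rw [ev_sli]
  simp only [ev_quadp]
  simp only [← Fintype.sum_prod_type']
  exact aff_sum (fun l (p : J × J) => Q l p.1 p.2) (fun l => x (Sum.inr l))
    (fun p : J × J => x (Sum.inl p.1) * x (Sum.inl p.2))

end

/-- the coefficients of the quadratic forms -/
def qmat {T : Type} (a₁ a₂ : Fin (n + 1) → ℤ) (r₁ r₂ w : T → Fin (n + 1) → ℤ)
    (N : T → T → Fin (n + 1) → ℤ) (l : Fin (n + 1)) :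
    Bool ⊕ (T ⊕ T) → Bool ⊕ (T ⊕ T) → ℤ
  | Sum.inl true, Sum.inl true => if l = 0 then 1 else 0
  | Sum.inl true, Sum.inl false => a₁ l
  | Sum.inl false, Sum.inl false => a₂ l
  | Sum.inl true, Sum.inr (Sum.inr t) => r₁ t l
  | Sum.inl false, Sum.inr (Sum.inr t) => r₂ t l
  | Sum.inr (Sum.inl s), Sum.inl false => w s l
  | Sum.inr (Sum.inl s), Sum.inr (Sum.inr t) => N s t l
  | _, _ => 0

/-- the variables of the quadratic form -/
def kquad {T : Type} : (Bool ⊕ (T ⊕ T)) ⊕ Fin n → (Fin n ⊕ Bool) ⊕ (T ⊕ T)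
  | Sum.inl (Sum.inl b) => Sum.inl (Sum.inr b)
  | Sum.inl (Sum.inr t) => Sum.inr t
  | Sum.inr l => Sum.inl (Sum.inl l)

/-- its inverse -/
def kquad' {T : Type} : (Fin n ⊕ Bool) ⊕ (T ⊕ T) → (Bool ⊕ (T ⊕ T)) ⊕ Fin n
  | Sum.inl (Sum.inr b) => Sum.inl (Sum.inl b)
  | Sum.inr t => Sum.inl (Sum.inr t)
  | Sum.inl (Sum.inl l) => Sum.inr l

lemma kquad_inj {T : Type} : Function.Injective (kquad (n := n) (T := T)) := by
  refine Function.LeftInverse.injective (g := kquad') ?_
  rintro ((_ | _) | _) <;> rfl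

lemma quad_alg {A T : Type} [CommRing A] [Fintype T] (av₁ av₂ u v : A) (rv₁ rv₂ wv s t : T → A)
    (Nv : T → T → A) :
    (u * u + av₁ * (u * v) + ∑ i, rv₁ i * (u * t i)) +
      (av₂ * (v * v) + ∑ i, rv₂ i * (v * t i)) +
      ∑ j, (wv j * (s j * v) + ∑ i, Nv j i * (s j * t i)) =
    (u * u + av₁ * (u * v) + av₂ * (v * v)) + ∑ i, (u * rv₁ i + v * rv₂ i) * t i +
      ∑ j, s j * (v * wv j + ∑ i, Nv j i * t i) := by
  have h1 : ∑ i, (u * rv₁ i + v * rv₂ i) * t i =
      ∑ i, rv₁ i * (u * t i) + ∑ i, rv₂ i * (v * t i) := by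
    rw [← Finset.sum_add_distrib]
    exact Finset.sum_congr rfl fun i _ => by ring
  have h2 : ∑ j, (wv j * (s j * v) + ∑ i, Nv j i * (s j * t i)) =
      ∑ j, s j * (v * wv j + ∑ i, Nv j i * t i) := by
    refine Finset.sum_congr rfl fun j _ => ?_
    rw [mul_add, Finset.mul_sum]
    congr 1
    · ring
    · exact Finset.sum_congr rfl fun i _ => by ring
  rw [h1, h2]
  ring

section

variable (hG : RG G)

include hG

lemma quad_reindex {J J' : Type} [Fintype J] [Fintype J'] {m : ℕ} (e : J ≃ J')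
    (Q : Fin m → J' → J' → ℤ) :
    GS G (Set.range (quadp Q)) ↔ GS G (Set.range (quadp fun l i j => Q l (e i) (e j))) := by
  have key : ∀ {A : Type} [CommRing A] (l : Fin m) (y : J' → A),
      ∑ i, ∑ j, (Q l i j : A) * (y i * y j) =
      ∑ i, ∑ j, (Q l (e i) (e j) : A) * (y (e i) * y (e j)) := by
    intro A _ l y
    rw [← Equiv.sum_comp e]
    refine Finset.sum_congr rfl fun i _ => ?_
    rw [← Equiv.sum_comp e]
  refine hG.gs_iso (fun A _ x i => x (e i)) (fun A _ x i => x (e.symm i)) ?_ ?_ ?_ ?_ ?_ ?_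
  · intro A B _ _ φ x _ j; rfl
  · intro A B _ _ φ x _ j; rfl
  · intro A _ x hx
    rw [Pt.quad_iff] at hx ⊢
    intro l
    exact (key l x).symm.trans (hx l)
  · intro A _ x hx
    rw [Pt.quad_iff] at hx ⊢
    intro l
    refine (key l (fun i => x (e.symm i))).trans ?_
    simpa using hx l
  · intro A _ x _
    simp
  · intro A _ x _
    simp

/-- the double covers belong to the class -/
def DbG (G : ∀ (R : Type) [CommRing R], Prop) (n : ℕ) : Prop :=
  ∀ b c : MvPolynomial (Fin n) ℤ,
    GS G ({X none ^ 2 + rename some b * X none + rename some c} :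
      Set (MvPolynomial (Option (Fin n)) ℤ))

omit hG in
lemma ev_double (b c : MvPolynomial (Fin n) ℤ) {A : Type} [CommRing A]
    (x : Option (Fin n) → A) :
    ev x (X none ^ 2 + rename some b * X none + rename some c) =
      x none ^ 2 + ev (fun i => x (some i)) b * x none + ev (fun i => x (some i)) c := by
  simp only [map_add, map_mul, map_pow, ev_X, ev_rename]

omit hG in
lemma subsingleton_rng {σ : Type} {E : Set (MvPolynomial σ ℤ)}
    (h : ∀ (A : Type) [CommRing A] (x : σ → A), Pt E x → (1 : A) = 0) :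
    Subsingleton (Rng σ E) := by
  have h1 := h (Rng σ E) (tau E) (rep_rng E).1
  exact subsingleton_of_zero_eq_one h1.symm

/-- **Systems of `n + 1` quadratic forms control double covers of `A^n`.** -/
theorem dbG_of_quad (h : ∀ (a : ℕ) (Q : Fin (n + 1) → Fin a → Fin a → ℤ),
    GS G (Set.range (quadp Q))) : DbG G n := by
  classical
  have h0 : GS G (∅ : Set (MvPolynomial Empty ℤ)) := by
    have h1 := h 0 (fun _ _ _ => 0)
    have h2 : GS G (∅ : Set (MvPolynomial (Fin 0) ℤ)) := by
      refine (hG.gs_congr fun A _ x => ?_).mp h1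
      rw [Pt.quad_iff]
      simp [Pt]
    rw [← hG.gs_emb (Empty.elim : Empty → Fin 0) (fun x => x.elim), Set.image_empty]
    exact h2
  have hJ : ∀ (J : Type) [Fintype J] (Q : Fin (n + 1) → J → J → ℤ),
      GS G (Set.range (quadp Q)) := by
    intro J _ Q
    let e : J ≃ Fin (Fintype.card J) := Fintype.equivFin J
    rw [quad_reindex hG e.symm Q]
    exact h _ _
  have hsli : ∀ (J : Type) [Fintype J] (Q : Fin (n + 1) → J → J → ℤ),
      GS G {sli (quadp Q)} := by
    intro J _ Q
    refine gs_sli hG (quadp Q) fun C => (hG.gs_congr fun R _ x => ?_).mp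
      (hJ J (fun l i j => if l ∈ C then Q l i j else 0))
    rw [Pt.quad_iff]
    unfold Pt
    rw [Set.forall_mem_image]
    simp only [ev_quadp, Finset.mem_coe]
    refine forall_congr' fun l => ?_
    by_cases hl : l ∈ C
    · simp [hl]
    · simp [hl]
  intro b c
  obtain ⟨T, _, _, a₁, a₂, r₁, r₂, w, N, K, ha₁, ha₂, hr₁, hr₂, hw, hN, hNK, hb, hc⟩ :=
    real2_all b c
  obtain ⟨a₁', ha₁'⟩ := ha₁
  obtain ⟨a₂', ha₂'⟩ := ha₂
  choose r₁' hr₁' using hr₁
  choose r₂' hr₂' using hr₂
  choose w' hw' using hw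
  choose N' hN' using hN
  have h1 : GS G {rename (kquad (n := n) (T := T))
      (sli (quadp (qmat a₁' a₂' r₁' r₂' w' N')))} := by
    have := hsli _ (qmat a₁' a₂' r₁' r₂' w' N')
    rw [← hG.gs_emb (kquad (n := n) (T := T)) kquad_inj, Set.image_singleton] at this
    exact this
  let ι : MvPolynomial (Fin n) ℤ →+* MvPolynomial (Fin n ⊕ Bool) ℤ :=
    (rename (Sum.inl : Fin n → Fin n ⊕ Bool) : MvPolynomial (Fin n) ℤ →ₐ[ℤ] _).toRingHom
  have hι : ∀ {A : Type} [CommRing A] (x : Fin n ⊕ Bool → A) (p : MvPolynomial (Fin n) ℤ),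
      ev x (ι p) = ev (fun i => x (Sum.inl i)) p := fun x p => ev_rename _ _ _
  let U : MvPolynomial (Fin n ⊕ Bool) ℤ := X (Sum.inr true)
  let V : MvPolynomial (Fin n ⊕ Bool) ℤ := X (Sum.inr false)
  let F : MvPolynomial (Fin n ⊕ Bool) ℤ := U * U + ι a₁ * (U * V) + ι a₂ * (V * V)
  let L : T → MvPolynomial (Fin n ⊕ Bool) ℤ := U • (ι ∘ r₁) + V • (ι ∘ r₂)
  let R : T → MvPolynomial (Fin n ⊕ Bool) ℤ := V • (ι ∘ w)
  let Nι : Matrix T T (MvPolynomial (Fin n ⊕ Bool) ℤ) := N.map ι
  let Kι : Matrix T T (MvPolynomial (Fin n ⊕ Bool) ℤ) := K.map ι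
  have hNKι : Nι * Kι = 1 := by
    show N.map ι * K.map ι = 1
    rw [← Matrix.map_mul, hNK, Matrix.map_one ι (map_zero _) (map_one _)]
  have h2 := gs_block hG h0 (T := T) F L R Nι Kι hNKι _ ?_ h1
  · -- the result
    have h3 : GS G {U * U + ι b * (U * V) + ι c * (V * V)} := by
      refine (hG.gs_congr fun A _ x => ?_).mp h2
      rw [Pt.one_iff, Pt.one_iff]
      refine Eq.congr_left ?_
      congr 1
      have e4 : ∀ r : T → MvPolynomial (Fin n) ℤ, ι (r ⬝ᵥ K *ᵥ w) = (ι ∘ r) ⬝ᵥ (Kι *ᵥ (ι ∘ w)) := by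
        intro r
        simp only [dotProduct, Matrix.mulVec, map_sum, map_mul, Function.comp_apply]
        rfl
      show U * U + ι a₁ * (U * V) + ι a₂ * (V * V) -
        (U • (ι ∘ r₁) + V • (ι ∘ r₂)) ⬝ᵥ (Kι *ᵥ (V • (ι ∘ w))) = _
      rw [hb, hc, map_sub, map_sub, e4, e4]
      simp only [Matrix.mulVec_smul, dotProduct_smul, smul_dotProduct, add_dotProduct,
        smul_eq_mul]
      ring
    have hpt : ∀ {A : Type} [CommRing A] (x : Fin n ⊕ Bool → A),
        ev x (U * U + ι b * (U * V) + ι c * (V * V)) = x (Sum.inr true) * x (Sum.inr true) +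
          ev (fun i => x (Sum.inl i)) b * (x (Sum.inr true) * x (Sum.inr false)) +
          ev (fun i => x (Sum.inl i)) c * (x (Sum.inr false) * x (Sum.inr false)) := by
      intro A _ x
      simp only [map_add, map_mul, hι, U, V, ev_X]
    -- the part `v = 0`
    have h4 : GS G (insert V ({U * U + ι b * (U * V) + ι c * (V * V)} :
        Set (MvPolynomial (Fin n ⊕ Bool) ℤ))) := by
      refine hG.gs_glue (p := U) ?_ ?_
      · have e0 : GS G (∅ : Set (MvPolynomial (Fin n) ℤ)) := gs_affine_of_base hG h0 _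
        refine (hG.gs_iso (fun A _ x => Sum.elim x (fun _ => 0))
          (fun A _ y i => y (Sum.inl i)) ?_ ?_ ?_ ?_ ?_ ?_).mp e0
        · intro A B _ _ φ x _ j
          rcases j with j | j
          · rfl
          · exact map_zero φ
        · intro A B _ _ φ x _ j; rfl
        · intro A _ x _
          rw [Pt.insert_iff, Pt.insert_iff, Pt.one_iff, hpt]
          refine ⟨?_, ?_, ?_⟩
          · show ev _ (X (Sum.inr true)) = 0
            rw [ev_X]; rfl
          · show ev _ (X (Sum.inr false)) = 0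
            rw [ev_X]; rfl
          · simp
        · intro A _ y _
          simp [Pt]
        · intro A _ x _; rfl
        · intro A _ y hy
          rw [Pt.insert_iff, Pt.insert_iff] at hy
          have e1 : y (Sum.inr true) = 0 := by
            have := hy.1
            rwa [show U = X (Sum.inr true) from rfl, ev_X] at this
          have e2 : y (Sum.inr false) = 0 := by
            have := hy.2.1
            rwa [show V = X (Sum.inr false) from rfl, ev_X] at this
          funext i
          rcases i with i | i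
          · rfl
          · rcases i with _ | _
            · exact e2.symm
            · exact e1.symm
      · refine hG.triv _ (subsingleton_rng fun A _ x hx => ?_)
        rw [Pt.dop_iff, Pt.insert_iff, Pt.one_iff, hpt] at hx
        obtain ⟨h5, h6, h7⟩ := hx
        rw [show U = X (Sum.inr true) from rfl, ev_X] at h5
        rw [show V = X (Sum.inr false) from rfl, ev_X] at h6
        rw [h6] at h7
        have h8 : x (some (Sum.inr true)) * x (some (Sum.inr true)) = 0 := by
          linear_combination h7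
        have h9 : (x none * x (some (Sum.inr true))) * (x none * x (some (Sum.inr true))) = 0 := by
          linear_combination (x none * x none) * h8
        rw [h5, one_mul] at h9
        exact h9
    have h5 : GS G (dop V ({U * U + ι b * (U * V) + ι c * (V * V)} :
        Set (MvPolynomial (Fin n ⊕ Bool) ℤ))) := hG.gs_opn h3 h4
    have h6 : GS G (insert (V - 1) ({U * U + ι b * (U * V) + ι c * (V * V)} :
        Set (MvPolynomial (Fin n ⊕ Bool) ℤ))) := by
      refine (hG.gs_scale (Set.range Sum.inr) V ?_ ?_).mp h5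
      · intro A _ x c' hx
        rw [Pt.one_iff, hpt] at hx ⊢
        have e1 : (fun i => scl (Set.range Sum.inr) c' x (Sum.inl i)) =
            fun i => x (Sum.inl i) := by
          funext i
          simp [scl]
        have e2 : ∀ l, scl (Set.range Sum.inr) c' x (Sum.inr l) = c' * x (Sum.inr l) := by
          intro l
          simp [scl]
        rw [e1, e2, e2]
        linear_combination (c' * c') * hx
      · intro A _ x c'
        simp [V, scl]
    refine (hG.gs_iso (fun A _ x => fun o => o.elim (x (Sum.inr true)) (fun i => x (Sum.inl i)))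
      (fun A _ y => Sum.elim (fun i => y (some i)) (fun b => if b then y none else 1))
      ?_ ?_ ?_ ?_ ?_ ?_).mp h6
    · intro A B _ _ φ x _ o
      rcases o with _ | o <;> rfl
    · intro A B _ _ φ y _ i
      rcases i with i | i
      · rfl
      · rcases i with _ | _
        · exact map_one φ
        · rfl
    · intro A _ x hx
      rw [Pt.insert_iff, map_sub, map_one, sub_eq_zero, show V = X (Sum.inr false) from rfl,
        ev_X, Pt.one_iff] at hx
      obtain ⟨h7, h8⟩ := hx
      rw [hpt, h7] at h8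
      rw [Pt.one_iff, ev_double]
      show x (Sum.inr true) ^ 2 + ev (fun i => x (Sum.inl i)) b * x (Sum.inr true) +
        ev (fun i => x (Sum.inl i)) c = 0
      linear_combination h8
    · intro A _ y hy
      rw [Pt.one_iff, ev_double] at hy
      rw [Pt.insert_iff, map_sub, map_one, sub_eq_zero, show V = X (Sum.inr false) from rfl,
        ev_X, Pt.one_iff, hpt]
      refine ⟨rfl, ?_⟩
      show y none * y none + ev (fun i => y (some i)) b * (y none * 1) +
        ev (fun i => y (some i)) c * (1 * 1) = 0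
      linear_combination hy
    · intro A _ x hx
      rw [Pt.insert_iff, map_sub, map_one, sub_eq_zero, show V = X (Sum.inr false) from rfl,
        ev_X] at hx
      funext i
      rcases i with i | i
      · rfl
      · rcases i with _ | _
        · exact hx.1.symm
        · rfl
    · intro A _ y _
      funext o
      rcases o with _ | o <;> rfl
  · intro A _ x
    rw [ev_rename, ev_sli_quadp]
    have ea₁ : ev (fun l => x (Sum.inl (Sum.inl l))) a₁ =
      aff a₁' (fun l => x (Sum.inl (Sum.inl l))) := by rw [ha₁', ev_al]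
    have ea₂ : ev (fun l => x (Sum.inl (Sum.inl l))) a₂ =
      aff a₂' (fun l => x (Sum.inl (Sum.inl l))) := by rw [ha₂', ev_al]
    have er₁ : ∀ t, ev (fun l => x (Sum.inl (Sum.inl l))) (r₁ t) =
      aff (r₁' t) (fun l => x (Sum.inl (Sum.inl l))) := fun t => by rw [hr₁', ev_al]
    have er₂ : ∀ t, ev (fun l => x (Sum.inl (Sum.inl l))) (r₂ t) =
      aff (r₂' t) (fun l => x (Sum.inl (Sum.inl l))) := fun t => by rw [hr₂', ev_al]
    have ew : ∀ t, ev (fun l => x (Sum.inl (Sum.inl l))) (w t) =
      aff (w' t) (fun l => x (Sum.inl (Sum.inl l))) := fun t => by rw [hw', ev_al]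
    have eN : ∀ s t, ev (fun l => x (Sum.inl (Sum.inl l))) (N s t) =
      aff (N' s t) (fun l => x (Sum.inl (Sum.inl l))) := fun s t => by rw [hN', ev_al]
    have h3 : ev (fun i => x (Sum.inl i)) F =
        x (Sum.inl (Sum.inr true)) * x (Sum.inl (Sum.inr true)) +
        aff a₁' (fun l => x (Sum.inl (Sum.inl l))) *
          (x (Sum.inl (Sum.inr true)) * x (Sum.inl (Sum.inr false))) +
        aff a₂' (fun l => x (Sum.inl (Sum.inl l))) *
          (x (Sum.inl (Sum.inr false)) * x (Sum.inl (Sum.inr false))) := by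
      simp only [F, U, V, map_add, map_mul, hι, ev_X, ea₁, ea₂]
    have h4 : evv (fun i => x (Sum.inl i)) L = fun t =>
        x (Sum.inl (Sum.inr true)) * aff (r₁' t) (fun l => x (Sum.inl (Sum.inl l))) +
        x (Sum.inl (Sum.inr false)) * aff (r₂' t) (fun l => x (Sum.inl (Sum.inl l))) := by
      funext t
      show ev (fun i => x (Sum.inl i)) (U * ι (r₁ t) + V * ι (r₂ t)) = _
      simp only [U, V, map_add, map_mul, hι, ev_X, er₁, er₂]
    have h5 : evv (fun i => x (Sum.inl i)) R = fun t =>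
        x (Sum.inl (Sum.inr false)) * aff (w' t) (fun l => x (Sum.inl (Sum.inl l))) := by
      funext t
      show ev (fun i => x (Sum.inl i)) (V * ι (w t)) = _
      simp only [V, map_mul, hι, ev_X, ew]
    have h6 : ∀ (z : T → A), evm (fun i => x (Sum.inl i)) Nι *ᵥ z =
        fun s => ∑ t, aff (N' s t) (fun l => x (Sum.inl (Sum.inl l))) * z t := by
      intro z
      funext s
      simp only [evm, Matrix.mulVec, dotProduct, Matrix.map_apply, Nι, hι, eN]
    rw [h3, h4, h5, h6]
    have e0 : ∀ (ξ : Fin n → A), aff (fun l : Fin (n + 1) => if l = 0 then (1 : ℤ) else 0) ξ = 1 :=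
      by
      intro ξ
      simp [aff, Fin.succ_ne_zero]
    have ez : ∀ (ξ : Fin n → A), aff (fun _ : Fin (n + 1) => (0 : ℤ)) ξ = 0 := aff_zero
    simp only [dotProduct, Fintype.sum_sum_type, Fintype.sum_bool, Pi.add_apply]
    simp only [qmat, e0, ez, zero_mul, one_mul, Finset.sum_const_zero, add_zero, zero_add]
    exact quad_alg (aff a₁' fun l => x (Sum.inl (Sum.inl l)))
      (aff a₂' fun l => x (Sum.inl (Sum.inl l))) (x (Sum.inl (Sum.inr true)))
      (x (Sum.inl (Sum.inr false))) (fun t => aff (r₁' t) fun l => x (Sum.inl (Sum.inl l)))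
      (fun t => aff (r₂' t) fun l => x (Sum.inl (Sum.inl l)))
      (fun t => aff (w' t) fun l => x (Sum.inl (Sum.inl l))) (fun t => x (Sum.inr (Sum.inl t)))
      (fun t => x (Sum.inr (Sum.inr t))) (fun s t => aff (N' s t) fun l => x (Sum.inl (Sum.inl l)))

/-- **Double covers of `A^n` control hypersurfaces in `A^n`.** -/
theorem hypG_of_dbG (h : DbG G n) : HypG G n := by
  -- affine space
  have hA : GS G (∅ : Set (MvPolynomial (Fin n) ℤ)) ∧
      GS G ({X none} : Set (MvPolynomial (Option (Fin n)) ℤ)) := by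
    have h1 := h 0 0
    have h2 : GS G (dop (X none) ({X none ^ 2 + rename some (0 : MvPolynomial (Fin n) ℤ) * X none +
        rename some (0 : MvPolynomial (Fin n) ℤ)} : Set (MvPolynomial (Option (Fin n)) ℤ))) := by
      refine hG.triv _ (subsingleton_rng fun A _ x hx => ?_)
      rw [Pt.dop_iff, Pt.one_iff, ev_double, ev_X] at hx
      obtain ⟨h3, h4⟩ := hx
      rw [map_zero, zero_mul, add_zero, add_zero] at h4
      have h5 : (x none * x (some none)) * (x none * x (some none)) = 0 := by
        linear_combination (x none * x none) * h4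
      rw [h3, one_mul] at h5
      exact h5
    have h3 := hG.gs_closed h1 h2
    have h4 : GS G ({X none} : Set (MvPolynomial (Option (Fin n)) ℤ)) := by
      refine (hG.gs_congr fun A _ x => ?_).mp h3
      rw [Pt.insert_iff, Pt.one_iff, Pt.one_iff, ev_double, ev_X]
      constructor
      · exact fun h => h.1
      · intro h
        exact ⟨h, by rw [h, map_zero]; ring⟩
    refine ⟨(hG.gs_iso (fun A _ x i => x (some i)) (fun A _ y o => o.elim 0 y)
      ?_ ?_ ?_ ?_ ?_ ?_).mp h4, h4⟩
    · intro A B _ _ φ x _ j; rfl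
    · intro A B _ _ φ y _ o
      rcases o with _ | o
      · exact map_zero φ
      · rfl
    · intro A _ x _
      simp [Pt]
    · intro A _ y _
      rw [Pt.one_iff, ev_X]; rfl
    · intro A _ x hx
      rw [Pt.one_iff, ev_X] at hx
      funext o
      rcases o with _ | o
      · exact hx.symm
      · rfl
    · intro A _ y _; rfl
  intro f
  have h1 := h f 0
  have h2 : GS G (insert (X none) ({X none ^ 2 + rename some f * X none +
      rename some (0 : MvPolynomial (Fin n) ℤ)} : Set (MvPolynomial (Option (Fin n)) ℤ))) := by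
    refine (hG.gs_congr fun A _ x => ?_).mp hA.2
    rw [Pt.insert_iff, Pt.one_iff, Pt.one_iff, ev_double, ev_X]
    constructor
    · intro h
      exact ⟨h, by rw [h, map_zero]; ring⟩
    · exact fun h => h.1
  have h3 := hG.gs_opn h1 h2
  have h4 : GS G (dop f (∅ : Set (MvPolynomial (Fin n) ℤ))) := by
    have hpt : ∀ {A : Type} [CommRing A] (x : Option (Option (Fin n)) → A),
        Pt (dop (X none) ({X none ^ 2 + rename some f * X none +
          rename some (0 : MvPolynomial (Fin n) ℤ)} : Set (MvPolynomial (Option (Fin n)) ℤ))) x ↔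
        x none * x (some none) = 1 ∧
          x (some none) = - ev (fun i => x (some (some i))) f := by
      intro A _ x
      rw [Pt.dop_iff, Pt.one_iff, ev_double, ev_X, map_zero, add_zero]
      refine and_congr_right fun h5 => ?_
      constructor
      · intro h6
        linear_combination (x none) * h6 -
          (x (some none) + ev (fun i => x (some (some i))) f) * h5
      · intro h6
        rw [h6]; ring
    refine (hG.gs_iso (fun A _ x => fun o => o.elim (- x none) (fun i => x (some (some i))))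
      (fun A _ y => fun o => o.elim (- y none) (fun o' => o'.elim
        (- ev (fun i => y (some i)) f) (fun i => y (some i)))) ?_ ?_ ?_ ?_ ?_ ?_).mp h3
    · intro A B _ _ φ x _ o
      rcases o with _ | o
      · exact map_neg φ _
      · rfl
    · intro A B _ _ φ y _ o
      rcases o with _ | _ | o
      · exact map_neg φ _
      · show φ (- _) = - _
        rw [map_neg, ev_map]
      · rfl
    · intro A _ x hx
      rw [hpt] at hx
      rw [Pt.dop_iff]
      refine ⟨?_, by simp [Pt]⟩
      show (- x none) * ev (fun i => x (some (some i))) f = 1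
      rw [hx.2] at hx
      linear_combination hx.1
    · intro A _ y hy
      rw [Pt.dop_iff] at hy
      rw [hpt]
      refine ⟨?_, rfl⟩
      show (- y none) * (- ev (fun i => y (some i)) f) = 1
      rw [neg_mul_neg]
      exact hy.1
    · intro A _ x hx
      rw [hpt] at hx
      funext o
      rcases o with _ | _ | o
      · exact neg_neg _
      · exact hx.2.symm
      · rfl
    · intro A _ y _
      funext o
      rcases o with _ | o
      · exact neg_neg _
      · rfl
  have h5 := hG.gs_closed hA.1 h4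
  rwa [insert_empty_eq] at h5

end

/-! ### Equations of degree at most two -/

lemma exists_pair' {a : ℕ} (s : Multiset (Fin a)) (hs : Multiset.card s ≤ 2) :
    ∃ i j : Fin (a + 1), ∀ (A : Type) [CommRing A] (y : Fin a → A),
      (s.map y).prod = (Fin.cons 1 y : Fin (a + 1) → A) i * (Fin.cons 1 y : Fin (a + 1) → A) j := by
  have h : Multiset.card s = 0 ∨ Multiset.card s = 1 ∨ Multiset.card s = 2 := by omega
  rcases h with h | h | h
  · rw [Multiset.card_eq_zero] at h
    subst h
    exact ⟨0, 0, fun A _ y => by simp⟩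
  · obtain ⟨i, rfl⟩ := Multiset.card_eq_one.mp h
    exact ⟨0, i.succ, fun A _ y => by simp⟩
  · obtain ⟨i, j, rfl⟩ := Multiset.card_eq_two.mp h
    exact ⟨i.succ, j.succ, fun A _ y => by simp⟩

lemma prod_eq_map' {a : ℕ} (e : Fin a →₀ ℕ) {A : Type} [CommRing A] (y : Fin a → A) :
    e.prod (fun i n => y i ^ n) = ((Finsupp.toMultiset e).map y).prod := by
  rw [Finsupp.toMultiset_map, Finsupp.prod_toMultiset, Finsupp.prod_mapDomain_index]
  · intro b; simp
  · intro b m n; exact pow_add b m n

lemma exists_quad' {a : ℕ} (f : MvPolynomial (Fin a) ℤ) (hf : f.totalDegree ≤ 2) :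
    ∃ Q : Fin (a + 1) → Fin (a + 1) → ℤ, ∀ (A : Type) [CommRing A] (y : Fin a → A),
      ev y f = ∑ i, ∑ j, (Q i j : A) * ((Fin.cons 1 y : Fin (a + 1) → A) i *
        (Fin.cons 1 y : Fin (a + 1) → A) j) := by
  classical
  have h1 : ∀ e : f.support, ∃ i j : Fin (a + 1), ∀ (A : Type) [CommRing A] (y : Fin a → A),
      e.1.prod (fun i n => y i ^ n) =
        (Fin.cons 1 y : Fin (a + 1) → A) i * (Fin.cons 1 y : Fin (a + 1) → A) j := by
    intro e
    have h2 : Multiset.card (Finsupp.toMultiset e.1) ≤ 2 := by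
      rw [Finsupp.card_toMultiset]
      exact (le_totalDegree e.2).trans hf
    obtain ⟨i, j, h⟩ := exists_pair' _ h2
    exact ⟨i, j, fun A _ y => by rw [prod_eq_map']; exact h A y⟩
  choose I J hIJ using h1
  refine ⟨fun i j => ∑ e : f.support, if I e = i ∧ J e = j then coeff e.1 f else 0,
    fun A _ y => ?_⟩
  have h2 : ∑ i, ∑ j, ((∑ e : f.support, if I e = i ∧ J e = j then coeff e.1 f else 0 : ℤ) : A) *
      ((Fin.cons 1 y : Fin (a + 1) → A) i * (Fin.cons 1 y : Fin (a + 1) → A) j) =
      ∑ e : f.support, ((coeff e.1 f : ℤ) : A) * ((Fin.cons 1 y : Fin (a + 1) → A) (I e) *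
        (Fin.cons 1 y : Fin (a + 1) → A) (J e)) := by
    simp only [Int.cast_sum, Finset.sum_mul]
    rw [Finset.sum_congr rfl fun i _ => Finset.sum_comm, Finset.sum_comm]
    refine Finset.sum_congr rfl fun e _ => ?_
    rw [Finset.sum_eq_single (I e)]
    · rw [Finset.sum_eq_single (J e)]
      · simp
      · intro j _ hj
        rw [if_neg (fun h => hj h.2.symm)]; simp
      · intro h; exact (h (Finset.mem_univ _)).elim
    · intro i _ hi
      refine Finset.sum_eq_zero fun j _ => ?_
      rw [if_neg (fun h => hi h.1.symm)]; simp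
    · intro h; exact (h (Finset.mem_univ _)).elim
  rw [h2, ev_eq_aeval, aeval_def, eval₂_eq', ← Finset.sum_coe_sort]
  refine Finset.sum_congr rfl fun e _ => ?_
  rw [← hIJ e A y, Finsupp.prod_fintype _ _ (fun i => pow_zero _)]
  rfl

/-- **Systems of quadratic forms control systems of equations of degree at most two.** -/
theorem gs_quadratic (hG : RG G) {m : ℕ} (h : ∀ (a : ℕ) (Q : Fin m → Fin a → Fin a → ℤ),
    GS G (Set.range (quadp Q))) {a : ℕ} (q : Fin m → MvPolynomial (Fin a) ℤ)
    (hq : ∀ l, (q l).totalDegree ≤ 2) : GS G (Set.range q) := by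
  choose Q hQ using fun l => exists_quad' (q l) (hq l)
  have h1 := h (a + 1) Q
  have key : ∀ {A : Type} [CommRing A] (w : Fin (a + 1) → A), w 0 = 0 → ∀ l,
      ∑ i, ∑ j, (Q l i j : A) * (w i * w j) =
      ∑ i : Fin a, ∑ j : Fin a, (Q l i.succ j.succ : A) * (w i.succ * w j.succ) := by
    intro A _ w h0 l
    rw [Fin.sum_univ_succ, Finset.sum_eq_zero (fun j _ => by rw [h0]; ring), zero_add]
    refine Finset.sum_congr rfl fun i _ => ?_
    rw [Fin.sum_univ_succ, h0, mul_zero, mul_zero, zero_add]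
  have h2 : GS G (insert (X 0) (Set.range (quadp Q))) := by
    refine (hG.gs_iso (fun A _ x => Fin.cons 0 x) (fun A _ y i => y (Fin.succ i))
      ?_ ?_ ?_ ?_ ?_ ?_).mp (h a (fun l i j => Q l i.succ j.succ))
    · intro A B _ _ φ x _ j
      refine Fin.cases ?_ (fun j => ?_) j
      · exact map_zero φ
      · rfl
    · intro A B _ _ φ x _ j; rfl
    · intro A _ x hx
      rw [Pt.quad_iff] at hx
      rw [Pt.insert_iff, Pt.quad_iff, ev_X]
      refine ⟨rfl, fun l => ?_⟩
      rw [key _ rfl]
      exact hx l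
    · intro A _ y hy
      rw [Pt.insert_iff, Pt.quad_iff, ev_X] at hy
      rw [Pt.quad_iff]
      intro l
      rw [← key _ hy.1]
      exact hy.2 l
    · intro A _ x _; rfl
    · intro A _ y hy
      rw [Pt.insert_iff, ev_X] at hy
      funext i
      refine Fin.cases ?_ (fun i => ?_) i
      · exact hy.1.symm
      · rfl
  have h3 : GS G (dop (X 0) (Set.range (quadp Q))) := hG.gs_opn h1 h2
  have h4 : GS G (insert (X 0 - 1) (Set.range (quadp Q))) := by
    refine (hG.gs_scale Set.univ (X 0) ?_ ?_).mp h3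
    · intro A _ x c hx
      rw [Pt.quad_iff] at hx ⊢
      intro l
      have e1 : ∀ i, scl Set.univ c x i = c * x i := fun i => by simp [scl]
      simp only [e1]
      have := congrArg (fun z => (c * c) * z) (hx l)
      simp only [mul_zero, Finset.mul_sum] at this
      rw [← this]
      exact Finset.sum_congr rfl fun i _ => Finset.sum_congr rfl fun j _ => by ring
    · intro A _ x c
      simp [scl]
  refine (hG.gs_iso (fun A _ x i => x (Fin.succ i)) (fun A _ y => Fin.cons 1 y)
    ?_ ?_ ?_ ?_ ?_ ?_).mp h4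
  · intro A B _ _ φ x _ j; rfl
  · intro A B _ _ φ x _ j
    refine Fin.cases ?_ (fun j => ?_) j
    · exact map_one φ
    · rfl
  · intro A _ x hx
    rw [Pt.insert_iff, Pt.quad_iff, map_sub, map_one, ev_X, sub_eq_zero] at hx
    unfold Pt
    rw [Set.forall_mem_range]
    intro l
    rw [hQ]
    have e1 : (Fin.cons 1 (fun i => x (Fin.succ i)) : Fin (a + 1) → A) = x := by
      funext i
      refine Fin.cases ?_ (fun i => ?_) i
      · exact hx.1.symm
      · rfl
    rw [e1]
    exact hx.2 l
  · intro A _ y hy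
    rw [Pt.insert_iff, Pt.quad_iff, map_sub, map_one, ev_X, sub_eq_zero]
    refine ⟨rfl, fun l => ?_⟩
    rw [← hQ]
    exact hy _ ⟨l, rfl⟩
  · intro A _ x hx
    rw [Pt.insert_iff, map_sub, map_one, ev_X, sub_eq_zero] at hx
    funext i
    refine Fin.cases ?_ (fun i => ?_) i
    · exact hx.1.symm
    · rfl
  · intro A _ y _; rfl

end Pool.Agent.Helper81.HG
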