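import Pool.Agent.Helper81.HG.Cls

/-!
# The schemes `∑ x_l y_i z_j = 1` are smooth
-/

set_option autoImplicit false

open AlgebraicGeometry CategoryTheory MvPolynomial
open Pool.Agent.Helper81.CP

namespace Pool.Agent.Helper81.HG

lemma formallySmooth_of_scl {m : ℕ} {σ : Type} (F : MvPolynomial σ ℤ) (W : Set σ)
    (hF : ∀ (A : Type) [CommRing A] (x : σ → A) (c : A), ev (scl W c x) F = c * ev x F)
    [Algebra (ZMod m) (Rng σ (insert (C (m : ℤ)) {F - C 1}))] :
    Algebra.FormallySmooth (ZMod m) (Rng σ (insert (C (m : ℤ)) {F - C 1})) := by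
  classical
  refine Algebra.FormallySmooth.of_comp_surjective fun B _ _ I hI φ => ?_
  let E : Set (MvPolynomial σ ℤ) := insert (C (m : ℤ)) {F - C 1}
  have hE : ∀ {A : Type} [CommRing A] (x : σ → A), Pt E x ↔ (m : A) = 0 ∧ ev x F - 1 = 0 := by
    intro A _ x
    simp [Pt, E]
  obtain ⟨x, hx⟩ : ∃ x : σ → B, ∀ i, Ideal.Quotient.mk I (x i) =
      (φ : Rng σ E →+* B ⧸ I) (tau E i) :=
    ⟨fun i => (Ideal.Quotient.mk_surjective (φ (tau E i))).choose,
      fun i => (Ideal.Quotient.mk_surjective (φ (tau E i))).choose_spec⟩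
  have h0 : Pt E (fun i => Ideal.Quotient.mk I (x i)) := by
    rw [funext hx]
    exact (rep_rng E).pt.map _
  have hm : (m : B) = 0 := by
    rw [← map_natCast (algebraMap (ZMod m) B) m, ZMod.natCast_self, map_zero]
  have h1 : ev x F - 1 ∈ I := by
    rw [hE, ← ev_map, ← map_one (Ideal.Quotient.mk I), ← map_sub] at h0
    exact Ideal.Quotient.eq_zero_iff_mem.mp h0.2
  have h2 : (ev x F - 1) ^ 2 = 0 := by
    have h3 := Ideal.pow_mem_pow h1 2
    rwa [hI, Ideal.mem_bot] at h3
  let y : σ → B := scl W (1 - (ev x F - 1)) x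
  have hy : Pt E y := by
    rw [hE, hF]
    exact ⟨hm, by linear_combination -h2⟩
  have hxy : ∀ i, Ideal.Quotient.mk I (y i) = Ideal.Quotient.mk I (x i) := by
    intro i
    rw [Ideal.Quotient.eq]
    by_cases hi : i ∈ W
    · have h4 : y i - x i = -x i * (ev x F - 1) := by
        simp only [y, scl, hi, if_true]
        ring
      rw [h4]
      exact I.mul_mem_left _ h1
    · have h4 : y i - x i = 0 := by
        simp only [y, scl, hi, if_false, sub_self]
      rw [h4]
      exact I.zero_mem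
  obtain ⟨ψ, hψ⟩ := (rep_rng E).ex B y hy
  refine ⟨{ ψ with commutes' := fun r => ?_ }, ?_⟩
  · exact congrArg (fun g : ZMod m →+* B => g r)
      (Subsingleton.elim (ψ.comp (algebraMap (ZMod m) (Rng σ E))) (algebraMap (ZMod m) B))
  · refine AlgHom.coe_ringHom_injective ?_
    refine (rep_rng E).uniq _ _ _ fun i => ?_
    rw [← hx i, ← hxy i, ← hψ i]
    rfl

theorem smooth_of_scl {m : ℕ} {σ : Type} [Finite σ] (F : MvPolynomial σ ℤ) (W : Set σ)
    (hF : ∀ (A : Type) [CommRing A] (x : σ → A) (c : A), ev (scl W c x) F = c * ev x F)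
    (f : Zeros m {F - C 1} ⟶ Spec (CommRingCat.of (ZMod m))) : Smooth f := by
  have key : ∀ g : Spec (CommRingCat.of (Rng σ (insert (C (m : ℤ)) {F - C 1}))) ⟶
      Spec (CommRingCat.of (ZMod m)), Smooth g := by
    intro g
    obtain ⟨φ, hφ⟩ := Spec.map_surjective g
    rw [← hφ, HasRingHomProperty.Spec_iff (P := @Smooth)]
    have hft : FT (Rng σ (insert (C (m : ℤ)) {F - C 1})) := ft_rng _
    have hgft : φ.hom.FiniteType := by
      have h1 : (φ.hom.comp (Int.castRingHom (ZMod m))).FiniteType := by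
        have h2 : φ.hom.comp (Int.castRingHom (ZMod m)) = algebraMap ℤ _ :=
          RingHom.ext_int _ _
        rw [h2]
        exact ft_iff_finiteType.mp hft
      exact RingHom.FiniteType.of_comp_finiteType h1
    have hN : IsNoetherianRing (ZMod m) :=
      isNoetherianRing_of_surjective ℤ (ZMod m) (Int.castRingHom _) (ZMod.ringHom_surjective _)
    let alg : Algebra (ZMod m) (Rng σ (insert (C (m : ℤ)) {F - C 1})) := φ.hom.toAlgebra
    have h2 : Algebra.FiniteType (ZMod m) (Rng σ (insert (C (m : ℤ)) {F - C 1})) := hgft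
    have hs : Algebra.Smooth (ZMod m) (Rng σ (insert (C (m : ℤ)) {F - C 1})) :=
      { formallySmooth := formallySmooth_of_scl F W hF
        finitePresentation := Algebra.FinitePresentation.of_finiteType.mp h2 }
    have h3 : φ.hom = algebraMap (ZMod m) (Rng σ (insert (C (m : ℤ)) {F - C 1})) := rfl
    rw [h3, RingHom.smooth_algebraMap]
    exact hs
  exact key f

/-- **The schemes `∑ x_l y_i z_j = 1` are smooth over `ℤ/m`.** -/
theorem smooth_trilinear (m n : ℕ) (X : Scheme.{0}) (hX : X ∈ Trilinear m n 1)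
    (f : X ⟶ Spec (CommRingCat.of (ZMod m))) : Smooth f := by
  obtain ⟨a, b, T, rfl⟩ := hX
  refine smooth_of_scl _ (Set.range Sum.inl) (fun A _ x c => ?_) f
  rw [map_sum, map_sum, Finset.mul_sum]
  refine Finset.sum_congr rfl fun t _ => ?_
  simp [scl]
  ring

end Pool.Agent.Helper81.HG
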